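import Mathlib

/-!
# Transfinite Ulm subgroups, nice subgroups and totally projective groups
-/

namespace Pool.Agent.Lib_MP_fa2e48_tp

universe u

/-- The Ulm subgroups `p ^ (ω κ) A` of `A`: an element `x` lies in `ulm p A κ` iff for all `μ < κ`
and all `m` it is of the form `p ^ m • y` with `y` in `ulm p A μ`. -/
noncomputable def ulm (p : ℕ) (A : Type u) [AddCommGroup A] (κ : Ordinal.{u}) : AddSubgroup A :=
  ⨅ μ : Set.Iio κ, ⨅ m : ℕ, (ulm p A μ.1).map (nsmulAddMonoidHom (p ^ m))
termination_by κ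
decreasing_by exact μ.2

/-- The subgroup `p ^ (ω κ + m) A = p ^ m (p ^ (ω κ) A)`. -/
noncomputable def pu (p : ℕ) (A : Type u) [AddCommGroup A] (κ : Ordinal.{u}) (m : ℕ) :
    AddSubgroup A :=
  (ulm p A κ).map (nsmulAddMonoidHom (p ^ m))

/-- The subgroup `N` of `C` is *nice*: every coset of `N` contains an element of maximal height
(`p`-heights in `C`). -/
def IsNice (p : ℕ) {C : Type u} [AddCommGroup C] (N : AddSubgroup C) : Prop :=
  ∀ x : C, ∃ n ∈ N, ∀ n' ∈ N, ∀ (κ : Ordinal.{u}) (m : ℕ),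
    x + n' ∈ pu p C κ m → x + n ∈ pu p C κ m

/-- Hill's third axiom of countability: `C` has a system of nice subgroups which contains `0`, is
closed under arbitrary sums, and such that for every member `N` and every countable subset `X` of
`C` there is a member `N'` containing `N` and `X` with `N' / N` countable. -/
def AxiomThree (p : ℕ) (C : Type u) [AddCommGroup C] : Prop :=
  ∃ S : Set (AddSubgroup C), (∀ N ∈ S, IsNice p N) ∧ ⊥ ∈ S ∧ (∀ T ⊆ S, sSup T ∈ S) ∧
    ∀ N ∈ S, ∀ X : Set C, X.Countable → ∃ N' ∈ S, N ≤ N' ∧ X ⊆ N' ∧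
      ∃ Y : Set C, Y.Countable ∧ N' = N ⊔ AddSubgroup.closure Y

end Pool.Agent.Lib_MP_fa2e48_tp
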