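import Mathlib
import Pool.Agent.Lib_MP_fa2e48_al.Defs
import Pool.Agent.Lib_MP_fa2e48_tp.Defs

/-!
# Basic properties of the transfinite Ulm subgroups
-/

namespace Pool.Agent.Lib_MP_fa2e48_tp

open Pool.Agent.Lib_MP_fa2e48_al

universe u

variable {p : ℕ} {A : Type u} [AddCommGroup A]

theorem mem_ulm {κ : Ordinal.{u}} {x : A} :
    x ∈ ulm p A κ ↔ ∀ μ < κ, ∀ m : ℕ, ∃ y ∈ ulm p A μ, p ^ m • y = x := by
  rw [ulm]
  simp only [AddSubgroup.mem_iInf, AddSubgroup.mem_map, nsmulAddMonoidHom_apply]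
  constructor
  · intro h μ hμ m
    exact h ⟨μ, hμ⟩ m
  · intro h μ m
    exact h μ.1 μ.2 m

theorem ulm_zero : ulm p A 0 = ⊤ := by
  rw [AddSubgroup.eq_top_iff']
  intro x
  rw [mem_ulm]
  intro μ hμ
  exact absurd hμ (not_lt_bot (a := μ))

theorem ulm_anti {μ κ : Ordinal.{u}} (h : μ ≤ κ) : ulm p A κ ≤ ulm p A μ := by
  intro x hx
  rw [mem_ulm] at hx ⊢
  exact fun ν hν m => hx ν (hν.trans_le h) m

theorem mem_pu {κ : Ordinal.{u}} {m : ℕ} {x : A} :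
    x ∈ pu p A κ m ↔ ∃ y ∈ ulm p A κ, p ^ m • y = x := by
  simp only [pu, AddSubgroup.mem_map, nsmulAddMonoidHom_apply]

theorem pu_zero {κ : Ordinal.{u}} : pu p A κ 0 = ulm p A κ := by
  ext x
  rw [mem_pu]
  constructor
  · rintro ⟨y, hy, rfl⟩
    rwa [pow_zero, one_smul]
  · intro hx
    exact ⟨x, hx, by rw [pow_zero, one_smul]⟩

theorem pu_anti {κ : Ordinal.{u}} {m n : ℕ} (h : m ≤ n) : pu p A κ n ≤ pu p A κ m := by
  intro x hx
  rw [mem_pu] at hx ⊢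
  obtain ⟨y, hy, rfl⟩ := hx
  refine ⟨p ^ (n - m) • y, (ulm p A κ).nsmul_mem hy _, ?_⟩
  rw [smul_smul, ← pow_add, Nat.add_sub_cancel' h]

theorem ulm_le_pu {μ κ : Ordinal.{u}} (h : μ < κ) (m : ℕ) : ulm p A κ ≤ pu p A μ m := by
  intro x hx
  rw [mem_ulm] at hx
  exact mem_pu.2 (hx μ h m)

theorem pu_le_ulm {κ : Ordinal.{u}} {m : ℕ} : pu p A κ m ≤ ulm p A κ := by
  intro x hx
  rw [← pu_zero]
  exact pu_anti (Nat.zero_le m) hx

theorem pu_le_pu {μ κ : Ordinal.{u}} (h : μ < κ) (m n : ℕ) : pu p A κ n ≤ pu p A μ m :=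
  pu_le_ulm.trans (ulm_le_pu h m)

theorem pu_smul {κ : Ordinal.{u}} {m : ℕ} {x : A} (hx : x ∈ pu p A κ m) (n : ℕ) :
    p ^ n • x ∈ pu p A κ (m + n) := by
  rw [mem_pu] at hx ⊢
  obtain ⟨y, hy, rfl⟩ := hx
  exact ⟨y, hy, by rw [smul_smul, ← pow_add, Nat.add_comm]⟩

theorem pu_div {κ : Ordinal.{u}} {m n : ℕ} {x : A} (hx : x ∈ pu p A κ (m + n)) :
    ∃ y ∈ pu p A κ m, p ^ n • y = x := by
  rw [mem_pu] at hx
  obtain ⟨y, hy, rfl⟩ := hx
  exact ⟨p ^ m • y, mem_pu.2 ⟨y, hy, rfl⟩, by rw [smul_smul, ← pow_add, Nat.add_comm]⟩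

theorem mem_ulm_succ {κ : Ordinal.{u}} {x : A} :
    x ∈ ulm p A (Order.succ κ) ↔ ∀ m : ℕ, ∃ y ∈ ulm p A κ, p ^ m • y = x := by
  constructor
  · intro hx m
    exact mem_ulm.1 hx κ (Order.lt_succ κ) m
  · intro hx
    rw [mem_ulm]
    intro μ hμ m
    obtain ⟨y, hy, hyx⟩ := hx m
    exact ⟨y, ulm_anti (Order.lt_succ_iff.1 hμ) hy, hyx⟩

theorem mem_ulm_limit {κ : Ordinal.{u}} (hκ : Order.IsSuccLimit κ) {x : A} :
    x ∈ ulm p A κ ↔ ∀ μ < κ, x ∈ ulm p A μ := by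
  constructor
  · intro hx μ hμ
    exact ulm_anti hμ.le hx
  · intro hx
    rw [mem_ulm]
    intro μ hμ m
    exact mem_ulm.1 (hx _ (hκ.succ_lt hμ)) μ (Order.lt_succ μ) m

/-- Homomorphisms respect Ulm subgroups. -/
theorem map_ulm {B : Type u} [AddCommGroup B] (φ : A →+ B) (κ : Ordinal.{u}) :
    ∀ x ∈ ulm p A κ, φ x ∈ ulm p B κ := by
  induction κ using WellFoundedLT.induction with
  | ind κ ih =>
    intro x hx
    rw [mem_ulm] at hx ⊢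
    intro μ hμ m
    obtain ⟨y, hy, rfl⟩ := hx μ hμ m
    exact ⟨φ y, ih μ hμ y hy, by rw [map_nsmul]⟩

theorem map_pu {B : Type u} [AddCommGroup B] (φ : A →+ B) {κ : Ordinal.{u}} {m : ℕ} {x : A}
    (hx : x ∈ pu p A κ m) : φ x ∈ pu p B κ m := by
  rw [mem_pu] at hx ⊢
  obtain ⟨y, hy, rfl⟩ := hx
  exact ⟨φ y, map_ulm φ κ y hy, by rw [map_nsmul]⟩

/-- Ulm subgroups of a quotient by a subgroup of `ulm p A κ`. -/
theorem mem_ulm_quot {C : Type u} [AddCommGroup C] (q : A →+ C) (hq : Function.Surjective q)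
    {κ : Ordinal.{u}} (hker : ∀ x, q x = 0 → x ∈ ulm p A κ) :
    ∀ μ ≤ κ, ∀ x, q x ∈ ulm p C μ ↔ x ∈ ulm p A μ := by
  intro μ
  induction μ using WellFoundedLT.induction with
  | ind μ ih =>
    intro hμ x
    refine ⟨fun hx => ?_, fun hx => map_ulm q μ x hx⟩
    rw [mem_ulm] at hx ⊢
    intro ν hν m
    obtain ⟨c, hc, hcx⟩ := hx ν hν m
    obtain ⟨y, rfl⟩ := hq c
    have hy : y ∈ ulm p A ν := (ih ν hν (hν.le.trans hμ) y).1 hc
    have h1 : x - p ^ m • y ∈ ulm p A κ := hker _ (by rw [map_sub, map_nsmul, hcx, sub_self])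
    obtain ⟨y', hy', h2⟩ := mem_ulm.1 h1 ν (hν.trans_le hμ) m
    exact ⟨y + y', add_mem hy hy', by rw [smul_add, h2]; abel⟩

theorem mem_pu_quot {C : Type u} [AddCommGroup C] (q : A →+ C) (hq : Function.Surjective q)
    {κ : Ordinal.{u}} (hker : ∀ x, q x = 0 → x ∈ ulm p A κ) {μ : Ordinal.{u}} (hμ : μ < κ)
    {m : ℕ} {x : A} : q x ∈ pu p C μ m ↔ x ∈ pu p A μ m := by
  refine ⟨fun hx => ?_, fun hx => map_pu q hx⟩
  rw [mem_pu] at hx
  obtain ⟨c, hc, hcx⟩ := hx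
  obtain ⟨y, rfl⟩ := hq c
  have hy : y ∈ ulm p A μ := (mem_ulm_quot q hq hker μ hμ.le y).1 hc
  have h1 : x - p ^ m • y ∈ ulm p A κ := hker _ (by rw [map_sub, map_nsmul, hcx, sub_self])
  have h2 : x - p ^ m • y ∈ pu p A μ m := ulm_le_pu hμ m h1
  have h3 := add_mem h2 (mem_pu.2 ⟨y, hy, rfl⟩ : p ^ m • y ∈ pu p A μ m)
  rwa [sub_add_cancel] at h3

/-- lifting of elements of given height along a quotient map. -/
theorem exists_lift_pu {C : Type u} [AddCommGroup C] (q : A →+ C) (hq : Function.Surjective q)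
    {κ : Ordinal.{u}} (hker : ∀ x, q x = 0 → x ∈ ulm p A κ) {μ : Ordinal.{u}} (hμ : μ < κ)
    {m : ℕ} {c : C} (hc : c ∈ pu p C μ m) : ∃ x ∈ pu p A μ m, q x = c := by
  obtain ⟨x, rfl⟩ := hq c
  exact ⟨x, (mem_pu_quot q hq hker hμ).1 hc, rfl⟩

/-- Exact heights of elements outside `ulm p A κ`. -/
theorem exists_height {κ : Ordinal.{u}} {x : A} (hx : x ∉ ulm p A κ) :
    ∃ μ < κ, ∃ m : ℕ, x ∈ pu p A μ m ∧ x ∉ pu p A μ (m + 1) := by
  classical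
  have h1 : ∃ μ, x ∉ ulm p A μ := ⟨κ, hx⟩
  let μ0 := sInf {μ | x ∉ ulm p A μ}
  have h2 : x ∉ ulm p A μ0 := csInf_mem (s := {μ | x ∉ ulm p A μ}) h1
  have h3 : ∀ ν < μ0, x ∈ ulm p A ν := by
    intro ν hν
    by_contra hc
    exact notMem_of_lt_csInf hν (OrderBot.bddBelow _) hc
  have h4 : μ0 ≤ κ := csInf_le (OrderBot.bddBelow _) hx
  rw [mem_ulm] at h2
  push Not at h2
  obtain ⟨ν, hν, m, hm⟩ := h2
  have h5 : ∃ m, x ∉ pu p A ν m := ⟨m, fun h => by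
    obtain ⟨y, hy, hyx⟩ := mem_pu.1 h
    exact hm y hy hyx⟩
  have h6 := Nat.find_spec h5
  have h7 : Nat.find h5 ≠ 0 := by
    intro h0
    rw [h0, pu_zero] at h6
    exact h6 (h3 ν hν)
  refine ⟨ν, hν.trans_le h4, Nat.find h5 - 1, ?_, ?_⟩
  · have := Nat.find_min h5 (show Nat.find h5 - 1 < Nat.find h5 by omega)
    exact not_not.1 this
  · rwa [Nat.sub_add_cancel (by omega)]

/-- Ulm subgroups of Ulm subgroups. -/
theorem mem_ulm_ulm (μ ν : Ordinal.{u}) :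
    ∀ x : ulm p A μ, x ∈ ulm p (ulm p A μ) ν ↔ (x : A) ∈ ulm p A (μ + ν) := by
  induction ν using WellFoundedLT.induction with
  | ind ν ih =>
    intro x
    constructor
    · intro hx
      rw [mem_ulm] at hx ⊢
      intro σ hσ m
      rcases lt_or_ge σ μ with h | h
      · exact mem_ulm.1 x.2 σ h m
      · obtain ⟨ν', rfl⟩ : ∃ ν', σ = μ + ν' := ⟨σ - μ, (Ordinal.add_sub_cancel_of_le h).symm⟩
        have hν' : ν' < ν := lt_of_add_lt_add_left hσ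
        obtain ⟨y, hy, hyx⟩ := hx ν' hν' m
        exact ⟨y, (ih ν' hν' y).1 hy, congrArg Subtype.val hyx⟩
    · intro hx
      rw [mem_ulm] at hx ⊢
      intro ν' hν' m
      obtain ⟨y, hy, hyx⟩ := hx (μ + ν') (by gcongr) m
      exact ⟨⟨y, ulm_anti (le_self_add) hy⟩, (ih ν' hν' _).2 hy, Subtype.ext hyx⟩

/-- The Ulm subgroup as a submodule over the endomorphism ring. -/
noncomputable def ulmS (p : ℕ) (A : Type u) [AddCommGroup A] (κ : Ordinal.{u}) :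
    Submodule (AddMonoid.End A) A where
  carrier := ulm p A κ
  add_mem' := add_mem
  zero_mem' := zero_mem _
  smul_mem' := fun φ x hx => map_ulm (φ : A →+ A) κ x hx

theorem mem_ulmS {κ : Ordinal.{u}} {x : A} : x ∈ ulmS p A κ ↔ x ∈ ulm p A κ := Iff.rfl

theorem mem_ulm_one {x : A} : x ∈ ulm p A 1 ↔ x ∈ infHeight p A := by
  rw [← zero_add (1 : Ordinal.{u}), ← Order.succ_eq_add_one, mem_ulm_succ]
  constructor
  · intro h n
    obtain ⟨y, -, hy⟩ := h n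
    exact ⟨y, hy⟩
  · intro h n
    obtain ⟨y, hy⟩ := h n
    exact ⟨y, by rw [ulm_zero]; trivial, hy⟩

end Pool.Agent.Lib_MP_fa2e48_tp
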