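import Mathlib
import Pool.Agent.Lib_MP_fa2e48_tp.Ulm

/-!
# Bases adapted to the Ulm subgroups
-/

namespace Pool.Agent.Lib_MP_fa2e48_tp

open Finsupp Pool.Agent.Lib_MP_fa2e48_al

universe u

/-- Target filtrations. -/
structure TQ (p : ℕ) (κs : Ordinal.{u}) {A' : Type u} [AddCommGroup A']
    (Q : Ordinal.{u} → ℕ → AddSubgroup A') : Prop where
  anti : ∀ {κ m n}, m ≤ n → Q κ n ≤ Q κ m
  lt : ∀ {μ κ}, μ < κ → κ < κs → ∀ m n, Q κ n ≤ Q μ m
  mul : ∀ {κ m n x}, x ∈ Q κ m → p ^ n • x ∈ Q κ (m + n)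
  div : ∀ {κ m n x}, x ∈ Q κ (m + n) → ∃ y ∈ Q κ m, p ^ n • y = x

/-- A basis of `A` modulo `p ^ (ω κs) A` adapted to the Ulm subgroups: the generators `a i` with
`k i = κ` form a basis of `p ^ (ω κ) A` modulo `p ^ (ω (κ + 1)) A`, with cyclic factors of order
`p ^ M i`, and `p ^ M i • a i` is a combination `β i` of generators of larger `k` and smaller rank,
modulo `p ^ (ω κs) A`. -/
structure UlmBasis (p : ℕ) (A : Type u) [AddCommGroup A] (κs : Ordinal.{u}) (I : Type u) where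
  a : I → A
  k : I → Ordinal.{u}
  M : I → ℕ
  rk : I → ℕ
  β : I → I →₀ ℤ
  k_lt : ∀ i, k i < κs
  mem : ∀ i, a i ∈ ulm p A (k i)
  dep : ∀ i, ∀ j ∈ (β i).support, rk j < rk i ∧ k i < k j
  rel : ∀ i, p ^ M i • a i - linearCombination ℤ a (β i) ∈ ulm p A κs
  span : ∀ κ ≤ κs, ∀ x ∈ ulm p A κ, ∃ γ : I →₀ ℤ, (∀ j ∈ γ.support, κ ≤ k j) ∧
    x - linearCombination ℤ a γ ∈ ulm p A κs
  indep : ∀ κ < κs, ∀ γ : I →₀ ℤ, (∀ j ∈ γ.support, k j = κ) →
    linearCombination ℤ a γ ∈ ulm p A (Order.succ κ) → ∀ j, ((p ^ M j : ℕ) : ℤ) ∣ γ j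

namespace UlmBasis

variable {p : ℕ} {A : Type u} [AddCommGroup A] {κs : Ordinal.{u}} {I : Type u}

/-- The set `D` of indices is closed under dependencies. -/
def Closed (b : UlmBasis p A κs I) (D : Set I) : Prop :=
  ∀ i ∈ D, ∀ j ∈ (b.β i).support, j ∈ D

/-- `γ` is reduced. -/
def Reduced (b : UlmBasis p A κs I) (γ : I →₀ ℤ) : Prop :=
  ∀ j, 0 ≤ γ j ∧ γ j < ((p ^ b.M j : ℕ) : ℤ)

/-- The formal relations with indices in `D`. -/
noncomputable def Rel (b : UlmBasis p A κs I) (D : Set I) : AddSubgroup (I →₀ ℤ) :=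
  AddSubgroup.closure {γ | ∃ i ∈ D, γ = single i ((p ^ b.M i : ℕ) : ℤ) - b.β i}

/-- Good values on `D`: compatible with the relations when `p ^ (ω κs) A` is mapped to `0`. -/
def Good (b : UlmBasis p A κs I) {G : Type u} [AddCommGroup G] (D : Set I) (R : I → G) : Prop :=
  ∀ i ∈ D, p ^ b.M i • R i = linearCombination ℤ R (b.β i)

end UlmBasis

end Pool.Agent.Lib_MP_fa2e48_tp
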