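import Mathlib
import Pool.Agent.Lib_MP_fa2e48_tp.Basis

/-!
# Assignment of the rooms
-/

namespace Pool.Agent.Lib_MP_fa2e48_tp

open Finsupp Pool.Agent.Lib_MP_fa2e48_al

universe u

/-- an embedding by cardinal arithmetic -/
private theorem alpha_emb {J : Type u} (A T : Set J) (hT : T.Infinite)
    (h : Cardinal.mk A ≤ Cardinal.mk T) : Nonempty (ℕ × (ℕ × A) ↪ T) := by
  have h0 : Cardinal.aleph0 ≤ Cardinal.mk T := by
    rw [Cardinal.aleph0_le_mk_iff]
    exact hT.to_subtype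
  have h1 : Cardinal.lift.{u} (Cardinal.mk ℕ) ≤ Cardinal.mk T := by
    rw [Cardinal.mk_nat, Cardinal.lift_aleph0]
    exact h0
  have h2 : Cardinal.mk (ℕ × (ℕ × A)) ≤ Cardinal.mk T := by
    rw [Cardinal.mk_prod, Cardinal.mk_prod, Cardinal.lift_mul, Cardinal.lift_lift,
      Cardinal.lift_lift]
    simp only [Cardinal.mk_nat, Cardinal.lift_aleph0, Cardinal.lift_id']
    refine Cardinal.mul_le_of_le h0 h0 ?_
    exact Cardinal.mul_le_of_le h0 h0 h
  exact h2

/-- one window -/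
private theorem alpha_window {J : Type u} (M : J → ℕ) (hM : ∀ n : ℕ, ∃ j, n ≤ M j) :
    ∃ α : J → ℕ × J, ∀ (n : ℕ) (i : J), {ρ | α ρ = (n, i) ∧ M i ≤ M ρ}.Infinite := by
  classical
  let L : ℕ → Set J := fun m => {j | M j = m}
  let P : J → Prop := fun i => ∃ m, M i ≤ m ∧ (L m).Infinite
  let c : J → Option ℕ := fun i => if h : P i then some (Nat.find h) else none
  have hcs : ∀ i m, c i = some m → M i ≤ m ∧ (L m).Infinite ∧
      ∀ l, M i ≤ l → l < m → (L l).Finite := by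
    intro i m h
    by_cases hP : P i
    · have h1 : c i = some (Nat.find hP) := dif_pos hP
      rw [h1, Option.some.injEq] at h
      subst h
      refine ⟨(Nat.find_spec hP).1, (Nat.find_spec hP).2, fun l h2 h3 => ?_⟩
      have h4 := Nat.find_min hP h3
      by_contra h5
      exact h4 ⟨h2, h5⟩
    · have h1 : c i = none := dif_neg hP
      rw [h1] at h
      exact absurd h (by simp)
  have hcn : ∀ i, c i = none ↔ ¬ P i := by
    intro i
    by_cases hP : P i
    · have h1 : c i = some (Nat.find hP) := dif_pos hP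
      rw [h1]
      simp [hP]
    · have h1 : c i = none := dif_neg hP
      exact ⟨fun _ => hP, fun _ => h1⟩
  let F : Set J := {i | ¬ P i}
  have hFL : ∀ i ∈ F, (L (M i)).Finite := by
    intro i hi
    by_contra h
    exact hi ⟨M i, le_rfl, h⟩
  have hFfin : ∀ m, {ρ | ρ ∈ F ∧ M ρ < m}.Finite := by
    intro m
    have h1 : {ρ | ρ ∈ F ∧ M ρ < m} ⊆ ⋃ l ∈ Finset.range m, {ρ | ρ ∈ F ∧ M ρ = l} := by
      rintro ρ ⟨h2, h3⟩
      simp only [Set.mem_iUnion, Finset.mem_range, exists_prop]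
      exact ⟨M ρ, h3, h2, rfl⟩
    refine Set.Finite.subset (Set.Finite.biUnion (Finset.finite_toSet _) fun l _ => ?_) h1
    by_cases h4 : ∃ ρ, ρ ∈ F ∧ M ρ = l
    · obtain ⟨ρ, h5, h6⟩ := h4
      have h7 := hFL ρ h5
      rw [h6] at h7
      exact h7.subset fun x hx => hx.2
    · convert Set.finite_empty
      refine Set.eq_empty_of_forall_notMem fun x hx => h4 ⟨x, hx⟩
  have hFinf : ∀ i ∈ F, F.Infinite := by
    intro i hi hfin
    obtain ⟨b, hb⟩ := (hfin.image M).bddAbove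
    obtain ⟨j, hj⟩ := hM (max (b + 1) (M i))
    have h1 : j ∈ F := by
      rintro ⟨m, h2, h3⟩
      exact hi ⟨m, ((le_max_right _ _).trans hj).trans h2, h3⟩
    have h2 := hb ⟨j, h1, rfl⟩
    have h3 := (le_max_left (b + 1) (M i)).trans hj
    omega
  let T : Option ℕ → Set J := fun o => o.elim F L
  have hTdisj : ∀ i j x, x ∈ T (c i) → x ∈ T (c j) → c i = c j := by
    intro i j x hx hy
    rcases hi : c i with _ | m <;> rcases hj : c j with _ | l
    · rfl
    · rw [hi] at hx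
      rw [hj] at hy
      have h1 : x ∈ F := hx
      have h2 : M x = l := hy
      exact absurd (hFL x h1) (by rw [h2]; exact (hcs j l hj).2.1)
    · rw [hi] at hx
      rw [hj] at hy
      have h1 : x ∈ F := hy
      have h2 : M x = m := hx
      exact absurd (hFL x h1) (by rw [h2]; exact (hcs i m hi).2.1)
    · rw [hi] at hx
      rw [hj] at hy
      have h1 : M x = m := hx
      have h2 : M x = l := hy
      rw [← h1, ← h2]
  have hemb : ∀ o : Option ℕ, (∃ i, c i = o) →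
      Nonempty (ℕ × (ℕ × ({i | c i = o} : Set J)) ↪ T o) := by
    rintro o ⟨i, hi⟩
    rcases o with _ | m
    · have h1 : i ∈ F := (hcn i).1 hi
      refine alpha_emb _ _ (hFinf i h1) ?_
      have h2 : {i | c i = none} = F := by
        ext j
        exact hcn j
      rw [h2]
      exact le_rfl
    · have h1 := hcs i m hi
      refine alpha_emb _ _ h1.2.1 ?_
      have h0 : Cardinal.aleph0 ≤ Cardinal.mk (L m) := by
        rw [Cardinal.aleph0_le_mk_iff]
        exact h1.2.1.to_subtype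
      have h2 : {i | c i = some m} ⊆ L m ∪ {j | M j < m ∧ (L (M j)).Finite} := by
        intro j hj
        have h3 := hcs j m hj
        rcases h3.1.eq_or_lt with h4 | h4
        · exact Or.inl h4
        · exact Or.inr ⟨h4, h3.2.2 (M j) le_rfl h4⟩
      have h3 : {j | M j < m ∧ (L (M j)).Finite}.Finite := by
        have h4 : {j | M j < m ∧ (L (M j)).Finite} ⊆
            ⋃ l ∈ Finset.range m, {j | M j = l ∧ (L l).Finite} := by
          rintro j ⟨h5, h6⟩
          simp only [Set.mem_iUnion, Finset.mem_range, exists_prop]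
          exact ⟨M j, h5, rfl, h6⟩
        refine Set.Finite.subset (Set.Finite.biUnion (Finset.finite_toSet _) fun l _ => ?_) h4
        by_cases h7 : (L l).Finite
        · exact h7.subset fun x hx => hx.1
        · convert Set.finite_empty
          exact Set.eq_empty_of_forall_notMem fun x hx => h7 hx.2
      refine (Cardinal.mk_le_mk_of_subset h2).trans ((Cardinal.mk_union_le _ _).trans ?_)
      refine Cardinal.add_le_of_le h0 le_rfl ?_
      haveI := h3.to_subtype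
      exact (Cardinal.lt_aleph0_of_finite _).le.trans h0
  have hex : ∀ i : J, Nonempty (ℕ × (ℕ × ({j | c j = c i} : Set J)) ↪ T (c i)) :=
    fun i => hemb _ ⟨i, rfl⟩
  let e : ∀ o : Option ℕ, (ℕ × (ℕ × ({j | c j = o} : Set J))) → J := fun o =>
    if h : ∃ i, c i = o then fun q => ((Classical.choice (hemb o h)) q : J)
    else fun q => absurd ⟨(q.2.2 : J), q.2.2.2⟩ h
  have hemem : ∀ o q, e o q ∈ T o := by
    intro o q
    have h : ∃ i, c i = o := ⟨q.2.2, q.2.2.2⟩
    have h1 : e o = fun q => ((Classical.choice (hemb o h)) q : J) := dif_pos h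
    rw [h1]
    exact (Classical.choice (hemb o h) q).2
  have heinj : ∀ o, Function.Injective (e o) := by
    intro o q q' hqq
    have h : ∃ i, c i = o := ⟨q.2.2, q.2.2.2⟩
    have h1 : e o = fun q => ((Classical.choice (hemb o h)) q : J) := dif_pos h
    rw [h1] at hqq
    exact (Classical.choice (hemb o h)).injective (Subtype.ext hqq)
  let f : ℕ × (ℕ × J) → J := fun q => e (c q.2.2) (q.1, (q.2.1, ⟨q.2.2, rfl⟩))
  have hf : ∀ (q : ℕ × (ℕ × J)) (o : Option ℕ) (h : c q.2.2 = o),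
      f q = e o (q.1, (q.2.1, ⟨q.2.2, h⟩)) := by
    rintro q o rfl
    rfl
  have hfinj : Function.Injective f := by
    rintro ⟨t, n, i⟩ ⟨t', n', i'⟩ h
    have h1 : f (t, n, i) ∈ T (c i) := hemem _ _
    have h2 : f (t', n', i') ∈ T (c i') := hemem _ _
    rw [← h] at h2
    have h3 := hTdisj i i' _ h1 h2
    have h4 := hf (t, n, i) (c i') h3
    have h5 := hf (t', n', i') (c i') rfl
    rw [h4, h5] at h
    have h6 := heinj _ h
    simp only [Prod.mk.injEq, Subtype.mk.injEq] at h6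
    simp only [Prod.mk.injEq]
    exact h6
  obtain ⟨j0, -⟩ := hM 0
  let α : J → ℕ × J := fun ρ => if h : ∃ q, f q = ρ then (Classical.choose h).2 else (0, j0)
  have hα : ∀ q, α (f q) = q.2 := by
    intro q
    have h : ∃ q', f q' = f q := ⟨q, rfl⟩
    have h1 : α (f q) = (Classical.choose h).2 := dif_pos h
    rw [h1, hfinj (Classical.choose_spec h)]
  refine ⟨α, fun n i => ?_⟩
  have hinjt : Function.Injective fun t : ℕ => f (t, (n, i)) := by
    intro t t' h
    have := hfinj h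
    simp only [Prod.mk.injEq] at this
    exact this.1
  rcases hi : c i with _ | m
  · have h1 : (Set.range fun t : ℕ => f (t, (n, i))).Infinite :=
      Set.infinite_range_of_injective hinjt
    have h2 := h1.sdiff (hFfin (M i))
    refine h2.mono ?_
    rintro ρ ⟨⟨t, rfl⟩, h3⟩
    refine ⟨hα _, ?_⟩
    have h4 : f (t, (n, i)) ∈ T (c i) := hemem _ _
    rw [hi] at h4
    have h5 : f (t, (n, i)) ∈ F := h4
    by_contra h6
    exact h3 ⟨h5, not_le.1 h6⟩
  · have h1 : (Set.range fun t : ℕ => f (t, (n, i))).Infinite :=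
      Set.infinite_range_of_injective hinjt
    refine h1.mono ?_
    rintro ρ ⟨t, rfl⟩
    refine ⟨hα _, ?_⟩
    have h4 : f (t, (n, i)) ∈ T (c i) := hemem _ _
    rw [hi] at h4
    have h5 : M (f (t, (n, i))) = m := h4
    change M i ≤ M (f (t, (n, i)))
    rw [h5]
    exact (hcs i m hi).1

theorem exists_alpha {I : Type u} (k : I → Ordinal.{u}) (M : I → ℕ)
    (hwin : ∀ i : I, ∀ n : ℕ, ∃ j, k j = k i ∧ n ≤ M j) :
    ∃ α : I → ℕ × I, ∀ (n : ℕ) (i : I), {ρ | α ρ = (n, i) ∧ k ρ = k i ∧ M i ≤ M ρ}.Infinite := by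
  classical
  have h : ∀ i : I, ∃ α : {j // k j = k i} → ℕ × {j // k j = k i},
      ∀ (n : ℕ) (j : {j // k j = k i}), {ρ | α ρ = (n, j) ∧ M j ≤ M ρ}.Infinite := by
    intro i
    refine alpha_window (fun j : {j // k j = k i} => M j) fun n => ?_
    obtain ⟨j, h1, h2⟩ := hwin i n
    exact ⟨⟨j, h1⟩, h2⟩
  have h' : ∀ κ : Ordinal.{u}, (∃ i, k i = κ) → ∃ α : {j // k j = κ} → ℕ × {j // k j = κ},
      ∀ (n : ℕ) (j : {j // k j = κ}), {ρ | α ρ = (n, j) ∧ M j ≤ M ρ}.Infinite := by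
    rintro κ ⟨i, rfl⟩
    exact h i
  choose α hα using h'
  refine ⟨fun ρ => ((α (k ρ) ⟨ρ, rfl⟩ ⟨ρ, rfl⟩).1, ((α (k ρ) ⟨ρ, rfl⟩ ⟨ρ, rfl⟩).2 : I)),
    fun n i => ?_⟩
  have hgen : ∀ (ρ : I) (κ : Ordinal.{u}) (h1 : k ρ = κ) (h2 : ∃ i, k i = κ),
      ((α (k ρ) ⟨ρ, rfl⟩ ⟨ρ, rfl⟩).1, ((α (k ρ) ⟨ρ, rfl⟩ ⟨ρ, rfl⟩).2 : I)) =
        ((α κ h2 ⟨ρ, h1⟩).1, ((α κ h2 ⟨ρ, h1⟩).2 : I)) := by
    rintro ρ κ rfl h2
    rfl
  have h1 := hα (k i) ⟨i, rfl⟩ n ⟨i, rfl⟩
  refine (h1.image (f := Subtype.val) Subtype.val_injective.injOn).mono ?_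
  rintro _ ⟨ρ, ⟨h2, h3⟩, rfl⟩
  refine ⟨?_, ρ.2, h3⟩
  change ((α (k ρ) ⟨ρ, rfl⟩ ⟨ρ, rfl⟩).1, ((α (k ρ) ⟨ρ, rfl⟩ ⟨ρ, rfl⟩).2 : I)) = (n, i)
  rw [hgen ρ (k i) ρ.2 ⟨i, rfl⟩]
  have h4 : (⟨(ρ : I), ρ.2⟩ : {j // k j = k i}) = ρ := rfl
  rw [h4, h2]

end Pool.Agent.Lib_MP_fa2e48_tp
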