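import Mathlib
import Pool.Agent.Lib_MP_fa2e48_tp.Basis

/-!
# Subgroups with proper elements
-/

namespace Pool.Agent.Lib_MP_fa2e48_tp

open Finsupp Pool.Agent.Lib_MP_fa2e48_al

universe u

/-- Every coset of `K`, except `K`, contains an element of maximal height, and this height is less
than `κs`. -/
def NP (p : ℕ) {A : Type u} [AddCommGroup A] (κs : Ordinal.{u}) (K : AddSubgroup A) : Prop :=
  ∀ z ∉ K, ∃ κ < κs, ∃ j : ℕ, ∃ s ∈ K, z + s ∈ pu p A κ j ∧ ∀ k ∈ K, z + k ∉ pu p A κ (j + 1)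

theorem np_of_nice {p : ℕ} {A C : Type u} [AddCommGroup A] [AddCommGroup C] (q : A →+ C)
    (hq : Function.Surjective q) {κs : Ordinal.{u}} (hker : ∀ x, q x = 0 ↔ x ∈ ulm p A κs)
    {N : AddSubgroup C} (hN : IsNice p N) : NP p κs (N.comap q) := by
  intro z hz
  have hz' : q z ∉ N := fun h => hz (AddSubgroup.mem_comap.2 h)
  obtain ⟨n, hn, hmax⟩ := hN (q z)
  obtain ⟨s, hs⟩ := hq n
  have hsN : s ∈ N.comap q := AddSubgroup.mem_comap.2 (by rw [hs]; exact hn)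
  have hx : z + s ∉ ulm p A κs := by
    intro h
    have h1 : q (z + s) = 0 := (hker _).2 h
    rw [map_add, hs] at h1
    apply hz'
    have h2 : q z = -n := eq_neg_of_add_eq_zero_left h1
    rw [h2]
    exact N.neg_mem hn
  obtain ⟨κ, hκ, j, h1, h2⟩ := exists_height hx
  refine ⟨κ, hκ, j, s, hsN, h1, fun k hk hc => h2 ?_⟩
  have h3 : q z + q k ∈ pu p C κ (j + 1) := by
    have h4 := map_pu q hc
    rwa [map_add] at h4
  have h5 : q z + n ∈ pu p C κ (j + 1) := hmax (q k) (AddSubgroup.mem_comap.1 hk) κ (j + 1) h3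
  rw [← hs, ← map_add] at h5
  exact (mem_pu_quot q hq (fun x hx0 => (hker x).1 hx0) hκ).1 h5

/-- Finite extensions. -/
theorem np_sup {p : ℕ} [Fact p.Prime] {A : Type u} [AddCommGroup A] {κs : Ordinal.{u}}
    {K : AddSubgroup A} (hK : NP p κs K) {x : A} {M : ℕ} (hx : p ^ M • x ∈ K) :
    NP p κs (K ⊔ AddSubgroup.zmultiples x) := by
  classical
  intro z hz
  have hp : 0 < p ^ M := pow_pos (Fact.out : p.Prime).pos M
  have hxK : ∀ a : ℕ, a • x ∈ K ⊔ AddSubgroup.zmultiples x := fun a =>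
    (AddSubgroup.mem_sup_right (AddSubgroup.nsmul_mem_zmultiples x a))
  have h0 : ∀ a : ℕ, ∃ κ : Ordinal.{u}, κ < κs ∧ ∃ j : ℕ, ∃ s : A, s ∈ K ∧
      (z + a • x) + s ∈ pu p A κ j ∧ ∀ k ∈ K, (z + a • x) + k ∉ pu p A κ (j + 1) := by
    intro a
    have h1 : z + a • x ∉ K := by
      intro h
      apply hz
      have h2 : z = (z + a • x) - a • x := by abel
      rw [h2]
      exact AddSubgroup.sub_mem _ (AddSubgroup.mem_sup_left h) (hxK a)
    obtain ⟨κ, hκ, j, s, hs, h2, h3⟩ := hK _ h1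
    exact ⟨κ, hκ, j, s, hs, h2, h3⟩
  choose κf hκf jf sf hsf hjf1 hjf2 using h0
  obtain ⟨a, ha, hmax⟩ := Finset.exists_max_image (Finset.range (p ^ M))
    (fun a => toLex (κf a, jf a)) ⟨0, Finset.mem_range.2 hp⟩
  refine ⟨κf a, hκf a, jf a, a • x + sf a,
    AddSubgroup.add_mem _ (hxK a) (AddSubgroup.mem_sup_left (hsf a)), ?_, ?_⟩
  · rw [← add_assoc]
    exact hjf1 a
  · intro k' hk' hc
    obtain ⟨k, hk, y, hy, rfl⟩ := AddSubgroup.mem_sup.1 hk'
    obtain ⟨b, rfl⟩ := AddSubgroup.mem_zmultiples_iff.1 hy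
    have hP : (0 : ℤ) < ((p ^ M : ℕ) : ℤ) := by exact_mod_cast hp
    obtain ⟨a', ha'⟩ : ∃ a' : ℕ, (a' : ℤ) = b % ((p ^ M : ℕ) : ℤ) :=
      ⟨(b % ((p ^ M : ℕ) : ℤ)).toNat, Int.toNat_of_nonneg (Int.emod_nonneg _ hP.ne')⟩
    have ha'lt : a' < p ^ M := by
      have h1 := Int.emod_lt_of_pos b hP
      rw [← ha'] at h1
      exact_mod_cast h1
    set c : ℤ := b / ((p ^ M : ℕ) : ℤ) with hcdef
    have hb : b = a' + c * ((p ^ M : ℕ) : ℤ) := by
      rw [ha', hcdef]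
      have h1 := Int.emod_add_mul_ediv b ((p ^ M : ℕ) : ℤ)
      linarith
    have hbx : b • x = a' • x + c • (p ^ M • x) := by
      rw [hb, add_smul, natCast_zsmul, mul_smul, natCast_zsmul]
    have hk'' : k + c • (p ^ M • x) ∈ K := K.add_mem hk (K.zsmul_mem hx c)
    have h1 : (z + a' • x) + (k + c • (p ^ M • x)) ∈ pu p A (κf a) (jf a + 1) := by
      have h2 : (z + a' • x) + (k + c • (p ^ M • x)) = z + (k + b • x) := by
        rw [hbx]
        abel
      rw [h2]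
      exact hc
    have h4 := hmax a' (Finset.mem_range.2 ha'lt)
    rw [Prod.Lex.toLex_le_toLex] at h4
    rcases h4 with h4 | ⟨h4, h5⟩
    · exact hjf2 a' _ hk'' (pu_le_pu h4 _ _ h1)
    · simp only at h4 h5
      rw [← h4] at h1
      exact hjf2 a' _ hk'' (pu_anti (Nat.succ_le_succ h5) h1)

end Pool.Agent.Lib_MP_fa2e48_tp
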