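import Mathlib
import Pool.Agent.Lib_MP_fa2e48_dsc.Defs
import Pool.Agent.Lib_MP_fa2e48_tp.NP

/-!
# Direct sums of countable groups satisfy the third axiom of countability
-/

namespace Pool.Agent.Lib_MP_fa2e48_tp

open Finsupp Pool.Agent.Lib_MP_fa2e48_al

universe u

section nj

variable {C ι : Type u} [AddCommGroup C] {B : ι → Type u} [∀ i, AddCommGroup (B i)]

/-- The elements supported in `J`. -/
private def nj (ψ : C ≃+ Π₀ i, B i) (J : Set ι) : AddSubgroup C where
  carrier := {x | ∀ i, i ∉ J → ψ x i = 0}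
  add_mem' := fun ha hb i hi => by simp [ha i hi, hb i hi]
  zero_mem' := fun i _ => by simp
  neg_mem' := fun ha i hi => by simp [ha i hi]

private theorem mem_nj (ψ : C ≃+ Π₀ i, B i) (J : Set ι) (x : C) :
    x ∈ nj ψ J ↔ ∀ i, i ∉ J → ψ x i = 0 := Iff.rfl

private theorem nj_mono (ψ : C ≃+ Π₀ i, B i) {J K : Set ι} (h : J ⊆ K) : nj ψ J ≤ nj ψ K :=
  fun _ hx i hi => hx i fun hi' => hi (h hi')

private theorem single_mem_nj [DecidableEq ι] (ψ : C ≃+ Π₀ i, B i) {J : Set ι} {i : ι} (hi : i ∈ J)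
    (b : B i) : ψ.symm (DFinsupp.single i b) ∈ nj ψ J := by
  intro j hj
  have hij : i ≠ j := fun h => hj (h ▸ hi)
  rw [AddEquiv.apply_symm_apply, DFinsupp.single_eq_of_ne hij.symm]

/-- a subgroup contains `x` if it contains all parts of `x`. -/
private theorem mem_of_singles [DecidableEq ι] (ψ : C ≃+ Π₀ i, B i) (N : AddSubgroup C) (x : C)
    (h : ∀ i, ψ x i ≠ 0 → ψ.symm (DFinsupp.single i (ψ x i)) ∈ N) : x ∈ N := by
  classical
  have h1 : ψ x = ∑ i ∈ (ψ x).support, DFinsupp.single i (ψ x i) := (DFinsupp.sum_single).symm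
  have h2 : x = ∑ i ∈ (ψ x).support, ψ.symm (DFinsupp.single i (ψ x i)) := by
    rw [← map_sum, ← h1, AddEquiv.symm_apply_apply]
  rw [h2]
  exact AddSubgroup.sum_mem _ fun i hi => h i ((DFinsupp.mem_support_iff).1 hi)

private theorem exists_proj (ψ : C ≃+ Π₀ i, B i) (J : Set ι) :
    ∃ π : C →+ C, (∀ x, π x ∈ nj ψ J) ∧ ∀ x ∈ nj ψ J, π x = x := by
  classical
  refine ⟨ψ.symm.toAddMonoidHom.comp
    ((DFinsupp.filterAddMonoidHom B (· ∈ J)).comp ψ.toAddMonoidHom), ?_, ?_⟩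
  · intro x i hi
    change ψ (ψ.symm (DFinsupp.filter (· ∈ J) (ψ x))) i = 0
    rw [AddEquiv.apply_symm_apply, DFinsupp.filter_apply, if_neg hi]
  · intro x hx
    change ψ.symm (DFinsupp.filter (· ∈ J) (ψ x)) = x
    apply ψ.injective
    rw [AddEquiv.apply_symm_apply]
    ext i
    rw [DFinsupp.filter_apply]
    by_cases hi : i ∈ J
    · rw [if_pos hi]
    · rw [if_neg hi, hx i hi]

private theorem nj_nice (p : ℕ) (ψ : C ≃+ Π₀ i, B i) (J : Set ι) : IsNice p (nj ψ J) := by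
  obtain ⟨π, hπ1, hπ2⟩ := exists_proj ψ J
  intro x
  refine ⟨-π x, neg_mem (hπ1 x), fun n' hn' κ m h => ?_⟩
  have h1 := map_pu (AddMonoidHom.id C - π) h
  have h2 : (AddMonoidHom.id C - π) (x + n') = x + -π x := by
    rw [AddMonoidHom.sub_apply, AddMonoidHom.id_apply, map_add, hπ2 n' hn']
    abel
  rwa [h2] at h1

end nj

theorem axiomThree_of_isSumOfCountable {p : ℕ} {C : Type u} [AddCommGroup C]
    (h : Lib_MP_fa2e48_dsc.IsSumOfCountable C) : AxiomThree p C := by
  classical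
  obtain ⟨ι, B, _, hB, ⟨ψ'⟩⟩ := h
  let ψ : C ≃+ Π₀ i, B i := ψ'
  refine ⟨Set.range (nj ψ), ?_, ⟨∅, ?_⟩, ?_, ?_⟩
  · rintro _ ⟨J, rfl⟩
    exact nj_nice p ψ J
  · rw [eq_bot_iff]
    intro x hx
    rw [AddSubgroup.mem_bot]
    apply ψ.injective
    rw [map_zero]
    ext i
    rw [hx i (Set.notMem_empty i), DFinsupp.zero_apply]
  · intro T hT
    have hT' : ∀ N ∈ T, ∃ J : Set ι, nj ψ J = N := fun N hN => hT hN
    choose! J hJ using hT'
    refine ⟨⋃ N ∈ T, J N, le_antisymm ?_ ?_⟩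
    · intro x hx
      refine mem_of_singles ψ _ x fun i hi => ?_
      have h1 : i ∈ ⋃ N ∈ T, J N := by
        by_contra hc
        exact hi (hx i hc)
      obtain ⟨N, hN, hiN⟩ := Set.mem_iUnion₂.1 h1
      have h2 : ψ.symm (DFinsupp.single i (ψ x i)) ∈ N := by
        rw [← hJ N hN]
        exact single_mem_nj ψ hiN _
      exact le_sSup hN h2
    · refine sSup_le fun N hN => ?_
      rw [← hJ N hN]
      exact nj_mono ψ (Set.subset_biUnion_of_mem (u := fun N => J N) hN)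
  · rintro _ ⟨J, rfl⟩ X hX
    let U : Set ι := ⋃ x ∈ X, ((ψ x).support : Set ι)
    have hU : U.Countable := hX.biUnion fun x _ => (ψ x).support.countable_toSet
    refine ⟨nj ψ (J ∪ U), ⟨_, rfl⟩, nj_mono ψ Set.subset_union_left, ?_,
      ⋃ i ∈ U, Set.range fun b : B i => ψ.symm (DFinsupp.single i b),
      hU.biUnion fun i _ => Set.countable_range _, le_antisymm ?_ (sup_le ?_ ?_)⟩
    · intro x hx i hi
      by_contra hc
      refine hi (Or.inr (Set.mem_biUnion hx ?_))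
      exact Finset.mem_coe.2 (DFinsupp.mem_support_iff.2 hc)
    · intro x hx
      refine mem_of_singles ψ _ x fun i hi => ?_
      have h1 : i ∈ J ∪ U := by
        by_contra hc
        exact hi (hx i hc)
      rcases h1 with h1 | h1
      · exact AddSubgroup.mem_sup_left (single_mem_nj ψ h1 _)
      · exact AddSubgroup.mem_sup_right
          (AddSubgroup.subset_closure (Set.mem_biUnion h1 ⟨_, rfl⟩))
    · exact nj_mono ψ Set.subset_union_left
    · rw [AddSubgroup.closure_le]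
      intro y hy
      obtain ⟨i, hi, b, rfl⟩ := Set.mem_iUnion₂.1 hy
      exact single_mem_nj ψ (Or.inr hi) b

end Pool.Agent.Lib_MP_fa2e48_tp
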