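import Mathlib
import Pool.Agent.Lib_MP_fa2e48_tp.Basis

/-!
# Normal forms
-/

namespace Pool.Agent.Lib_MP_fa2e48_tp

open Finsupp Pool.Agent.Lib_MP_fa2e48_al

universe u

namespace UlmBasis

variable {p : ℕ} [hp : Fact p.Prime] {A : Type u} [AddCommGroup A] {κs : Ordinal.{u}} {I : Type u}
  (b : UlmBasis p A κs I)

theorem lc_rel_mem {D : Set I} {γ : I →₀ ℤ} (h : γ ∈ b.Rel D) :
    linearCombination ℤ b.a γ ∈ ulm p A κs := by
  unfold Rel at h
  induction h using AddSubgroup.closure_induction with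
  | mem x hx =>
    obtain ⟨i, -, rfl⟩ := hx
    rw [map_sub, linearCombination_single, natCast_zsmul]
    exact b.rel i
  | zero => rw [map_zero]; exact zero_mem _
  | add x y _ _ h1 h2 => rw [map_add]; exact add_mem h1 h2
  | neg x _ h1 => rw [map_neg]; exact neg_mem h1

theorem lc_rel_good {G : Type u} [AddCommGroup G] {D : Set I} {R : I → G} (hR : b.Good D R)
    {γ : I →₀ ℤ} (h : γ ∈ b.Rel D) : linearCombination ℤ R γ = 0 := by
  unfold Rel at h
  induction h using AddSubgroup.closure_induction with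
  | mem x hx =>
    obtain ⟨i, hi, rfl⟩ := hx
    rw [map_sub, linearCombination_single, natCast_zsmul, hR i hi, sub_self]
  | zero => rw [map_zero]
  | add x y _ _ h1 h2 => rw [map_add, h1, h2, add_zero]
  | neg x _ h1 => rw [map_neg, h1, neg_zero]

omit hp in
private theorem lc_mem {S : AddSubgroup A} {γ : I →₀ ℤ} (h : ∀ j ∈ γ.support, b.a j ∈ S) :
    linearCombination ℤ b.a γ ∈ S := by
  rw [linearCombination_apply, Finsupp.sum]
  exact S.sum_mem fun j hj => S.zsmul_mem (h j hj) _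

private theorem exists_reduced_aux {D : Set I} (hD : b.Closed D) (r : ℕ) :
    ∀ γ : I →₀ ℤ, (∀ j ∈ γ.support, j ∈ D ∧ b.rk j < r) →
    ∃ δ : I →₀ ℤ, (∀ j ∈ δ.support, j ∈ D ∧ b.rk j < r) ∧ b.Reduced δ ∧ γ - δ ∈ b.Rel D := by
  classical
  have hpos : ∀ j, (0 : ℤ) < ((p ^ b.M j : ℕ) : ℤ) := fun j => by
    exact_mod_cast pow_pos hp.out.pos _
  induction r with
  | zero =>
    intro γ hγ
    have h0 : γ = 0 := by
      rw [← Finsupp.support_eq_empty, Finset.eq_empty_iff_forall_notMem]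
      intro j hj
      exact absurd (hγ j hj).2 (Nat.not_lt_zero _)
    refine ⟨0, fun j hj => absurd hj (by simp), fun j => ⟨le_rfl, hpos j⟩, ?_⟩
    rw [h0, sub_zero]
    exact zero_mem _
  | succ r ih =>
    intro γ hγ
    let γr : I →₀ ℤ := γ.filter (fun j => b.rk j = r)
    let γ' : I →₀ ℤ := γ.filter (fun j => ¬ b.rk j = r)
    have hsplit : γ = γr + γ' := (Finsupp.filter_add_filter_not _ _).symm
    have f1 : ∀ j, b.rk j = r → γr j = γ j := fun j h =>
      Finsupp.filter_apply_pos (fun j => b.rk j = r) γ h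
    have f2 : ∀ j, ¬ b.rk j = r → γr j = 0 := fun j h =>
      Finsupp.filter_apply_neg (fun j => b.rk j = r) γ h
    have f3 : ∀ j, b.rk j = r → γ' j = 0 := fun j h =>
      Finsupp.filter_apply_neg (fun j => ¬ b.rk j = r) γ (not_not.2 h)
    have f4 : ∀ j, ¬ b.rk j = r → γ' j = γ j := fun j h =>
      Finsupp.filter_apply_pos (fun j => ¬ b.rk j = r) γ h
    have hγr : ∀ j, γr j ≠ 0 → γ j ≠ 0 ∧ b.rk j = r := by
      intro j hj
      by_cases h : b.rk j = r
      · rw [f1 j h] at hj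
        exact ⟨hj, h⟩
      · exact absurd (f2 j h) hj
    have hγ' : ∀ j, γ' j ≠ 0 → γ j ≠ 0 ∧ b.rk j ≠ r := by
      intro j hj
      by_cases h : b.rk j = r
      · exact absurd (f3 j h) hj
      · rw [f4 j h] at hj
        exact ⟨hj, h⟩
    let q : I → ℤ := fun j => γr j / ((p ^ b.M j : ℕ) : ℤ)
    let ρ : I →₀ ℤ := Finsupp.onFinset γr.support (fun j => γr j % ((p ^ b.M j : ℕ) : ℤ)) (by
      intro j hj
      rw [Finsupp.mem_support_iff]
      intro h0
      rw [h0] at hj
      exact hj (Int.zero_emod _))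
    have hρ : ∀ j, ρ j = γr j % ((p ^ b.M j : ℕ) : ℤ) := fun j => rfl
    let τ : I →₀ ℤ := ∑ j ∈ γr.support, q j • b.β j
    have h1 : γr - ρ = ∑ j ∈ γr.support, q j • single j ((p ^ b.M j : ℕ) : ℤ) := by
      ext i
      rw [Finsupp.sub_apply, Finsupp.finsetSum_apply]
      have h2 : ∀ j ∈ γr.support, (q j • single j ((p ^ b.M j : ℕ) : ℤ)) i =
          if j = i then q i * ((p ^ b.M i : ℕ) : ℤ) else 0 := by
        intro j _
        rw [Finsupp.smul_apply, Finsupp.single_apply, smul_eq_mul]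
        split_ifs with h
        · rw [h]
        · rw [mul_zero]
      rw [Finset.sum_congr rfl h2, Finset.sum_ite_eq']
      split_ifs with h
      · rw [hρ]
        have := Int.emod_add_mul_ediv (γr i) ((p ^ b.M i : ℕ) : ℤ)
        change γr i - γr i % ((p ^ b.M i : ℕ) : ℤ) = γr i / ((p ^ b.M i : ℕ) : ℤ) * _
        linarith [mul_comm (γr i / ((p ^ b.M i : ℕ) : ℤ)) ((p ^ b.M i : ℕ) : ℤ)]
      · rw [Finsupp.notMem_support_iff] at h
        rw [hρ, h, Int.zero_emod, sub_zero]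
    have h3 : γr - ρ - τ ∈ b.Rel D := by
      have h4 : γr - ρ - τ =
          ∑ j ∈ γr.support, q j • (single j ((p ^ b.M j : ℕ) : ℤ) - b.β j) := by
        rw [h1, ← Finset.sum_sub_distrib]
        exact Finset.sum_congr rfl fun j _ => (smul_sub _ _ _).symm
      rw [h4]
      refine AddSubgroup.sum_mem _ fun j hj => AddSubgroup.zsmul_mem _ ?_ _
      refine AddSubgroup.subset_closure ⟨j, ?_, rfl⟩
      have h5 := hγr j (Finsupp.mem_support_iff.1 hj)
      exact (hγ j (Finsupp.mem_support_iff.2 h5.1)).1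
    obtain ⟨δ, hδ1, hδ2, hδ3⟩ := ih (γ' + τ) (by
      intro j hj
      have h6 := Finsupp.support_add hj
      rw [Finset.mem_union] at h6
      rcases h6 with h6 | h6
      · have h7 := hγ' j (Finsupp.mem_support_iff.1 h6)
        have h8 := hγ j (Finsupp.mem_support_iff.2 h7.1)
        exact ⟨h8.1, lt_of_le_of_ne (Nat.lt_succ_iff.1 h8.2) h7.2⟩
      · have h7 := Finsupp.support_finsetSum h6
        rw [Finset.mem_biUnion] at h7
        obtain ⟨i, hi, hij⟩ := h7
        have h8 : j ∈ (b.β i).support := Finsupp.support_smul hij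
        have h9 := hγr i (Finsupp.mem_support_iff.1 hi)
        have h10 := hγ i (Finsupp.mem_support_iff.2 h9.1)
        exact ⟨hD i h10.1 j h8, by rw [← h9.2]; exact (b.dep i j h8).1⟩)
    have hρs : ∀ j, ρ j ≠ 0 → γ j ≠ 0 ∧ b.rk j = r := by
      intro j hj
      apply hγr
      intro h0
      rw [hρ, h0, Int.zero_emod] at hj
      exact hj rfl
    refine ⟨ρ + δ, ?_, ?_, ?_⟩
    · intro j hj
      have h6 := Finsupp.support_add hj
      rw [Finset.mem_union] at h6
      rcases h6 with h6 | h6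
      · exact hγ j (Finsupp.mem_support_iff.2 (hρs j (Finsupp.mem_support_iff.1 h6)).1)
      · exact ⟨(hδ1 j h6).1, (hδ1 j h6).2.trans (Nat.lt_succ_self r)⟩
    · intro j
      rw [Finsupp.add_apply]
      by_cases h : b.rk j = r
      · have h0 : δ j = 0 := by
          by_contra hc
          exact absurd (hδ1 j (Finsupp.mem_support_iff.2 hc)).2 (by rw [h]; exact lt_irrefl r)
        rw [h0, add_zero, hρ]
        exact ⟨Int.emod_nonneg _ (hpos j).ne', Int.emod_lt_of_pos _ (hpos j)⟩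
      · have h0 : ρ j = 0 := by
          by_contra hc
          exact h (hρs j hc).2
        rw [h0, zero_add]
        exact hδ2 j
    · have h6 : γ - (ρ + δ) = (γr - ρ - τ) + (γ' + τ - δ) := by
        rw [hsplit]
        abel
      rw [h6]
      exact add_mem h3 hδ3

theorem exists_reduced {D : Set I} (hD : b.Closed D) (γ : I →₀ ℤ) (hγ : ∀ j ∈ γ.support, j ∈ D) :
    ∃ δ : I →₀ ℤ, (∀ j ∈ δ.support, j ∈ D) ∧ b.Reduced δ ∧ γ - δ ∈ b.Rel D := by
  obtain ⟨δ, h1, h2, h3⟩ := b.exists_reduced_aux hD (γ.support.sup b.rk + 1) γ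
    (fun j hj => ⟨hγ j hj, Nat.lt_succ_of_le (Finset.le_sup hj)⟩)
  exact ⟨δ, fun j hj => (h1 j hj).1, h2, h3⟩

theorem le_k_of_reduced {δ : I →₀ ℤ} (hδ : b.Reduced δ) {μ : Ordinal.{u}} (hμ : μ ≤ κs)
    (h : linearCombination ℤ b.a δ ∈ ulm p A μ) : ∀ j ∈ δ.support, μ ≤ b.k j := by
  classical
  by_contra hcon
  push Not at hcon
  obtain ⟨j0, hj0, hlt⟩ := hcon
  obtain ⟨j1, hj1, hmin⟩ := Finset.exists_min_image δ.support b.k ⟨j0, hj0⟩
  have h1 : b.k j1 < μ := (hmin j0 hj0).trans_lt hlt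
  have hsplit : δ = δ.filter (fun j => b.k j = b.k j1) + δ.filter (fun j => ¬ b.k j = b.k j1) :=
    (Finsupp.filter_add_filter_not _ _).symm
  have h2 : linearCombination ℤ b.a (δ.filter (fun j => ¬ b.k j = b.k j1)) ∈
      ulm p A (Order.succ (b.k j1)) := by
    apply b.lc_mem
    intro j hj
    rw [Finsupp.support_filter, Finset.mem_filter] at hj
    have h3 : b.k j1 < b.k j := lt_of_le_of_ne (hmin j hj.1) (fun h => hj.2 h.symm)
    exact ulm_anti (Order.succ_le_of_lt h3) (b.mem j)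
  have h3 : linearCombination ℤ b.a δ ∈ ulm p A (Order.succ (b.k j1)) :=
    ulm_anti (Order.succ_le_of_lt h1) h
  have h4 : linearCombination ℤ b.a (δ.filter (fun j => b.k j = b.k j1)) ∈
      ulm p A (Order.succ (b.k j1)) := by
    rw [hsplit, map_add] at h3
    exact ((ulm p A (Order.succ (b.k j1))).add_mem_cancel_right h2).1 h3
  have h5 := b.indep (b.k j1) (h1.trans_le hμ) _ (by
    intro j hj
    rw [Finsupp.support_filter, Finset.mem_filter] at hj
    exact hj.2) h4 j1
  rw [Finsupp.filter_apply_pos (fun j => b.k j = b.k j1) δ rfl] at h5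
  have h6 : δ j1 = 0 := Int.eq_zero_of_dvd_of_nonneg_of_lt (hδ j1).1 (hδ j1).2 h5
  exact (Finsupp.mem_support_iff.1 hj1) h6

theorem eq_zero_of_reduced {δ : I →₀ ℤ} (hδ : b.Reduced δ)
    (h : linearCombination ℤ b.a δ ∈ ulm p A κs) : δ = 0 := by
  rw [← Finsupp.support_eq_empty, Finset.eq_empty_iff_forall_notMem]
  intro j hj
  exact absurd (b.k_lt j) (not_lt.2 (b.le_k_of_reduced hδ le_rfl h j hj))

private theorem mem_rel_of_lc_mem {D : Set I} (hD : b.Closed D) {γ : I →₀ ℤ}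
    (hγ : ∀ j ∈ γ.support, j ∈ D)
    (h : linearCombination ℤ b.a γ ∈ ulm p A κs) : γ ∈ b.Rel D := by
  obtain ⟨δ, -, h2, h3⟩ := b.exists_reduced hD γ hγ
  have h4 := b.lc_rel_mem h3
  have h5 : linearCombination ℤ b.a δ ∈ ulm p A κs := by
    have h6 := sub_mem h h4
    rwa [← map_sub, sub_sub_cancel] at h6
  have h7 := b.eq_zero_of_reduced h2 h5
  rwa [h7, sub_zero] at h3

/-- Good values are well defined. -/
theorem good_wd {G : Type u} [AddCommGroup G] {D : Set I} (hD : b.Closed D) {R : I → G}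
    (hR : b.Good D R) {γ : I →₀ ℤ} (hγ : ∀ j ∈ γ.support, j ∈ D)
    (h : linearCombination ℤ b.a γ ∈ ulm p A κs) : linearCombination ℤ R γ = 0 :=
  b.lc_rel_good hR (b.mem_rel_of_lc_mem hD hγ h)

omit hp in
private theorem exists_span (x : A) : ∃ γ : I →₀ ℤ, x - linearCombination ℤ b.a γ ∈ ulm p A κs := by
  obtain ⟨γ, -, h⟩ := b.span 0 (by simp) x (by rw [ulm_zero]; trivial)
  exact ⟨γ, h⟩

theorem exists_hom {G : Type u} [AddCommGroup G] (φ : ulm p A κs →+ G) (R : I → G)
    (hR : ∀ i, p ^ b.M i • R i = linearCombination ℤ R (b.β i) + φ ⟨_, b.rel i⟩) :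
    ∃ F : A →+ G, (∀ h : ulm p A κs, F h = φ h) ∧ ∀ i, F (b.a i) = R i := by
  have hrel : ∀ γ ∈ b.Rel Set.univ, ∀ h : ulm p A κs, (h : A) = linearCombination ℤ b.a γ →
      φ h = linearCombination ℤ R γ := by
    intro γ hγ
    unfold Rel at hγ
    induction hγ using AddSubgroup.closure_induction with
    | mem x hx =>
      obtain ⟨i, -, rfl⟩ := hx
      intro h hh
      rw [map_sub, linearCombination_single, natCast_zsmul] at hh
      have h1 : h = ⟨_, b.rel i⟩ := Subtype.ext hh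
      rw [map_sub, linearCombination_single, natCast_zsmul, hR i, h1, add_sub_cancel_left]
    | zero =>
      intro h hh
      rw [map_zero] at hh
      have h1 : h = 0 := Subtype.ext hh
      rw [h1, map_zero, map_zero]
    | add x y hx hy h1 h2 =>
      intro h hh
      rw [map_add] at hh
      have e1 := h1 ⟨_, b.lc_rel_mem (D := Set.univ) hx⟩ rfl
      have e2 := h2 ⟨_, b.lc_rel_mem (D := Set.univ) hy⟩ rfl
      have h3 : h = ⟨_, b.lc_rel_mem (D := Set.univ) hx⟩ + ⟨_, b.lc_rel_mem (D := Set.univ) hy⟩ :=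
        Subtype.ext hh
      rw [h3, map_add, map_add, e1, e2]
    | neg x hx h1 =>
      intro h hh
      rw [map_neg] at hh
      have e1 := h1 ⟨_, b.lc_rel_mem (D := Set.univ) hx⟩ rfl
      have h3 : h = -⟨_, b.lc_rel_mem (D := Set.univ) hx⟩ := Subtype.ext hh
      rw [h3, map_neg, map_neg, e1]
  let Φ : (ulm p A κs × (I →₀ ℤ)) →+ A :=
    AddMonoidHom.coprod (ulm p A κs).subtype (linearCombination ℤ b.a).toAddMonoidHom
  let Ψ : (ulm p A κs × (I →₀ ℤ)) →+ G :=
    AddMonoidHom.coprod φ (linearCombination ℤ R).toAddMonoidHom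
  have hΦ : ∀ h β, Φ (h, β) = h + linearCombination ℤ b.a β := fun h β => rfl
  have hΨ : ∀ h β, Ψ (h, β) = φ h + linearCombination ℤ R β := fun h β => rfl
  have hsurj : Function.Surjective Φ := by
    intro x
    obtain ⟨β, h⟩ := b.exists_span x
    exact ⟨(⟨_, h⟩, β), by rw [hΦ]; exact sub_add_cancel _ _⟩
  have hker : Φ.ker ≤ Ψ.ker := by
    rintro ⟨h, β⟩ hx
    rw [AddMonoidHom.mem_ker, hΦ] at hx
    rw [AddMonoidHom.mem_ker, hΨ]
    have h1 : ((-h : ulm p A κs) : A) = linearCombination ℤ b.a β := by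
      rw [AddSubgroup.coe_neg, neg_eq_iff_add_eq_zero]; exact hx
    have h2 : β ∈ b.Rel Set.univ := b.mem_rel_of_lc_mem (fun _ _ _ _ => trivial)
      (fun _ _ => trivial) (by rw [← h1]; exact (-h).2)
    rw [← hrel β h2 (-h) h1, map_neg, add_neg_cancel]
  let ψ : A →+ G := Φ.liftOfRightInverse _ (Function.rightInverse_surjInv hsurj) ⟨Ψ, hker⟩
  have hψ : ∀ x, ψ (Φ x) = Ψ x := fun x =>
    AddMonoidHom.liftOfRightInverse_comp_apply _ _ _ ⟨Ψ, hker⟩ x
  refine ⟨ψ, fun h => ?_, fun i => ?_⟩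
  · have := hψ (h, 0)
    rw [hΦ, hΨ, map_zero, map_zero, add_zero, add_zero] at this
    exact this
  · have := hψ (0, single i 1)
    rw [hΦ, hΨ, map_zero, ZeroMemClass.coe_zero, zero_add, zero_add, linearCombination_single,
      linearCombination_single, one_smul, one_smul] at this
    exact this

omit hp in
theorem hom_ext {G : Type u} [AddCommGroup G] {ψ χ : A →+ G}
    (hH : ∀ h ∈ ulm p A κs, ψ h = χ h) (ha : ∀ i, ψ (b.a i) = χ (b.a i)) : ψ = χ := by
  ext x
  obtain ⟨γ, h⟩ := b.exists_span x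
  have h1 : ∀ θ : A →+ G, θ (linearCombination ℤ b.a γ) =
      ∑ i ∈ γ.support, γ i • θ (b.a i) := by
    intro θ
    rw [linearCombination_apply, Finsupp.sum, map_sum]
    exact Finset.sum_congr rfl fun i _ => map_zsmul _ _ _
  have h2 : ψ (linearCombination ℤ b.a γ) = χ (linearCombination ℤ b.a γ) := by
    rw [h1, h1]
    exact Finset.sum_congr rfl fun i _ => by rw [ha]
  have h3 := hH _ h
  rw [map_sub, map_sub, h2] at h3
  exact sub_left_inj.1 h3

end UlmBasis

end Pool.Agent.Lib_MP_fa2e48_tp
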