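import Mathlib
import Pool.Agent.Lib_MP_fa2e48_tp.NF

/-!
# Extension of homomorphisms
-/

namespace Pool.Agent.Lib_MP_fa2e48_tp

open Finsupp Pool.Agent.Lib_MP_fa2e48_al

universe u

theorem tq_pu (p : ℕ) (κs : Ordinal.{u}) (A : Type u) [AddCommGroup A] : TQ p κs (pu p A) where
  anti := fun h => pu_anti h
  lt := fun h _ m n => pu_le_pu h m n
  mul := fun h => pu_smul h _
  div := fun h => pu_div h

/-- `Q κ m = pu (σ + κ) m`. -/
theorem tq_add (p : ℕ) (κs : Ordinal.{u}) (A : Type u) [AddCommGroup A] (σ : Ordinal.{u}) :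
    TQ p κs (fun κ m => pu p A (σ + κ) m) where
  anti := fun h => pu_anti h
  lt := fun h _ m n => pu_le_pu (by gcongr) m n
  mul := fun h => pu_smul h _
  div := fun h => pu_div h

namespace UlmBasis

variable {p : ℕ} [hp : Fact p.Prime] {A : Type u} [AddCommGroup A] {κs : Ordinal.{u}} {I : Type u}
  (b : UlmBasis p A κs I) {A' : Type u} [AddCommGroup A'] {Q : Ordinal.{u} → ℕ → AddSubgroup A'}

omit hp in
private theorem lc_congr {G : Type u} [AddCommGroup G] {R R' : I → G} {γ : I →₀ ℤ}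
    (h : ∀ j ∈ γ.support, R j = R' j) : linearCombination ℤ R γ = linearCombination ℤ R' γ := by
  rw [linearCombination_apply, linearCombination_apply]
  exact Finsupp.sum_congr fun j hj => by rw [h j hj]

omit hp in
private theorem lc_mem {G : Type u} [AddCommGroup G] (S : AddSubgroup G) {R : I → G} {γ : I →₀ ℤ}
    (h : ∀ j ∈ γ.support, R j ∈ S) : linearCombination ℤ R γ ∈ S := by
  rw [linearCombination_apply]
  exact sum_mem fun j hj => S.zsmul_mem (h j hj) _

open Classical in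
/-- one step of the construction of good values -/
private noncomputable def gstep (b : UlmBasis p A κs I) (Q : Ordinal.{u} → ℕ → AddSubgroup A')
    (φ : ulm p A κs →+ A') (D : Set I) (R : I → A') (i : I)
    (prev : ∀ j, b.rk j < b.rk i → A') : A' :=
  if i ∈ D then R i else
    if h : ∃ y ∈ Q (b.k i) 0, p ^ b.M i • y = linearCombination ℤ
      (fun j => if hj : b.rk j < b.rk i then prev j hj else 0) (b.β i) + φ ⟨_, b.rel i⟩ then h.choose
    else 0

/-- Extension of good values. -/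
theorem exists_good (hQ : TQ p κs Q) (φ : ulm p A κs →+ A') (hφ : ∀ h, ∀ κ < κs, ∀ m, φ h ∈ Q κ m)
    {D : Set I} (hD : b.Closed D) (R : I → A')
    (hR : ∀ i ∈ D, R i ∈ Q (b.k i) 0 ∧
      p ^ b.M i • R i = linearCombination ℤ R (b.β i) + φ ⟨_, b.rel i⟩) :
    ∃ R' : I → A', (∀ i ∈ D, R' i = R i) ∧ ∀ i, R' i ∈ Q (b.k i) 0 ∧
      p ^ b.M i • R' i = linearCombination ℤ R' (b.β i) + φ ⟨_, b.rel i⟩ := by
  classical
  let R' : I → A' := WellFounded.fix (measure b.rk).wf (gstep b Q φ D R)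
  have hfix : ∀ i, R' i = gstep b Q φ D R i (fun j _ => R' j) := fun i =>
    WellFounded.fix_eq (measure b.rk).wf (gstep b Q φ D R) i
  have hD' : ∀ i ∈ D, R' i = R i := by
    intro i hi
    rw [hfix i, gstep, if_pos hi]
  refine ⟨R', hD', ?_⟩
  have key : ∀ n, ∀ i, b.rk i < n → R' i ∈ Q (b.k i) 0 ∧
      p ^ b.M i • R' i = linearCombination ℤ R' (b.β i) + φ ⟨_, b.rel i⟩ := by
    intro n
    induction n with
    | zero => intro i hi; exact absurd hi (Nat.not_lt_zero _)
    | succ n ih =>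
      intro i hi
      by_cases hiD : i ∈ D
      · rw [hD' i hiD]
        refine ⟨(hR i hiD).1, ?_⟩
        rw [(hR i hiD).2, lc_congr (R := R) (R' := R') fun j hj => (hD' j (hD i hiD j hj)).symm]
      · have h1 : ∃ y ∈ Q (b.k i) 0, p ^ b.M i • y = linearCombination ℤ
            (fun j => if hj : b.rk j < b.rk i then R' j else 0) (b.β i) + φ ⟨_, b.rel i⟩ := by
          have h2 : linearCombination ℤ (fun j => if hj : b.rk j < b.rk i then R' j else 0) (b.β i) +
              φ ⟨_, b.rel i⟩ ∈ Q (b.k i) (0 + b.M i) := by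
            rw [Nat.zero_add]
            refine add_mem (lc_mem _ fun j hj => ?_) (hφ _ _ (b.k_lt i) _)
            obtain ⟨h3, h4⟩ := b.dep i j hj
            rw [dif_pos h3]
            exact hQ.lt h4 (b.k_lt j) _ _ (ih j (by omega)).1
          exact hQ.div h2
        have h5 : R' i = h1.choose := by
          rw [hfix i, gstep, if_neg hiD, dif_pos h1]
        rw [h5]
        refine ⟨h1.choose_spec.1, ?_⟩
        rw [h1.choose_spec.2]
        congr 1
        exact lc_congr fun j hj => by rw [dif_pos (b.dep i j hj).1]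
  exact fun i => key (b.rk i + 1) i (Nat.lt_succ_self _)

theorem hom_hc (hQ : TQ p κs Q) (F : A →+ A') (hH : ∀ h ∈ ulm p A κs, ∀ κ < κs, ∀ m, F h ∈ Q κ m)
    (ha : ∀ i, F (b.a i) ∈ Q (b.k i) 0) : ∀ κ < κs, ∀ m, ∀ x ∈ pu p A κ m, F x ∈ Q κ m := by
  intro κ hκ m x hx
  obtain ⟨y, hy, rfl⟩ := mem_pu.1 hx
  have h1 : F y ∈ Q κ 0 := by
    obtain ⟨γ, hγ, h2⟩ := b.span κ hκ.le y hy
    have h3 : F y = F (y - linearCombination ℤ b.a γ) + linearCombination ℤ (fun j => F (b.a j)) γ := by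
      have h4 : F (linearCombination ℤ b.a γ) = linearCombination ℤ (fun j => F (b.a j)) γ := by
        rw [linearCombination_apply, linearCombination_apply, Finsupp.sum, Finsupp.sum, map_sum]
        exact Finset.sum_congr rfl fun j _ => map_zsmul F _ _
      rw [← h4, ← map_add, sub_add_cancel]
    rw [h3]
    refine add_mem (hH _ h2 κ hκ 0) (lc_mem _ fun j hj => ?_)
    rcases (hγ j hj).eq_or_lt with h | h
    · rw [h]
      exact ha j
    · exact hQ.lt h (b.k_lt j) _ _ (ha j)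
  have h5 := hQ.mul (n := m) h1
  rw [map_nsmul]
  rwa [Nat.zero_add] at h5

include b in
/-- All homomorphisms extend from `ulm p A κs`. -/
theorem ext_all (hQ : TQ p κs Q) (φ : ulm p A κs →+ A') (hφ : ∀ h, ∀ κ < κs, ∀ m, φ h ∈ Q κ m) :
    ∃ F : A →+ A', (∀ h : ulm p A κs, F h = φ h) ∧
      ∀ κ < κs, ∀ m, ∀ x ∈ pu p A κ m, F x ∈ Q κ m := by
  obtain ⟨R', -, hR'⟩ := b.exists_good hQ φ hφ (D := ∅) (fun i hi => absurd hi (Set.notMem_empty i))
    (fun _ => 0) (fun i hi => absurd hi (Set.notMem_empty i))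
  obtain ⟨F, hF, hFa⟩ := b.exists_hom φ R' fun i => (hR' i).2
  refine ⟨F, hF, b.hom_hc hQ F (fun h hh κ hκ m => ?_) fun i => ?_⟩
  · rw [hF ⟨h, hh⟩]
    exact hφ _ κ hκ m
  · rw [hFa]
    exact (hR' i).1

include b in
/-- Separation of an element outside `ulm p A κs`. -/
theorem sep (hQ : TQ p κs Q) {x : A} (hx : x ∉ ulm p A κs) {s₀ : A'} (hs : p • s₀ = 0)
    (hsQ : ∀ κ < κs, ∀ m, s₀ ∈ Q κ m) :
    ∃ F : A →+ A', (∀ h ∈ ulm p A κs, F h = 0) ∧ (∃ c : ℤ, c • F x = s₀) ∧
      ∀ κ < κs, ∀ m, ∀ x ∈ pu p A κ m, F x ∈ Q κ m := by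
  classical
  obtain ⟨γ, -, hγ⟩ := b.span 0 zero_le x (by rw [ulm_zero]; trivial)
  obtain ⟨δ, -, hδ, hγδ⟩ := b.exists_reduced (D := Set.univ) (fun _ _ _ _ => Set.mem_univ _) γ
    (fun _ _ => Set.mem_univ _)
  have h1 : x - linearCombination ℤ b.a δ ∈ ulm p A κs := by
    have h2 := add_mem hγ (b.lc_rel_mem hγδ)
    rw [map_sub] at h2
    rwa [sub_add_sub_cancel] at h2
  have hδ0 : δ.support.Nonempty := by
    rw [Finset.nonempty_iff_ne_empty]
    intro h
    rw [Finsupp.support_eq_empty.1 h, map_zero, sub_zero] at h1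
    exact hx h1
  obtain ⟨j0, hj0, hmin⟩ := Finset.exists_min_image δ.support b.k hδ0
  have hd0 : δ j0 ≠ 0 := Finsupp.mem_support_iff.1 hj0
  have hp1 : Nat.Prime p := hp.out
  have hpz : Prime (p : ℤ) := Nat.prime_iff_prime_int.1 hp1
  have hfin : FiniteMultiplicity (p : ℤ) (δ j0) :=
    Int.finiteMultiplicity_iff.2 ⟨by rw [Int.natAbs_natCast]; exact hp1.one_lt.ne', hd0⟩
  obtain ⟨w, hw, hpw⟩ := hfin.exists_eq_pow_mul_and_not_dvd
  generalize multiplicity (p : ℤ) (δ j0) = v at hw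
  have hvM : v < b.M j0 := by
    by_contra hc
    push Not at hc
    have h2 : ((p ^ b.M j0 : ℕ) : ℤ) ∣ δ j0 := by
      rw [hw]
      push_cast
      exact Dvd.dvd.mul_right (pow_dvd_pow _ hc) _
    have h3 := Int.le_of_dvd (lt_of_le_of_ne (hδ j0).1 (Ne.symm hd0)) h2
    exact absurd (hδ j0).2 (not_lt.2 h3)
  obtain ⟨y, hy, hys⟩ := hQ.div (κ := b.k j0) (m := 0) (n := v) (hsQ _ (b.k_lt j0) (0 + v))
  have hyM : p ^ b.M j0 • y = 0 := by
    have h2 : b.M j0 = (b.M j0 - v - 1) + 1 + v := by omega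
    rw [h2, pow_add, pow_add, pow_one, mul_smul, mul_smul, hys, hs, smul_zero]
  have hDc : b.Closed {j | b.k j0 ≤ b.k j} := fun i hi j hj => le_trans hi (b.dep i j hj).2.le
  have hlc : ∀ i, b.k j0 ≤ b.k i →
      linearCombination ℤ (Function.update (fun _ => (0 : A')) j0 y) (b.β i) = 0 := by
    intro i hi
    rw [linearCombination_apply]
    refine Finset.sum_eq_zero fun j hj => ?_
    have h2 : j ≠ j0 := by
      rintro rfl
      exact absurd (b.dep i j hj).2 (not_lt.2 hi)
    change b.β i j • Function.update (fun _ => (0 : A')) j0 y j = 0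
    rw [Function.update_of_ne h2, smul_zero]
  obtain ⟨R', hR'D, hR'⟩ := b.exists_good hQ (0 : ulm p A κs →+ A')
    (fun _ κ _ m => by rw [AddMonoidHom.zero_apply]; exact zero_mem _) hDc
    (Function.update (fun _ => (0 : A')) j0 y) (fun i hi => by
      rw [hlc i hi, AddMonoidHom.zero_apply, add_zero]
      by_cases h : i = j0
      · subst h
        rw [Function.update_self]
        exact ⟨hy, hyM⟩
      · rw [Function.update_of_ne h]
        exact ⟨zero_mem _, smul_zero _⟩)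
  obtain ⟨F, hF, hFa⟩ := b.exists_hom (0 : ulm p A κs →+ A') R' fun i => (hR' i).2
  have hF0 : ∀ h ∈ ulm p A κs, F h = 0 := fun h hh => by
    rw [hF ⟨h, hh⟩, AddMonoidHom.zero_apply]
  refine ⟨F, hF0, ?_, b.hom_hc hQ F (fun h hh κ _ m => ?_) fun i => ?_⟩
  · have hFx : F x = w • s₀ := by
      have h2 : F x = F (linearCombination ℤ b.a δ) := by
        rw [← sub_eq_zero, ← map_sub]
        exact hF0 _ h1
      have h3 : F (linearCombination ℤ b.a δ) = ∑ j ∈ δ.support, δ j • R' j := by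
        rw [linearCombination_apply, Finsupp.sum, map_sum]
        exact Finset.sum_congr rfl fun j _ => by rw [map_zsmul, hFa]
      rw [h2, h3, Finset.sum_eq_single j0]
      · rw [hR'D j0 (le_refl (b.k j0)), Function.update_self, ← hys, hw, mul_comm, mul_smul]
        congr 1
        rw [← Nat.cast_pow, natCast_zsmul]
      · intro j hj hne
        rw [hR'D j (hmin j hj), Function.update_of_ne hne, smul_zero]
      · intro h
        exact absurd hj0 h
    have hcop : IsCoprime w (p : ℤ) :=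
      ((Prime.coprime_iff_not_dvd hpz).2 hpw).symm
    obtain ⟨c, e, hce⟩ := hcop
    refine ⟨c, ?_⟩
    rw [hFx, ← mul_smul]
    have h4 : c * w = 1 - e * p := by linarith
    rw [h4, sub_smul, one_smul, mul_smul, natCast_zsmul, hs, smul_zero, sub_zero]
  · rw [hF0 h hh]
    exact zero_mem _
  · rw [hFa]
    exact (hR' i).1

end UlmBasis

end Pool.Agent.Lib_MP_fa2e48_tp
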