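import Mathlib
import Pool.Agent.Lib_MP_fa2e48_tp.Ext

/-!
# Partial solutions
-/

namespace Pool.Agent.Lib_MP_fa2e48_tp

open Finsupp Pool.Agent.Lib_MP_fa2e48_al

universe u

/-- Partial solutions of `r (V n x) = U n x`: values `R` of `r` on the `a i` with `i ∈ D`, and
values `v n i` of `V n` on the `a i` with `(n, i) ∈ L`. -/
structure PS {p : ℕ} {A : Type u} [AddCommGroup A] {κs : Ordinal.{u}} {I : Type u}
    (b : UlmBasis p A κs I) (U : ℕ → A →+ A) where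
  D : Set I
  R : I → A
  L : Set (ℕ × I)
  v : ℕ → I → A
  closed : b.Closed D
  Rmem : ∀ i ∈ D, R i ∈ ulm p A (b.k i)
  good : b.Good D R
  Lclosed : ∀ n i, (n, i) ∈ L → ∀ j ∈ (b.β i).support, (n, j) ∈ L
  vmem : ∀ n i, (n, i) ∈ L → v n i ∈ ulm p A (b.k i)
  vrel : ∀ n i, (n, i) ∈ L → p ^ b.M i • v n i = linearCombination ℤ (v n) (b.β i)
  vr : ∀ n i, (n, i) ∈ L → ∃ γ : I →₀ ℤ, (∀ j ∈ γ.support, j ∈ D) ∧
    v n i - linearCombination ℤ b.a γ ∈ ulm p A κs ∧ linearCombination ℤ R γ = U n (b.a i)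

namespace PS

variable {p : ℕ} [hp : Fact p.Prime] {A : Type u} [AddCommGroup A] {κs : Ordinal.{u}} {I : Type u}
  {b : UlmBasis p A κs I} {U : ℕ → A →+ A}

/-- `Q` extends `P`. -/
def le (P Q : PS b U) : Prop :=
  P.D ⊆ Q.D ∧ (∀ i ∈ P.D, Q.R i = P.R i) ∧ P.L ⊆ Q.L ∧ ∀ n i, (n, i) ∈ P.L → Q.v n i = P.v n i

/-- All rooms in `D` are assigned to pairs in `L`. -/
def Full (P : PS b U) (α : I → ℕ × I) : Prop := ∀ ρ ∈ P.D, α ρ ∈ P.L

omit hp in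
theorem le_refl (P : PS b U) : P.le P :=
  ⟨_root_.le_refl _, fun _ _ => rfl, _root_.le_refl _, fun _ _ _ => rfl⟩

omit hp in
theorem le_trans {P Q R : PS b U} (h : P.le Q) (h' : Q.le R) : P.le R :=
  ⟨h.1.trans h'.1, fun i hi => (h'.2.1 i (h.1 hi)).trans (h.2.1 i hi), h.2.2.1.trans h'.2.2.1,
    fun n i hi => (h'.2.2.2 n i (h.2.2.1 hi)).trans (h.2.2.2 n i hi)⟩

end PS

end Pool.Agent.Lib_MP_fa2e48_tp
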