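import Mathlib
import Pool.Agent.Lib_MP_fa2e48_tp.PS

/-!
# Unions of chains of partial solutions
-/

namespace Pool.Agent.Lib_MP_fa2e48_tp

open Finsupp Pool.Agent.Lib_MP_fa2e48_al

universe u

private theorem PSUnion_lc {A : Type u} [AddCommGroup A] {I : Type u} (f g : I → A) (γ : I →₀ ℤ)
    (h : ∀ j ∈ γ.support, f j = g j) :
    linearCombination ℤ f γ = linearCombination ℤ g γ := by
  rw [linearCombination_apply, linearCombination_apply]
  exact Finset.sum_congr rfl fun j hj => by beta_reduce; rw [h j hj]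

/-- Unions of nonempty chains. -/
theorem PS.exists_union {p : ℕ} {A : Type u} [AddCommGroup A] {κs : Ordinal.{u}}
    {I : Type u} {b : UlmBasis p A κs I} {U : ℕ → A →+ A} (c : Set (PS b U)) (hne : c.Nonempty)
    (hc : ∀ P ∈ c, ∀ Q ∈ c, P.le Q ∨ Q.le P) :
    ∃ Q : PS b U, (∀ P ∈ c, P.le Q) ∧ (∀ i, i ∈ Q.D ↔ ∃ P ∈ c, i ∈ P.D) ∧
      ∀ x, x ∈ Q.L ↔ ∃ P ∈ c, x ∈ P.L := by
  classical
  let R : I → A := fun i => if h : ∃ P ∈ c, i ∈ P.D then h.choose.R i else 0
  let v : ℕ → I → A := fun n i => if h : ∃ P ∈ c, (n, i) ∈ P.L then h.choose.v n i else 0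
  have hR : ∀ P ∈ c, ∀ i ∈ P.D, R i = P.R i := by
    intro P hP i hi
    have h : ∃ P ∈ c, i ∈ P.D := ⟨P, hP, hi⟩
    have h1 : R i = h.choose.R i := dif_pos h
    rw [h1]
    rcases hc P hP _ h.choose_spec.1 with h2 | h2
    · exact h2.2.1 i hi
    · exact (h2.2.1 i h.choose_spec.2).symm
  have hv : ∀ P ∈ c, ∀ n i, (n, i) ∈ P.L → v n i = P.v n i := by
    intro P hP n i hi
    have h : ∃ P ∈ c, (n, i) ∈ P.L := ⟨P, hP, hi⟩
    have h1 : v n i = h.choose.v n i := dif_pos h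
    rw [h1]
    rcases hc P hP _ h.choose_spec.1 with h2 | h2
    · exact h2.2.2.2 n i hi
    · exact (h2.2.2.2 n i h.choose_spec.2).symm
  let Q : PS b U :=
    { D := {i | ∃ P ∈ c, i ∈ P.D}
      R := R
      L := {x | ∃ P ∈ c, x ∈ P.L}
      v := v
      closed := by
        rintro i ⟨P, hP, hi⟩ j hj
        exact ⟨P, hP, P.closed i hi j hj⟩
      Rmem := by
        rintro i ⟨P, hP, hi⟩
        rw [hR P hP i hi]
        exact P.Rmem i hi
      good := by
        rintro i ⟨P, hP, hi⟩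
        rw [hR P hP i hi, PSUnion_lc R P.R (b.β i) fun j hj => hR P hP j (P.closed i hi j hj)]
        exact P.good i hi
      Lclosed := by
        rintro n i ⟨P, hP, hi⟩ j hj
        exact ⟨P, hP, P.Lclosed n i hi j hj⟩
      vmem := by
        rintro n i ⟨P, hP, hi⟩
        rw [hv P hP n i hi]
        exact P.vmem n i hi
      vrel := by
        rintro n i ⟨P, hP, hi⟩
        rw [hv P hP n i hi,
          PSUnion_lc (v n) (P.v n) (b.β i) fun j hj => hv P hP n j (P.Lclosed n i hi j hj)]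
        exact P.vrel n i hi
      vr := by
        rintro n i ⟨P, hP, hi⟩
        obtain ⟨γ, h1, h2, h3⟩ := P.vr n i hi
        refine ⟨γ, fun j hj => ⟨P, hP, h1 j hj⟩, ?_, ?_⟩
        · rw [hv P hP n i hi]
          exact h2
        · rw [PSUnion_lc R P.R γ fun j hj => hR P hP j (h1 j hj)]
          exact h3 }
  exact ⟨Q, fun P hP => ⟨fun i hi => ⟨P, hP, hi⟩, fun i hi => hR P hP i hi,
    fun x hx => ⟨P, hP, hx⟩, fun n i hi => hv P hP n i hi⟩, fun _ => Iff.rfl, fun _ => Iff.rfl⟩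

end Pool.Agent.Lib_MP_fa2e48_tp
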