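import Mathlib
import Pool.Agent.Lib_MP_fa2e48_tp.PS

/-!
# One step
-/

namespace Pool.Agent.Lib_MP_fa2e48_tp

open Finsupp Pool.Agent.Lib_MP_fa2e48_al

universe u

private theorem lc_congr' {I : Type u} {G : Type u} [AddCommGroup G] {f g : I → G} {γ : I →₀ ℤ}
    (h : ∀ j ∈ γ.support, f j = g j) :
    linearCombination ℤ f γ = linearCombination ℤ g γ := by
  rw [Finsupp.linearCombination_apply, Finsupp.linearCombination_apply]
  exact Finsupp.sum_congr fun j hj => by rw [h j hj]

private theorem lc_mem' {I : Type u} {G : Type u} [AddCommGroup G] {f : I → G} {γ : I →₀ ℤ}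
    {H : AddSubgroup G} (h : ∀ j ∈ γ.support, f j ∈ H) : linearCombination ℤ f γ ∈ H := by
  rw [Finsupp.linearCombination_apply]
  exact AddSubgroup.sum_mem _ fun j hj => H.zsmul_mem (h j hj) _

/-- finite dependency closure of one index -/
private theorem exists_closure_one {p : ℕ} {A : Type u} [AddCommGroup A] {κs : Ordinal.{u}}
    {I : Type u} (b : UlmBasis p A κs I) :
    ∀ (m : ℕ) (i : I), b.rk i = m → ∃ F : Set I, F.Finite ∧ i ∈ F ∧ b.Closed F ∧
      ∀ j ∈ F, j = i ∨ b.k i < b.k j := by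
  intro m
  induction m using Nat.strong_induction_on with
  | _ m ih =>
    intro i hi
    have h1 : ∀ j : I, ∃ F : Set I, j ∈ (b.β i).support → F.Finite ∧ j ∈ F ∧ b.Closed F ∧
        ∀ j' ∈ F, j' = j ∨ b.k j < b.k j' := by
      intro j
      by_cases hj : j ∈ (b.β i).support
      · obtain ⟨F, hF⟩ := ih (b.rk j) (by rw [← hi]; exact (b.dep i j hj).1) j rfl
        exact ⟨F, fun _ => hF⟩
      · exact ⟨∅, fun h => absurd h hj⟩
    choose F hF using h1
    refine ⟨{i} ∪ ⋃ j ∈ (b.β i).support, F j, ?_, Or.inl rfl, ?_, ?_⟩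
    · refine (Set.finite_singleton i).union ?_
      exact Set.Finite.biUnion (Finset.finite_toSet _) fun j hj => (hF j hj).1
    · rintro x (hx | hx) y hy
      · rw [Set.mem_singleton_iff] at hx
        subst hx
        refine Or.inr (Set.mem_iUnion₂.2 ⟨y, hy, (hF y hy).2.1⟩)
      · obtain ⟨j, hj, hxj⟩ := Set.mem_iUnion₂.1 hx
        refine Or.inr (Set.mem_iUnion₂.2 ⟨j, hj, ?_⟩)
        exact (hF j hj).2.2.1 x hxj y hy
    · rintro x (hx | hx)
      · exact Or.inl hx
      · obtain ⟨j, hj, hxj⟩ := Set.mem_iUnion₂.1 hx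
        right
        rcases (hF j hj).2.2.2 x hxj with h | h
        · rw [h]
          exact (b.dep i j hj).2
        · exact (b.dep i j hj).2.trans h

/-- finite dependency closure of a finite set -/
private theorem exists_closure {p : ℕ} {A : Type u} [AddCommGroup A] {κs : Ordinal.{u}}
    {I : Type u} (b : UlmBasis p A κs I) (F0 : Finset I) (κ : Ordinal.{u})
    (h0 : ∀ j ∈ F0, κ ≤ b.k j) :
    ∃ F : Set I, F.Finite ∧ (∀ j ∈ F0, j ∈ F) ∧ b.Closed F ∧
      ∀ j ∈ F, j ∈ F0 ∨ κ < b.k j := by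
  choose F hF using fun i => exists_closure_one b (b.rk i) i rfl
  refine ⟨⋃ j ∈ F0, F j, ?_, ?_, ?_, ?_⟩
  · exact Set.Finite.biUnion (Finset.finite_toSet _) fun j _ => (hF j).1
  · intro j hj
    exact Set.mem_iUnion₂.2 ⟨j, hj, (hF j).2.1⟩
  · intro x hx y hy
    obtain ⟨j, hj, hxj⟩ := Set.mem_iUnion₂.1 hx
    exact Set.mem_iUnion₂.2 ⟨j, hj, (hF j).2.2.1 x hxj y hy⟩
  · intro x hx
    obtain ⟨j, hj, hxj⟩ := Set.mem_iUnion₂.1 hx
    rcases (hF j).2.2.2 x hxj with h | h
    · left
      rw [h]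
      exact hj
    · right
      exact (h0 j hj).trans_lt h

/-- The step: `(n, i)` is added to `L`, using a new room `ρ`. -/
theorem PS.step {p : ℕ} [hp : Fact p.Prime] {A : Type u} [AddCommGroup A] {κs : Ordinal.{u}}
    {I : Type u} {b : UlmBasis p A κs I} {U : ℕ → A →+ A}
    (hU0 : ∀ n, ∀ h ∈ ulm p A κs, U n h = 0)
    (hU : ∀ n, ∀ κ < κs, ∀ x ∈ ulm p A κ, U n x ∈ ulm p A (Order.succ κ)) (Q : PS b U) (n : ℕ)
    (i : I) (hdep : ∀ j ∈ (b.β i).support, (n, j) ∈ Q.L) (hni : (n, i) ∉ Q.L) (ρ : I)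
    (hρ : ρ ∉ Q.D) (hk : b.k ρ = b.k i) (hM : b.M i ≤ b.M ρ) :
    ∃ Q' : PS b U, Q.le Q' ∧ (Q'.D \ Q.D).Finite ∧ (n, i) ∈ Q'.L := by
  classical
  have hκs : Order.succ (b.k i) ≤ κs := Order.succ_le_of_lt (b.k_lt i)
  have hρβ : ρ ∉ (b.β ρ).support := fun h => lt_irrefl _ (b.dep ρ ρ h).1
  have hiβ : i ∉ (b.β i).support := fun h => lt_irrefl _ (b.dep i i h).1
  -- `t`
  set t : A := linearCombination ℤ (Q.v n) (b.β i) with ht
  have ht1 : t ∈ ulm p A (Order.succ (b.k i)) := by
    refine lc_mem' fun j hj => ?_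
    exact ulm_anti (Order.succ_le_of_lt (b.dep i j hj).2) (Q.vmem n j (hdep j hj))
  -- `γ_t`
  have hγ : ∀ j : I, ∃ γ : I →₀ ℤ, j ∈ (b.β i).support → (∀ j' ∈ γ.support, j' ∈ Q.D) ∧
      Q.v n j - linearCombination ℤ b.a γ ∈ ulm p A κs ∧
      linearCombination ℤ Q.R γ = U n (b.a j) := by
    intro j
    by_cases hj : j ∈ (b.β i).support
    · obtain ⟨γ, hγ⟩ := Q.vr n j (hdep j hj)
      exact ⟨γ, fun _ => hγ⟩
    · exact ⟨0, fun h => absurd h hj⟩
  choose γ hγ using hγ
  set γt : I →₀ ℤ := ∑ j ∈ (b.β i).support, (b.β i) j • γ j with hγt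
  have hγtD : ∀ j ∈ γt.support, j ∈ Q.D := by
    intro j hj
    by_contra hjD
    rw [Finsupp.mem_support_iff] at hj
    apply hj
    rw [hγt, Finsupp.finsetSum_apply]
    refine Finset.sum_eq_zero fun j' hj' => ?_
    rw [Finsupp.smul_apply]
    have h1 : γ j' j = 0 := by
      by_contra h2
      exact hjD ((hγ j' hj').1 j (Finsupp.mem_support_iff.2 h2))
    rw [h1, smul_zero]
  have htγ : t - linearCombination ℤ b.a γt ∈ ulm p A κs := by
    have h1 : t - linearCombination ℤ b.a γt = ∑ j ∈ (b.β i).support,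
        (b.β i) j • (Q.v n j - linearCombination ℤ b.a (γ j)) := by
      rw [ht, hγt, Finsupp.linearCombination_apply, Finsupp.sum, map_sum,
        ← Finset.sum_sub_distrib]
      refine Finset.sum_congr rfl fun j _ => ?_
      rw [map_smul, smul_sub]
    rw [h1]
    exact AddSubgroup.sum_mem _ fun j hj => AddSubgroup.zsmul_mem _ (hγ j hj).2.1 _
  have hRγt : linearCombination ℤ Q.R γt = p ^ b.M i • U n (b.a i) := by
    have h1 : linearCombination ℤ Q.R γt = U n (linearCombination ℤ b.a (b.β i)) := by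
      rw [hγt, map_sum, Finsupp.linearCombination_apply, Finsupp.sum, map_sum]
      refine Finset.sum_congr rfl fun j hj => ?_
      rw [map_smul, (hγ j hj).2.2, map_zsmul]
    have h2 := hU0 n _ (b.rel i)
    rw [map_sub, sub_eq_zero, map_nsmul] at h2
    rw [h1, ← h2]
  -- `y5`, `d1`, `ε`
  obtain ⟨y5, hy5, hy5t⟩ := mem_ulm_succ.1 ht1 (b.M ρ + b.M i)
  have haβ : linearCombination ℤ b.a (b.β ρ) ∈ ulm p A (Order.succ (b.k i)) := by
    refine lc_mem' fun j hj => ?_
    have h1 := (b.dep ρ j hj).2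
    rw [hk] at h1
    exact ulm_anti (Order.succ_le_of_lt h1) (b.mem j)
  have hd : p ^ b.M ρ • b.a ρ ∈ ulm p A (Order.succ (b.k i)) := by
    have h1 := add_mem (ulm_anti hκs (b.rel ρ)) haβ
    rwa [sub_add_cancel] at h1
  obtain ⟨d1, hd1, hd1ρ⟩ := mem_ulm_succ.1 hd (b.M ρ + b.M i)
  obtain ⟨ε, hε, hε'⟩ := b.span (b.k i) (b.k_lt i).le (y5 - d1) (sub_mem hy5 hd1)
  -- `e`
  set e : A := p ^ b.M ρ • (y5 - d1) with he
  set γe : I →₀ ℤ := (p ^ b.M ρ : ℕ) • (ε.erase ρ) + ε ρ • b.β ρ with hγe
  have hρe : ρ ∉ γe.support := by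
    rw [Finsupp.notMem_support_iff, hγe, Finsupp.add_apply, Finsupp.smul_apply, Finsupp.smul_apply,
      Finsupp.erase_same, Finsupp.notMem_support_iff.1 hρβ, smul_zero, smul_zero, add_zero]
  have hek : ∀ j ∈ γe.support, b.k i ≤ b.k j := by
    intro j hj
    by_contra hjk
    rw [Finsupp.mem_support_iff] at hj
    apply hj
    have h1 : ε j = 0 := by
      by_contra h2
      exact hjk (hε j (Finsupp.mem_support_iff.2 h2))
    have h2 : b.β ρ j = 0 := by
      by_contra h2
      have h3 := (b.dep ρ j (Finsupp.mem_support_iff.2 h2)).2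
      rw [hk] at h3
      exact hjk h3.le
    rw [hγe, Finsupp.add_apply, Finsupp.smul_apply, Finsupp.smul_apply, h2, smul_zero, add_zero]
    by_cases hjρ : j = ρ
    · rw [hjρ, Finsupp.erase_same, smul_zero]
    · rw [Finsupp.erase_ne hjρ, h1, smul_zero]
  have hsplit : ∀ {G : Type u} [AddCommGroup G] (f : I → G),
      linearCombination ℤ f γe = p ^ b.M ρ • linearCombination ℤ f (ε.erase ρ) +
        ε ρ • linearCombination ℤ f (b.β ρ) := by
    intro G _ f
    rw [hγe, map_add, map_nsmul, map_smul]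
  have hε2 : linearCombination ℤ b.a ε = linearCombination ℤ b.a (ε.erase ρ) + ε ρ • b.a ρ := by
    conv_lhs => rw [← Finsupp.erase_add_single ρ ε]
    rw [map_add, Finsupp.linearCombination_single]
  have heγ : e - linearCombination ℤ b.a γe ∈ ulm p A κs := by
    have h1 : e - linearCombination ℤ b.a γe =
        p ^ b.M ρ • (y5 - d1 - linearCombination ℤ b.a ε) +
        ε ρ • (p ^ b.M ρ • b.a ρ - linearCombination ℤ b.a (b.β ρ)) := by
      rw [hsplit, he, hε2, smul_sub (p ^ b.M ρ) (y5 - d1), smul_add (p ^ b.M ρ), smul_sub (ε ρ),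
        smul_comm (ε ρ) (p ^ b.M ρ) (b.a ρ)]
      abel
    rw [h1]
    exact add_mem (AddSubgroup.nsmul_mem _ hε' _) (AddSubgroup.zsmul_mem _ (b.rel ρ) _)
  have hemem : e ∈ ulm p A (b.k i) := AddSubgroup.nsmul_mem _ (sub_mem hy5 hd1) _
  -- `V`
  set V : A := p ^ (b.M ρ - b.M i) • b.a ρ + e with hV
  have hVmem : V ∈ ulm p A (b.k i) := by
    refine add_mem (AddSubgroup.nsmul_mem _ ?_ _) hemem
    rw [← hk]
    exact b.mem ρ
  have hpe : p ^ b.M i • e = t - p ^ b.M ρ • b.a ρ := by
    rw [he, smul_smul, ← pow_add, Nat.add_comm (b.M i), smul_sub, hy5t, hd1ρ]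
  have hVt : p ^ b.M i • V = t := by
    rw [hV, smul_add, hpe, smul_smul, ← pow_add, Nat.add_sub_cancel' hM]
    abel
  -- `D1`
  obtain ⟨F, hFfin, hF0, hFcl, hFk⟩ := exists_closure b (γe.support ∪ (b.β ρ).support) (b.k i)
    (by
      intro j hj
      rcases Finset.mem_union.1 hj with h | h
      · exact hek j h
      · have h3 := (b.dep ρ j h).2
        rw [hk] at h3
        exact h3.le)
  have hρF : ρ ∉ F := by
    intro h
    rcases hFk ρ h with h | h
    · rcases Finset.mem_union.1 h with h | h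
      · exact hρe h
      · exact hρβ h
    · rw [hk] at h
      exact lt_irrefl _ h
  -- `R1`
  obtain ⟨R1, hR1, hR1'⟩ := b.exists_good (Q := pu p A) (tq_pu p κs A) 0
    (fun h κ _ m => zero_mem _) Q.closed Q.R
    (fun j hj => ⟨by rw [pu_zero]; exact Q.Rmem j hj, by
      rw [AddMonoidHom.zero_apply, add_zero]; exact Q.good j hj⟩)
  have hR1mem : ∀ j, R1 j ∈ ulm p A (b.k j) := fun j => by
    have h1 := (hR1' j).1
    rwa [pu_zero] at h1
  have hR1good : ∀ j, p ^ b.M j • R1 j = linearCombination ℤ R1 (b.β j) := fun j => by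
    have h1 := (hR1' j).2
    rwa [AddMonoidHom.zero_apply, add_zero] at h1
  -- `g`
  have hg : U n (b.a i) - linearCombination ℤ R1 γe ∈ pu p A (b.k i) (b.M ρ) := by
    refine sub_mem (ulm_le_pu (Order.lt_succ _) _ (hU n _ (b.k_lt i) _ (b.mem i))) ?_
    rw [hsplit]
    refine add_mem (mem_pu.2 ⟨_, lc_mem' fun j hj => ?_, rfl⟩)
      (AddSubgroup.zsmul_mem _ (ulm_le_pu (Order.lt_succ _) _ (lc_mem' fun j hj => ?_)) _)
    · have h1 : j ∈ ε.support := by
        rw [Finsupp.support_erase] at hj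
        exact Finset.mem_of_mem_erase hj
      exact ulm_anti (hε j h1) (hR1mem j)
    · have h1 := (b.dep ρ j hj).2
      rw [hk] at h1
      exact ulm_anti (Order.succ_le_of_lt h1) (hR1mem j)
  obtain ⟨y', hy', hgy'⟩ := mem_pu.1 hg
  set y : A := p ^ b.M i • y' with hy
  have hymem : y ∈ ulm p A (b.k i) := AddSubgroup.nsmul_mem _ hy' _
  have hgy : p ^ (b.M ρ - b.M i) • y = U n (b.a i) - linearCombination ℤ R1 γe := by
    rw [hy, smul_smul, ← pow_add, Nat.sub_add_cancel hM, hgy']
  -- goodness at `ρ`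
  have hRγt1 : linearCombination ℤ R1 γt = p ^ b.M i • U n (b.a i) := by
    rw [← hRγt]
    exact lc_congr' fun j hj => hR1 j (hγtD j hj)
  have hρgood : p ^ b.M ρ • y = linearCombination ℤ R1 (b.β ρ) := by
    have h1 : linearCombination ℤ R1 (γt - p ^ b.M i • γe - b.β ρ) = 0 := by
      refine b.good_wd (D := Set.univ) (fun _ _ _ _ => trivial) (fun j _ => hR1good j)
        (fun _ _ => trivial) ?_
      have h2 : linearCombination ℤ b.a (γt - p ^ b.M i • γe - b.β ρ) =
          p ^ b.M i • (e - linearCombination ℤ b.a γe) - (t - linearCombination ℤ b.a γt) +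
          (p ^ b.M ρ • b.a ρ - linearCombination ℤ b.a (b.β ρ)) := by
        rw [map_sub, map_sub, map_nsmul, smul_sub, hpe]
        abel
      rw [h2]
      exact add_mem (sub_mem (AddSubgroup.nsmul_mem _ heγ _) htγ) (b.rel ρ)
    rw [map_sub, map_sub, map_nsmul, hRγt1, sub_eq_zero] at h1
    rw [← h1, ← smul_sub, ← hgy, smul_smul (p ^ b.M i) (p ^ (b.M ρ - b.M i)) y, ← pow_add,
      Nat.add_sub_cancel' hM]
  -- the new solution
  have hDR : ∀ j, j ≠ ρ → Function.update R1 ρ y j = R1 j := fun j hj =>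
    Function.update_of_ne hj _ _
  let v' : ℕ → I → A := fun n' => if n' = n then Function.update (Q.v n) i V else Q.v n'
  have hv'L : ∀ n' j, (n', j) ∈ Q.L → v' n' j = Q.v n' j := by
    intro n' j hj
    by_cases hn' : n' = n
    · subst hn'
      have hji : j ≠ i := by
        rintro rfl
        exact hni hj
      show (if n' = n' then Function.update (Q.v n') i V else Q.v n') j = _
      rw [if_pos rfl, Function.update_of_ne hji]
    · show (if n' = n then Function.update (Q.v n) i V else Q.v n') j = _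
      rw [if_neg hn']
  have hv'n : v' n i = V := by
    show (if n = n then Function.update (Q.v n) i V else Q.v n) i = _
    rw [if_pos rfl, Function.update_self]
  have hR'D : ∀ j ∈ Q.D, Function.update R1 ρ y j = Q.R j := by
    intro j hj
    rw [hDR j (fun h => hρ (h ▸ hj))]
    exact hR1 j hj
  let Q' : PS b U :=
    { D := insert ρ (Q.D ∪ F)
      R := Function.update R1 ρ y
      L := insert (n, i) Q.L
      v := v'
      closed := by
        rintro x (hx | hx | hx) z hz
        · rw [hx] at hz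
          exact Or.inr (Or.inr (hF0 z (Finset.mem_union_right _ hz)))
        · exact Or.inr (Or.inl (Q.closed x hx z hz))
        · exact Or.inr (Or.inr (hFcl x hx z hz))
      Rmem := by
        intro x _
        by_cases hx : x = ρ
        · rw [hx, Function.update_self, hk]
          exact hymem
        · rw [hDR x hx]
          exact hR1mem x
      good := by
        intro x hx
        by_cases hxρ : x = ρ
        · rw [hxρ, Function.update_self, hρgood]
          exact lc_congr' fun j hj => (hDR j (fun h => hρβ (h ▸ hj))).symm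
        · rw [hDR x hxρ, hR1good x]
          refine lc_congr' fun j hj => (hDR j ?_).symm
          rintro rfl
          rcases hx with hx | hx | hx
          · exact hxρ hx
          · exact hρ (Q.closed x hx _ hj)
          · exact hρF (hFcl x hx _ hj)
      Lclosed := by
        rintro n' x (hx | hx) z hz
        · rw [Prod.mk.injEq] at hx
          obtain ⟨rfl, rfl⟩ := hx
          exact Or.inr (hdep z hz)
        · exact Or.inr (Q.Lclosed n' x hx z hz)
      vmem := by
        rintro n' x (hx | hx)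
        · rw [Prod.mk.injEq] at hx
          obtain ⟨rfl, rfl⟩ := hx
          rw [hv'n]
          exact hVmem
        · rw [hv'L n' x hx]
          exact Q.vmem n' x hx
      vrel := by
        rintro n' x (hx | hx)
        · rw [Prod.mk.injEq] at hx
          obtain ⟨rfl, rfl⟩ := hx
          rw [hv'n, hVt, ht]
          exact lc_congr' fun j hj => (hv'L _ j (hdep j hj)).symm
        · rw [hv'L n' x hx, Q.vrel n' x hx]
          exact lc_congr' fun j hj => (hv'L _ j (Q.Lclosed n' x hx j hj)).symm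
      vr := by
        rintro n' x (hx | hx)
        · rw [Prod.mk.injEq] at hx
          obtain ⟨rfl, rfl⟩ := hx
          refine ⟨(p ^ (b.M ρ - b.M x) : ℕ) • single ρ (1 : ℤ) + γe, ?_, ?_, ?_⟩
          · intro j hj
            by_cases hjρ : j = ρ
            · exact Or.inl hjρ
            · refine Or.inr (Or.inr (hF0 j (Finset.mem_union_left _ ?_)))
              rw [Finsupp.mem_support_iff, Finsupp.add_apply, Finsupp.smul_apply,
                Finsupp.single_eq_of_ne hjρ, smul_zero, zero_add] at hj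
              exact Finsupp.mem_support_iff.2 hj
          · rw [hv'n, map_add, map_nsmul, Finsupp.linearCombination_single, one_smul, hV]
            have h1 : p ^ (b.M ρ - b.M x) • b.a ρ + e - (p ^ (b.M ρ - b.M x) • b.a ρ +
                linearCombination ℤ b.a γe) = e - linearCombination ℤ b.a γe := by abel
            rw [h1]
            exact heγ
          · rw [map_add, map_nsmul, Finsupp.linearCombination_single, one_smul,
              Function.update_self, hgy]
            rw [lc_congr' (g := R1) fun j hj => hDR j (fun h => hρe (h ▸ hj))]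
            abel
        · obtain ⟨δ, h1, h2, h3⟩ := Q.vr n' x hx
          refine ⟨δ, fun j hj => Or.inr (Or.inl (h1 j hj)), ?_, ?_⟩
          · rw [hv'L n' x hx]
            exact h2
          · rw [← h3]
            exact lc_congr' fun j hj => hR'D j (h1 j hj) }
  refine ⟨Q', ⟨fun x hx => Or.inr (Or.inl hx), fun x hx => hR'D x hx, fun x hx => Or.inr hx,
    fun n' x hx => hv'L n' x hx⟩, ?_, Or.inl rfl⟩
  refine ((Set.finite_singleton ρ).union hFfin).subset ?_
  rintro x ⟨hx | hx | hx, hx'⟩
  · exact Or.inl hx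
  · exact absurd hx hx'
  · exact Or.inr hx

end Pool.Agent.Lib_MP_fa2e48_tp
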