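import Mathlib
import Pool.Agent.Lib_MP_fa2e48_tp.PStep
import Pool.Agent.Lib_MP_fa2e48_tp.PSUnion
import Pool.Agent.Lib_MP_fa2e48_tp.Alpha

/-!
# Factorization
-/

namespace Pool.Agent.Lib_MP_fa2e48_tp

open Finsupp Pool.Agent.Lib_MP_fa2e48_al

universe u

section

variable {p : ℕ} [hp : Fact p.Prime] {A : Type u} [AddCommGroup A] {κs : Ordinal.{u}} {I : Type u}
  {b : UlmBasis p A κs I} {U : ℕ → A →+ A} {α : I → ℕ × I}

/-- One more pair over a full partial solution. -/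
theorem PS.step' (hU0 : ∀ n, ∀ h ∈ ulm p A κs, U n h = 0)
    (hU : ∀ n, ∀ κ < κs, ∀ x ∈ ulm p A κ, U n x ∈ ulm p A (Order.succ κ))
    (hα : ∀ (n : ℕ) (i : I), {ρ | α ρ = (n, i) ∧ b.k ρ = b.k i ∧ b.M i ≤ b.M ρ}.Infinite)
    {P Q : PS b U} (hP : P.Full α) (hPQ : P.le Q) (hfin : (Q.D \ P.D).Finite) (n : ℕ) (i : I) :
    ∃ Q' : PS b U, Q.le Q' ∧ (Q'.D \ P.D).Finite ∧ (n, i) ∈ Q'.L := by
  classical
  suffices H : ∀ (r : ℕ) (i : I), b.rk i = r → ∀ Q : PS b U, P.le Q → (Q.D \ P.D).Finite →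
      ∃ Q' : PS b U, Q.le Q' ∧ (Q'.D \ P.D).Finite ∧ (n, i) ∈ Q'.L from
    H (b.rk i) i rfl Q hPQ hfin
  intro r
  induction r using Nat.strong_induction_on with
  | _ r ih =>
    intro i hi Q hPQ hfin
    have h1 : ∀ S : Finset I, (∀ j ∈ S, b.rk j < b.rk i) →
        ∃ Q1 : PS b U, Q.le Q1 ∧ (Q1.D \ P.D).Finite ∧ ∀ j ∈ S, (n, j) ∈ Q1.L := by
      intro S
      induction S using Finset.induction_on with
      | empty =>
        intro _
        exact ⟨Q, PS.le_refl Q, hfin, fun j hj => absurd hj (Finset.notMem_empty j)⟩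
      | insert j S _ ihS =>
        intro hS
        obtain ⟨Q1, h1, h2, h3⟩ := ihS fun j' hj' => hS j' (Finset.mem_insert_of_mem hj')
        obtain ⟨Q2, h4, h5, h6⟩ := ih (b.rk j) (hi ▸ hS j (Finset.mem_insert_self j S)) j rfl Q1
          (PS.le_trans hPQ h1) h2
        refine ⟨Q2, PS.le_trans h1 h4, h5, fun j' hj' => ?_⟩
        rcases Finset.mem_insert.1 hj' with rfl | hj'
        · exact h6
        · exact h4.2.2.1 (h3 j' hj')
    obtain ⟨Q1, h2, h3, h4⟩ := h1 (b.β i).support fun j hj => (b.dep i j hj).1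
    by_cases hni : (n, i) ∈ Q1.L
    · exact ⟨Q1, h2, h3, hni⟩
    · obtain ⟨ρ, ⟨hρ1, hρ2, hρ3⟩, hρ4⟩ := (hα n i).exists_notMem_finite h3
      have hρ5 : ρ ∉ Q1.D := by
        intro hρ
        have hρP : ρ ∈ P.D := by
          by_contra hc
          exact hρ4 ⟨hρ, hc⟩
        have h5 := hP ρ hρP
        rw [hρ1] at h5
        exact hni (h2.2.2.1 (hPQ.2.2.1 h5))
      obtain ⟨Q', h5, h6, h7⟩ := PS.step hU0 hU Q1 n i h4 hni ρ hρ5 hρ2 hρ3
      refine ⟨Q', PS.le_trans h2 h5, (h6.union h3).subset ?_, h7⟩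
      intro x hx
      by_cases hx1 : x ∈ Q1.D
      · exact Or.inr ⟨hx1, hx.2⟩
      · exact Or.inl ⟨hx.1, hx1⟩

/-- One stage. -/
theorem PS.stage (hU0 : ∀ n, ∀ h ∈ ulm p A κs, U n h = 0)
    (hU : ∀ n, ∀ κ < κs, ∀ x ∈ ulm p A κ, U n x ∈ ulm p A (Order.succ κ))
    (hα : ∀ (n : ℕ) (i : I), {ρ | α ρ = (n, i) ∧ b.k ρ = b.k i ∧ b.M i ≤ b.M ρ}.Infinite)
    {P : PS b U} (hP : P.Full α) (n : ℕ) (i : I) :
    ∃ P' : PS b U, P.le P' ∧ P'.Full α ∧ (n, i) ∈ P'.L := by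
  classical
  have h1 : ∀ (T : Finset (ℕ × I)) (Q : PS b U), P.le Q → (Q.D \ P.D).Finite →
      ∃ Q' : PS b U, Q.le Q' ∧ (Q'.D \ P.D).Finite ∧ ∀ x ∈ T, x ∈ Q'.L := by
    intro T Q hPQ hfin
    induction T using Finset.induction_on with
    | empty => exact ⟨Q, PS.le_refl Q, hfin, fun j hj => absurd hj (Finset.notMem_empty j)⟩
    | insert x T _ ihT =>
      obtain ⟨Q1, h1, h2, h3⟩ := ihT
      obtain ⟨Q2, h4, h5, h6⟩ := PS.step' hU0 hU hα hP (PS.le_trans hPQ h1) h2 x.1 x.2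
      refine ⟨Q2, PS.le_trans h1 h4, h5, fun y hy => ?_⟩
      rcases Finset.mem_insert.1 hy with rfl | hy
      · exact h6
      · exact h4.2.2.1 (h3 y hy)
  have h2 : ∀ Q : {Q : PS b U // P.le Q ∧ (Q.D \ P.D).Finite},
      ∃ Q' : {Q : PS b U // P.le Q ∧ (Q.D \ P.D).Finite}, Q.1.le Q'.1 ∧ (n, i) ∈ Q'.1.L ∧
        ∀ ρ ∈ Q.1.D \ P.D, α ρ ∈ Q'.1.L := by
    rintro ⟨Q, hPQ, hfin⟩
    obtain ⟨Q', h3, h4, h5⟩ := h1 (insert (n, i) (hfin.toFinset.image α)) Q hPQ hfin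
    refine ⟨⟨Q', PS.le_trans hPQ h3, h4⟩, h3, h5 _ (Finset.mem_insert_self _ _), ?_⟩
    intro ρ hρ
    exact h5 _ (Finset.mem_insert_of_mem (Finset.mem_image_of_mem α (hfin.mem_toFinset.2 hρ)))
  choose next hn1 hn2 hn3 using h2
  let sq : ℕ → {Q : PS b U // P.le Q ∧ (Q.D \ P.D).Finite} := fun m =>
    Nat.rec ⟨P, PS.le_refl P, by simp⟩ (fun _ Q => next Q) m
  have hsq : ∀ m, sq (m + 1) = next (sq m) := fun m => rfl
  have hmono : ∀ m m', m ≤ m' → (sq m).1.le (sq m').1 := by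
    intro m m' hmm
    induction m', hmm using Nat.le_induction with
    | base => exact PS.le_refl _
    | succ m' _ ih =>
      rw [hsq]
      exact PS.le_trans ih (hn1 _)
  obtain ⟨P', h3, h4, h5⟩ := PS.exists_union (Set.range fun m => (sq m).1) ⟨_, 0, rfl⟩ (by
    rintro _ ⟨m, rfl⟩ _ ⟨m', rfl⟩
    rcases le_total m m' with h | h
    · exact Or.inl (hmono m m' h)
    · exact Or.inr (hmono m' m h))
  refine ⟨P', h3 _ ⟨0, rfl⟩, ?_, ?_⟩
  · intro ρ hρ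
    obtain ⟨_, ⟨m, rfl⟩, hm⟩ := (h4 ρ).1 hρ
    by_cases hρP : ρ ∈ P.D
    · exact (h3 _ ⟨0, rfl⟩ : P.le P').2.2.1 (hP ρ hρP)
    · exact (h5 _).2 ⟨_, ⟨m + 1, rfl⟩, hn3 (sq m) ρ ⟨hm, hρP⟩⟩
  · exact (h5 _).2 ⟨_, ⟨1, rfl⟩, hn2 (sq 0)⟩

omit hp in
private theorem Factor_map_lc (r : A →+ A) (f : I → A) (γ : I →₀ ℤ) :
    r (linearCombination ℤ f γ) = linearCombination ℤ (fun i => r (f i)) γ := by
  rw [linearCombination_apply, linearCombination_apply, map_finsuppSum]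
  exact Finsupp.sum_congr fun j _ => map_zsmul r _ _

omit hp in
private theorem Factor_lc_congr (f g : I → A) (γ : I →₀ ℤ) (h : ∀ j ∈ γ.support, f j = g j) :
    linearCombination ℤ f γ = linearCombination ℤ g γ := by
  rw [linearCombination_apply, linearCombination_apply]
  exact Finsupp.sum_congr fun j hj => by rw [h j hj]

/-- The empty partial solution. -/
private def Factor_empty (b : UlmBasis p A κs I) (U : ℕ → A →+ A) : PS b U where
  D := ∅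
  R := fun _ => 0
  L := ∅
  v := fun _ _ => 0
  closed := fun i hi => absurd hi (Set.notMem_empty i)
  Rmem := fun i hi => absurd hi (Set.notMem_empty i)
  good := fun i hi => absurd hi (Set.notMem_empty i)
  Lclosed := fun n i hi => absurd hi (Set.notMem_empty (n, i))
  vmem := fun n i hi => absurd hi (Set.notMem_empty (n, i))
  vrel := fun n i hi => absurd hi (Set.notMem_empty (n, i))
  vr := fun n i hi => absurd hi (Set.notMem_empty (n, i))

theorem factor (b : UlmBasis p A κs I) (hwin : ∀ κ < κs, ∀ n : ℕ, ∃ i, b.k i = κ ∧ n ≤ b.M i)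
    (U : ℕ → A →+ A) (hU0 : ∀ n, ∀ h ∈ ulm p A κs, U n h = 0)
    (hU : ∀ n, ∀ κ < κs, ∀ x ∈ ulm p A κ, U n x ∈ ulm p A (Order.succ κ)) :
    ∃ (r : A →+ A) (V : ℕ → A →+ A), (∀ h ∈ ulm p A κs, r h = 0) ∧ ∀ n x, r (V n x) = U n x := by
  obtain ⟨α, hα⟩ := exists_alpha b.k b.M fun i n => hwin (b.k i) (b.k_lt i) n
  obtain ⟨⟨P, hP⟩, hmax⟩ := exists_maximal_of_chains_bounded
    (α := {P : PS b U // P.Full α}) (r := fun P Q => P.1.le Q.1)
    (by
      intro c hc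
      rcases c.eq_empty_or_nonempty with rfl | hne
      · exact ⟨⟨Factor_empty b U, fun ρ hρ => absurd hρ (Set.notMem_empty ρ)⟩,
          fun a ha => absurd ha (Set.notMem_empty a)⟩
      · obtain ⟨Q, h1, h2, h3⟩ := PS.exists_union ((fun P : {P : PS b U // P.Full α} => P.1) '' c)
          (hne.image _) (by
            rintro _ ⟨P, hP, rfl⟩ _ ⟨Q, hQ, rfl⟩
            by_cases hPQ : P = Q
            · subst hPQ
              exact Or.inl (PS.le_refl _)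
            · exact hc hP hQ hPQ)
        refine ⟨⟨Q, ?_⟩, fun P hP => h1 _ ⟨P, hP, rfl⟩⟩
        intro ρ hρ
        obtain ⟨_, ⟨P, hP, rfl⟩, hρP⟩ := (h2 ρ).1 hρ
        exact (h3 _).2 ⟨_, ⟨P, hP, rfl⟩, P.2 ρ hρP⟩)
    (fun h1 h2 => PS.le_trans h1 h2)
  have hL : ∀ n i, (n, i) ∈ P.L := by
    intro n i
    obtain ⟨P', h1, h2, h3⟩ := PS.stage hU0 hU hα hP n i
    exact (hmax ⟨P', h2⟩ h1).2.2.1 h3
  obtain ⟨R', hR1, hR2⟩ := b.exists_good (tq_pu p κs A) 0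
    (fun h κ _ m => by
      rw [AddMonoidHom.zero_apply]
      exact zero_mem _) P.closed P.R
    (fun i hi => ⟨by rw [pu_zero]; exact P.Rmem i hi, by
      rw [AddMonoidHom.zero_apply, add_zero]
      exact P.good i hi⟩)
  obtain ⟨r, hr1, hr2⟩ := b.exists_hom 0 R' fun i => (hR2 i).2
  have hV : ∀ n, ∃ F : A →+ A, (∀ h : ulm p A κs, F h = (0 : ulm p A κs →+ A) h) ∧
      ∀ i, F (b.a i) = P.v n i := by
    intro n
    refine b.exists_hom 0 (P.v n) fun i => ?_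
    rw [AddMonoidHom.zero_apply, add_zero]
    exact P.vrel n i (hL n i)
  choose V hV1 hV2 using hV
  have hr0 : ∀ h ∈ ulm p A κs, r h = 0 := fun h hh => hr1 ⟨h, hh⟩
  refine ⟨r, V, hr0, fun n x => ?_⟩
  have key : r.comp (V n) = U n := by
    refine b.hom_ext ?_ ?_
    · intro h hh
      have h1 : V n h = 0 := hV1 n ⟨h, hh⟩
      rw [AddMonoidHom.comp_apply, h1, map_zero, hU0 n h hh]
    · intro i
      obtain ⟨γ, h1, h2, h3⟩ := P.vr n i (hL n i)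
      rw [AddMonoidHom.comp_apply, hV2, ← h3]
      have h4 := hr0 _ h2
      rw [map_sub, sub_eq_zero] at h4
      rw [h4, Factor_map_lc]
      refine Factor_lc_congr _ _ γ fun j hj => ?_
      rw [hr2 j, hR1 j (h1 j hj)]
  rw [← key]
  rfl

end

end Pool.Agent.Lib_MP_fa2e48_tp
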