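import Mathlib
import Pool.Agent.Lib_MP_fa2e48_tp.Ext

/-!
# Linear maps over the endomorphism ring of an Ulm subgroup
-/

namespace Pool.Agent.Lib_MP_fa2e48_tp

open Finsupp Pool.Agent.Lib_MP_fa2e48_al

universe u

/-- Every linear map from `(End A) ^ ω` to `ulm p A κ` kills the sequences which vanish there. -/
def Kills (p : ℕ) (A : Type u) [AddCommGroup A] (κ : Ordinal.{u}) : Prop :=
  ∀ (f : (ℕ → AddMonoid.End A) →ₗ[AddMonoid.End A] ulmS p A κ) (X : ℕ → AddMonoid.End A),
    (∀ n, ∀ h ∈ ulm p A κ, X n h = 0) → f X = 0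

/-- All endomorphisms of `ulm p A κ` extend to `A`. -/
def ExtEnd (p : ℕ) (A : Type u) [AddCommGroup A] (κ : Ordinal.{u}) : Prop :=
  ∀ Φ : AddMonoid.End (ulmS p A κ), ∃ φ : AddMonoid.End A, ∀ h : ulmS p A κ, φ h = Φ h

theorem extEnd_of_basis {p : ℕ} [Fact p.Prime] {A : Type u} [AddCommGroup A] {κ : Ordinal.{u}}
    {I : Type u} (b : UlmBasis p A κ I) : ExtEnd p A κ := by
  intro Φ
  let φ₀ : ulm p A κ →+ A :=
    { toFun := fun h => (Φ ⟨h.1, h.2⟩ : A)
      map_zero' := by
        have h0 : (⟨(0 : ulm p A κ).1, (0 : ulm p A κ).2⟩ : ulmS p A κ) = 0 := rfl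
        rw [h0, map_zero]
        rfl
      map_add' := by
        intro x y
        have h1 : (⟨(x + y).1, (x + y).2⟩ : ulmS p A κ) = ⟨x.1, x.2⟩ + ⟨y.1, y.2⟩ := rfl
        rw [h1, map_add]
        rfl }
  obtain ⟨F, hF, -⟩ := b.ext_all (tq_pu p κ A) φ₀
    (fun h κ' hκ' m => ulm_le_pu hκ' m (Φ ⟨h.1, h.2⟩).2)
  exact ⟨F, fun h => hF ⟨h.1, h.2⟩⟩

/-- Linear maps with values in `H` come from linear maps over `End H`. -/
theorem exists_own {A : Type u} [AddCommGroup A] (H : Submodule (AddMonoid.End A) A)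
    (hsurj : ∀ Φ : AddMonoid.End H, ∃ φ : AddMonoid.End A, ∀ h : H, φ h = Φ h)
    (kills : ∀ (f : (ℕ → AddMonoid.End A) →ₗ[AddMonoid.End A] H) (X : ℕ → AddMonoid.End A),
      (∀ k, ∀ h ∈ H, X k h = 0) → f X = 0)
    (f : (ℕ → AddMonoid.End A) →ₗ[AddMonoid.End A] H) :
    ∃ g : (ℕ → AddMonoid.End H) →ₗ[AddMonoid.End H] H, ∀ X : ℕ → AddMonoid.End A,
      g (fun n => Module.toAddMonoidEnd (AddMonoid.End A) H (X n)) = f X := by
  let resH : AddMonoid.End A →+* AddMonoid.End H := Module.toAddMonoidEnd (AddMonoid.End A) H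
  have hsurj' : Function.Surjective resH := by
    intro Φ
    obtain ⟨φ, hφ⟩ := hsurj Φ
    exact ⟨φ, AddMonoidHom.ext fun x => Subtype.ext (hφ x)⟩
  let s : AddMonoid.End H → AddMonoid.End A := Function.surjInv hsurj'
  have hs : ∀ Φ, resH (s Φ) = Φ := Function.surjInv_eq hsurj'
  have hker : ∀ X Y : ℕ → AddMonoid.End A, (∀ k, resH (X k) = resH (Y k)) → f X = f Y := by
    intro X Y hXY
    rw [← sub_eq_zero, ← map_sub]
    refine kills f _ fun k y hy => ?_
    show X k y - Y k y = 0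
    have := congrArg (fun Φ : AddMonoid.End H => ((Φ ⟨y, hy⟩ : H) : A)) (hXY k)
    rw [sub_eq_zero]
    exact this
  let g : (ℕ → AddMonoid.End H) →ₗ[AddMonoid.End H] H :=
    { toFun := fun x => f fun k => s (x k)
      map_add' := by
        intro x y
        rw [← map_add]
        apply hker
        intro k
        rw [hs, Pi.add_apply, Pi.add_apply, map_add, hs, hs]
      map_smul' := by
        intro Φ x
        have h1 : f (fun k => s ((Φ • x) k)) = f (s Φ • fun k => s (x k)) := by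
          apply hker
          intro k
          rw [hs, Pi.smul_apply, Pi.smul_apply, smul_eq_mul, smul_eq_mul, map_mul, hs, hs]
        rw [h1, map_smul]
        have h2 : s Φ • f (fun k => s (x k)) = resH (s Φ) (f fun k => s (x k)) := rfl
        rw [h2, hs]
        rfl }
  refine ⟨g, fun X => ?_⟩
  show f (fun k => s (resH (X k))) = f X
  apply hker
  intro k
  rw [hs]

theorem kills_add {p : ℕ} {A : Type u} [AddCommGroup A] {μ ν : Ordinal.{u}} (hE : ExtEnd p A μ)
    (hK : Kills p A μ) (hK' : Kills p (ulm p A μ) ν) : Kills p A (μ + ν) := by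
  intro f X hX
  have hle : ulmS p A (μ + ν) ≤ ulmS p A μ := fun x hx => ulm_anti le_self_add hx
  obtain ⟨g, hg⟩ := exists_own (ulmS p A μ) hE hK ((Submodule.inclusion hle).comp f)
  let e : ulm p A μ →+ ulmS p A μ :=
    { toFun := fun x => ⟨x.1, x.2⟩
      map_zero' := rfl
      map_add' := fun x y => rfl }
  let e' : ulmS p A μ →+ ulm p A μ :=
    { toFun := fun x => ⟨x.1, x.2⟩
      map_zero' := rfl
      map_add' := fun x y => rfl }
  let E : AddMonoid.End (ulm p A μ) → AddMonoid.End (ulmS p A μ) := fun Φ =>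
    (e.comp (AddMonoidHom.comp Φ e') : ulmS p A μ →+ ulmS p A μ)
  have hEadd : ∀ Φ Ψ, E (Φ + Ψ) = E Φ + E Ψ := fun Φ Ψ => rfl
  have hEmul : ∀ Φ Ψ, E (Φ * Ψ) = E Φ * E Ψ := fun Φ Ψ => rfl
  have hmem : ∀ Z : ℕ → AddMonoid.End (ulmS p A μ), ((g Z : ulmS p A μ) : A) ∈ ulm p A (μ + ν) := by
    intro Z
    choose W hW using fun n => hE (Z n)
    have h1 : (fun n => Module.toAddMonoidEnd (AddMonoid.End A) (ulmS p A μ) (W n)) = Z := by
      funext n
      exact AddMonoidHom.ext fun x => Subtype.ext (hW n x)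
    rw [← h1, hg W]
    exact (f W).2
  let g' : (ℕ → AddMonoid.End (ulm p A μ)) →ₗ[AddMonoid.End (ulm p A μ)] ulmS p (ulm p A μ) ν :=
    { toFun := fun Y => ⟨e' (g fun n => E (Y n)), (mem_ulm_ulm μ ν _).2 (hmem _)⟩
      map_add' := by
        intro Y Z
        apply Subtype.ext
        have h1 : (fun n => E ((Y + Z) n)) = (fun n => E (Y n)) + fun n => E (Z n) := by
          funext n
          exact hEadd _ _
        show e' (g fun n => E ((Y + Z) n)) = e' (g fun n => E (Y n)) + e' (g fun n => E (Z n))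
        rw [h1, map_add, map_add]
      map_smul' := by
        intro Φ Y
        apply Subtype.ext
        have h1 : (fun n => E ((Φ • Y) n)) = E Φ • fun n => E (Y n) := by
          funext n
          exact hEmul _ _
        show e' (g fun n => E ((Φ • Y) n)) = Φ (e' (g fun n => E (Y n)))
        rw [h1, map_smul]
        rfl }
  let Y : ℕ → AddMonoid.End (ulm p A μ) := fun n =>
    (e'.comp (AddMonoidHom.comp (Module.toAddMonoidEnd (AddMonoid.End A) (ulmS p A μ) (X n)) e) :
      ulm p A μ →+ ulm p A μ)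
  have hY : ∀ n, ∀ h ∈ ulm p (ulm p A μ) ν, Y n h = 0 := by
    intro n h hh
    apply Subtype.ext
    show X n (h : A) = 0
    exact hX n _ ((mem_ulm_ulm μ ν h).1 hh)
  have h0 := hK' g' Y hY
  have h1 : (fun n => E (Y n)) =
      fun n => Module.toAddMonoidEnd (AddMonoid.End A) (ulmS p A μ) (X n) := rfl
  have h2 : e' (g fun n => E (Y n)) = 0 := congrArg Subtype.val h0
  rw [h1, hg X] at h2
  have h3 : ((f X : ulmS p A (μ + ν)) : A) = 0 := congrArg Subtype.val h2
  exact Subtype.ext h3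

end Pool.Agent.Lib_MP_fa2e48_tp
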