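import Mathlib
import Pool.Agent.Lib_MP_fa2e48_ulm.Basis
import Pool.Agent.Lib_MP_fa2e48_tp.NF

/-!
# Restriction of bases
-/

namespace Pool.Agent.Lib_MP_fa2e48_tp

open Finsupp Pool.Agent.Lib_MP_fa2e48_al

universe u

private theorem Restr_lc_sub {I : Type u} {G : Type u} [AddCommGroup G] (a : I → G)
    (P : I → Prop) (γ : I →₀ ℤ) (hγ : ∀ j ∈ γ.support, P j) :
    linearCombination ℤ (fun j : {i // P i} => a j) (γ.subtypeDomain P) =
      linearCombination ℤ a γ := by
  rw [linearCombination_apply, linearCombination_apply]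
  exact Finsupp.sum_subtypeDomain_index (h := fun i (c : ℤ) => c • a i) hγ

private theorem Restr_lc_map {I : Type u} {G : Type u} [AddCommGroup G] (a : I → G)
    (P : I → Prop) (γ : {i // P i} →₀ ℤ) :
    linearCombination ℤ a (γ.mapDomain Subtype.val) =
      linearCombination ℤ (fun j : {i // P i} => a j) γ := by
  rw [linearCombination_mapDomain]
  rfl

private theorem Restr_mem_map {I : Type u} (P : I → Prop) (γ : {i // P i} →₀ ℤ) {j : I}
    (hj : j ∈ (γ.mapDomain Subtype.val).support) : ∃ h : P j, (⟨j, h⟩ : {i // P i}) ∈ γ.support := by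
  classical
  have h1 := Finsupp.mapDomain_support hj
  rw [Finset.mem_image] at h1
  obtain ⟨j', hj', rfl⟩ := h1
  exact ⟨j'.2, hj'⟩

private theorem Restr_coe {p : ℕ} {A : Type u} [AddCommGroup A] {μ : Ordinal.{u}} {J : Type u}
    (a : J → ulm p A μ) (γ : J →₀ ℤ) :
    ((linearCombination ℤ a γ : ulm p A μ) : A) = linearCombination ℤ (fun j => (a j : A)) γ := by
  rw [linearCombination_apply, linearCombination_apply, Finsupp.sum, Finsupp.sum,
    AddSubgroup.val_finsetSum]
  rfl

namespace UlmBasis

variable {p : ℕ} [hp : Fact p.Prime] {A : Type u} [AddCommGroup A] {κs : Ordinal.{u}} {I : Type u}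

omit hp in
theorem left (b : UlmBasis p A κs I) {μ : Ordinal.{u}} (hμ : μ ≤ κs) :
    Nonempty (UlmBasis p A μ {i // b.k i < μ}) := by
  classical
  have key : ∀ γ : I →₀ ℤ, linearCombination ℤ b.a γ -
      linearCombination ℤ (fun j : {i // b.k i < μ} => b.a j) (γ.subtypeDomain _) ∈
        ulm p A μ := by
    intro γ
    have h1 : linearCombination ℤ (fun j : {i // b.k i < μ} => b.a j)
        (γ.subtypeDomain fun i => b.k i < μ) =
        linearCombination ℤ b.a (γ.filter fun i => b.k i < μ) := by
      rw [← Restr_lc_sub b.a (fun i => b.k i < μ) (γ.filter fun i => b.k i < μ)]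
      · congr 1
        ext j
        rw [subtypeDomain_apply, subtypeDomain_apply,
          filter_apply_pos (fun i => b.k i < μ) γ j.2]
      · intro j hj
        rw [support_filter, Finset.mem_filter] at hj
        exact hj.2
    have h2 : linearCombination ℤ b.a γ =
        linearCombination ℤ b.a (γ.filter fun i => b.k i < μ) +
          linearCombination ℤ b.a (γ.filter fun i => ¬ b.k i < μ) := by
      rw [← map_add, filter_add_filter_not]
    rw [h1, h2, add_sub_cancel_left, linearCombination_apply, Finsupp.sum]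
    apply AddSubgroup.sum_mem
    intro j hj
    rw [support_filter, Finset.mem_filter] at hj
    exact (ulm p A μ).zsmul_mem (ulm_anti (not_lt.1 hj.2) (b.mem j)) _
  exact ⟨{
    a := fun i => b.a i
    k := fun i => b.k i
    M := fun i => b.M i
    rk := fun i => b.rk i
    β := fun i => (b.β i).subtypeDomain _
    k_lt := fun i => i.2
    mem := fun i => b.mem i
    dep := by
      intro i j hj
      rw [mem_support_iff, subtypeDomain_apply] at hj
      exact b.dep i j (mem_support_iff.2 hj)
    rel := by
      intro i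
      have h1 := add_mem (ulm_anti hμ (b.rel i)) (key (b.β i))
      rwa [sub_add_sub_cancel] at h1
    span := by
      intro κ hκ x hx
      obtain ⟨γ, h1, h2⟩ := b.span κ (hκ.trans hμ) x hx
      refine ⟨γ.subtypeDomain _, ?_, ?_⟩
      · intro j hj
        rw [mem_support_iff, subtypeDomain_apply] at hj
        exact h1 j (mem_support_iff.2 hj)
      · have h3 := add_mem (ulm_anti hμ h2) (key γ)
        rwa [sub_add_sub_cancel] at h3
    indep := by
      intro κ hκ γ h1 h2 j
      have h3 := b.indep κ (hκ.trans_le hμ) (γ.mapDomain Subtype.val) (by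
        intro i hi
        obtain ⟨h, hi'⟩ := Restr_mem_map _ γ hi
        exact h1 ⟨i, h⟩ hi') (by rw [Restr_lc_map]; exact h2) j
      rwa [mapDomain_apply Subtype.val_injective] at h3 }⟩

omit hp in
theorem right {μ ν : Ordinal.{u}} (b : UlmBasis p A (μ + ν) I) :
    Nonempty (UlmBasis p (ulm p A μ) ν {i // μ ≤ b.k i}) := by
  classical
  have hk : ∀ i, μ ≤ b.k i → μ + (b.k i - μ) = b.k i := fun i hi =>
    Ordinal.add_sub_cancel_of_le hi
  have hsub : ∀ (γ : I →₀ ℤ), (∀ j ∈ γ.support, μ ≤ b.k j) →
      ((linearCombination ℤ (fun j : {i // μ ≤ b.k i} =>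
        (⟨b.a j, ulm_anti j.2 (b.mem j)⟩ : ulm p A μ)) (γ.subtypeDomain _) : ulm p A μ) : A) =
        linearCombination ℤ b.a γ := by
    intro γ hγ
    rw [Restr_coe]
    exact Restr_lc_sub b.a (fun i => μ ≤ b.k i) γ hγ
  exact ⟨{
    a := fun i => ⟨b.a i, ulm_anti i.2 (b.mem i)⟩
    k := fun i => b.k i - μ
    M := fun i => b.M i
    rk := fun i => b.rk i
    β := fun i => (b.β i).subtypeDomain _
    k_lt := by
      intro i
      have h1 := b.k_lt i
      rw [← hk i i.2] at h1
      exact lt_of_add_lt_add_left h1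
    mem := by
      intro i
      rw [mem_ulm_ulm, hk i i.2]
      exact b.mem i
    dep := by
      intro i j hj
      rw [mem_support_iff, subtypeDomain_apply] at hj
      have h1 := b.dep i j (mem_support_iff.2 hj)
      refine ⟨h1.1, ?_⟩
      have h2 := h1.2
      rw [← hk i i.2, ← hk j j.2] at h2
      exact lt_of_add_lt_add_left h2
    rel := by
      intro i
      rw [mem_ulm_ulm, AddSubgroup.coe_sub, hsub]
      · exact b.rel i
      · intro j hj
        exact i.2.trans (b.dep i j hj).2.le
    span := by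
      intro κ hκ x hx
      rw [mem_ulm_ulm] at hx
      obtain ⟨γ, h1, h2⟩ := b.span (μ + κ) (by gcongr) x hx
      have h3 : ∀ j ∈ γ.support, μ ≤ b.k j := fun j hj => le_self_add.trans (h1 j hj)
      refine ⟨γ.subtypeDomain _, ?_, ?_⟩
      · intro j hj
        rw [mem_support_iff, subtypeDomain_apply] at hj
        have h4 := h1 j (mem_support_iff.2 hj)
        rw [← hk j j.2] at h4
        exact le_of_add_le_add_left h4
      · rw [mem_ulm_ulm, AddSubgroup.coe_sub, hsub γ h3]
        exact h2
    indep := by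
      intro κ hκ γ h1 h2 j
      rw [mem_ulm_ulm, Restr_coe, Order.succ_eq_add_one, ← add_assoc,
        ← Order.succ_eq_add_one] at h2
      have h3 := b.indep (μ + κ) (by gcongr) (γ.mapDomain Subtype.val) (by
        intro i hi
        obtain ⟨h, hi'⟩ := Restr_mem_map _ γ hi
        rw [← h1 ⟨i, h⟩ hi', hk i h]) (by rw [Restr_lc_map]; exact h2) j
      rwa [mapDomain_apply Subtype.val_injective] at h3 }⟩

omit hp in
theorem toRelBasis (b : UlmBasis p A 1 I) :
    ∃ b' : Lib_MP_fa2e48_ulm.RelBasis p (infHeight p A).toAddSubgroup I, ∀ i, b'.n i = b.M i := by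
  have hk : ∀ i, b.k i = 0 := fun i => Order.lt_one_iff.1 (b.k_lt i)
  have hβ : ∀ i, b.β i = 0 := by
    intro i
    rw [← support_eq_empty, Finset.eq_empty_iff_forall_notMem]
    intro j hj
    have h1 := (b.dep i j hj).2
    rw [hk i, hk j] at h1
    exact lt_irrefl _ h1
  refine ⟨{
    a := b.a
    n := b.M
    mem := by
      intro i
      have h1 := b.rel i
      rw [hβ i, map_zero, sub_zero, mem_ulm_one] at h1
      exact h1
    span := by
      intro x
      obtain ⟨γ, -, h2⟩ := b.span 0 zero_le_one x (by rw [ulm_zero]; trivial)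
      rw [mem_ulm_one] at h2
      exact ⟨_, h2, γ, (sub_add_cancel _ _).symm⟩
    indep := by
      intro β hβ' i
      refine b.indep 0 zero_lt_one β (fun j _ => hk j) ?_ i
      rw [Order.succ_eq_add_one, zero_add, mem_ulm_one]
      exact hβ' }, fun i => rfl⟩

end UlmBasis

end Pool.Agent.Lib_MP_fa2e48_tp
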