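import Mathlib
import Pool.Agent.Lib_MP_fa2e48_al.Divisible
import Pool.Agent.Lib_MP_fa2e48_tp.NF

/-!
# Windows of reduced groups
-/

namespace Pool.Agent.Lib_MP_fa2e48_tp

open Finsupp Pool.Agent.Lib_MP_fa2e48_al

universe u

/-- A `p`-divisible property only holds on the divisible part. -/
private theorem mem_divPart_of_div {p : ℕ} {A : Type u} [AddCommGroup A] {P : A → Prop}
    (h : ∀ x, P x → ∃ y, P y ∧ p • y = x) : ∀ x, P x → x ∈ divPart p A := by
  intro x hx
  choose! f hf1 hf2 using h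
  have hP : ∀ i, P (f^[i] x) := by
    intro i
    induction i with
    | zero => exact hx
    | succ i ih => rw [Function.iterate_succ_apply']; exact hf1 _ ih
  refine ⟨fun i => f^[i] x, rfl, fun i => ?_⟩
  show p • f^[i + 1] x = f^[i] x
  rw [Function.iterate_succ_apply']
  exact hf2 _ (hP i)

private theorem eq_bot_of_div {p : ℕ} {A : Type u} [AddCommGroup A] (hD : divPart p A = ⊥)
    {κ : Ordinal.{u}} (h : ∀ x ∈ ulm p A κ, x ∈ ulm p A (Order.succ κ)) : ulm p A κ = ⊥ := by
  rw [AddSubgroup.eq_bot_iff_forall]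
  intro x hx
  have h1 : x ∈ divPart p A := by
    refine mem_divPart_of_div (P := fun x => x ∈ ulm p A κ) ?_ x hx
    intro y hy
    obtain ⟨z, hz, hzy⟩ := mem_ulm_succ.1 (h y hy) 1
    exact ⟨z, hz, by rwa [pow_one] at hzy⟩
  rw [hD] at h1
  exact (Submodule.mem_bot _).1 h1

namespace UlmBasis

variable {p : ℕ} [hp : Fact p.Prime] {A : Type u} [AddCommGroup A] {κs : Ordinal.{u}} {I : Type u}

/-- In a reduced group all windows are unbounded. -/
theorem window (b : UlmBasis p A κs I) (hD : divPart p A = ⊥) {κ : Ordinal.{u}} (hκ : κ < κs)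
    (hw : ∀ n : ℕ, ∃ x ∈ ulm p A κ, p ^ n • x ≠ 0) : ∀ n : ℕ, ∃ i, b.k i = κ ∧ n ≤ b.M i := by
  by_contra hcon
  push Not at hcon
  obtain ⟨n, hn⟩ := hcon
  have hsucc : Order.succ κ ≤ κs := Order.succ_le_of_lt hκ
  -- generators
  have hgen : ∀ j, κ ≤ b.k j → p ^ n • b.a j ∈ ulm p A (Order.succ κ) := by
    intro j hj
    rcases hj.eq_or_lt with h | h
    · have h1 : b.M j < n := hn j h.symm
      have h2 : linearCombination ℤ b.a (b.β j) ∈ ulm p A (Order.succ κ) := by
        rw [Finsupp.linearCombination_apply]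
        refine AddSubgroup.sum_mem _ fun i hi => ?_
        refine (ulm p A (Order.succ κ)).zsmul_mem ?_ _
        have h3 := (b.dep j i hi).2
        rw [← h] at h3
        exact ulm_anti (Order.succ_le_of_lt h3) (b.mem i)
      have h4 : p ^ b.M j • b.a j ∈ ulm p A (Order.succ κ) := by
        have h5 := add_mem (ulm_anti hsucc (b.rel j)) h2
        rwa [sub_add_cancel] at h5
      have h6 : p ^ n • b.a j = p ^ (n - b.M j) • (p ^ b.M j • b.a j) := by
        rw [smul_smul, ← pow_add, Nat.sub_add_cancel h1.le]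
      rw [h6]
      exact (ulm p A (Order.succ κ)).nsmul_mem h4 _
    · exact (ulm p A (Order.succ κ)).nsmul_mem
        (ulm_anti (Order.succ_le_of_lt h) (b.mem j)) _
  have hall : ∀ x ∈ ulm p A κ, p ^ n • x ∈ ulm p A (Order.succ κ) := by
    intro x hx
    obtain ⟨γ, hγ, hxγ⟩ := b.span κ hκ.le x hx
    have h1 : p ^ n • linearCombination ℤ b.a γ ∈ ulm p A (Order.succ κ) := by
      rw [Finsupp.linearCombination_apply, Finsupp.sum, Finset.smul_sum]
      refine AddSubgroup.sum_mem _ fun i hi => ?_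
      rw [smul_comm]
      exact (ulm p A (Order.succ κ)).zsmul_mem (hgen i (hγ i hi)) _
    have h2 : p ^ n • (x - linearCombination ℤ b.a γ) ∈ ulm p A (Order.succ κ) :=
      (ulm p A (Order.succ κ)).nsmul_mem (ulm_anti hsucc hxγ) _
    have h3 := add_mem h2 h1
    rwa [← smul_add, sub_add_cancel] at h3
  obtain ⟨x, hx, hx0⟩ := hw n
  apply hx0
  have h1 : p ^ n • x ∈ divPart p A := by
    refine mem_divPart_of_div (P := fun z => ∃ x ∈ ulm p A κ, p ^ n • x = z) ?_ _ ⟨x, hx, rfl⟩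
    rintro _ ⟨x, hx, rfl⟩
    obtain ⟨y, hy, hyx⟩ := mem_ulm_succ.1 (hall x hx) (n + 1)
    exact ⟨p ^ n • y, ⟨y, hy, rfl⟩, by rw [smul_smul, ← pow_succ', hyx]⟩
  rw [hD] at h1
  exact (Submodule.mem_bot _).1 h1

end UlmBasis

/-- In a reduced group every nonzero Ulm subgroup contains an element of order `p` outside the next
one. -/
theorem exists_socle {p : ℕ} [Fact p.Prime] {A : Type u} [AddCommGroup A]
    (hA : ∀ a : A, ∃ k : ℕ, p ^ k • a = 0) (hD : divPart p A = ⊥) {κ : Ordinal.{u}}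
    (hne : ulm p A κ ≠ ⊥) : ∃ y ∈ ulm p A κ, p • y = 0 ∧ y ∉ ulm p A (Order.succ κ) := by
  by_contra hcon
  push Not at hcon
  apply hne
  have key : ∀ k : ℕ, ∀ x ∈ ulm p A κ, p ^ k • x = 0 → x ∈ ulm p A (Order.succ κ) := by
    intro k
    induction k with
    | zero =>
      intro x _ h0
      rw [pow_zero, one_smul] at h0
      rw [h0]
      exact zero_mem _
    | succ k ih =>
      intro x hx h0
      have h1 : p • x ∈ ulm p A (Order.succ κ) := by
        refine ih _ ((ulm p A κ).nsmul_mem hx _) ?_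
        rw [smul_smul, ← pow_succ, h0]
      rw [mem_ulm_succ]
      intro m
      obtain ⟨y, hy, hyx⟩ := mem_ulm_succ.1 h1 (m + 1)
      have h2 : x - p ^ m • y ∈ ulm p A (Order.succ κ) := by
        refine hcon _ (sub_mem hx ((ulm p A κ).nsmul_mem hy _)) ?_
        rw [smul_sub, smul_smul, ← pow_succ', hyx, sub_self]
      obtain ⟨z, hz, hzx⟩ := mem_ulm_succ.1 h2 m
      exact ⟨z + y, add_mem hz hy, by rw [smul_add, hzx, sub_add_cancel]⟩
  refine eq_bot_of_div hD fun x hx => ?_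
  obtain ⟨k, hk⟩ := hA x
  exact key k x hx hk

theorem mem_divPart_ulm {p : ℕ} {A : Type u} [AddCommGroup A] (κ : Ordinal.{u}) :
    ∀ d ∈ divPart p A, d ∈ ulm p A κ := by
  induction κ using WellFoundedLT.induction with
  | ind κ ih =>
    rintro d ⟨s, rfl, hs⟩
    rw [mem_ulm]
    intro μ hμ m
    refine ⟨s m, ih μ hμ _ ⟨fun i => s (m + i), rfl, fun i => hs (m + i)⟩, ?_⟩
    induction m with
    | zero => simp
    | succ n ihn => rw [pow_succ, mul_smul, hs, ihn]

theorem divPart_ulm {p : ℕ} {A : Type u} [AddCommGroup A] (κ : Ordinal.{u}) (h : ulm p A κ) :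
    h ∈ divPart p (ulm p A κ) ↔ (h : A) ∈ divPart p A := by
  constructor
  · rintro ⟨s, rfl, hs⟩
    exact ⟨fun i => s i, rfl, fun i => congrArg Subtype.val (hs i)⟩
  · rintro ⟨s, h0, hs⟩
    have hmem : ∀ i, s i ∈ ulm p A κ := fun i =>
      mem_divPart_ulm κ _ ⟨fun j => s (i + j), rfl, fun j => hs (i + j)⟩
    exact ⟨fun i => ⟨s i, hmem i⟩, Subtype.ext h0, fun i => Subtype.ext (hs i)⟩

theorem divPart_ulm_eq_bot {p : ℕ} {A : Type u} [AddCommGroup A] (hD : divPart p A = ⊥)
    (κ : Ordinal.{u}) : divPart p (ulm p A κ) = ⊥ := by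
  rw [Submodule.eq_bot_iff]
  intro h hh
  have h1 := (divPart_ulm κ h).1 hh
  rw [hD] at h1
  exact Subtype.ext ((Submodule.mem_bot _).1 h1)

/-- The Ulm length of a reduced group. -/
theorem exists_length {p : ℕ} {A : Type u} [AddCommGroup A] (hD : divPart p A = ⊥) :
    ∃ κ : Ordinal.{u}, ulm p A κ = ⊥ := by
  have h := not_injective_of_ordinal (fun κ : Ordinal.{u} => ulm p A κ)
  rw [Function.Injective] at h
  push Not at h
  obtain ⟨κ1, κ2, heq, hne⟩ := h
  have heq' : ulm p A κ1 = ulm p A κ2 := heq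
  rcases lt_or_gt_of_ne hne with hlt | hlt
  · refine ⟨κ1, eq_bot_of_div hD fun x hx => ?_⟩
    rw [heq'] at hx
    exact ulm_anti (Order.succ_le_of_lt hlt) hx
  · refine ⟨κ2, eq_bot_of_div hD fun x hx => ?_⟩
    rw [← heq'] at hx
    exact ulm_anti (Order.succ_le_of_lt hlt) hx

end Pool.Agent.Lib_MP_fa2e48_tp
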