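import Mathlib
import Pool.Agent.Lib_MP_fa2e48_ulm.Main
import Pool.Agent.Lib_MP_fa2e48_tp.Factor
import Pool.Agent.Lib_MP_fa2e48_tp.Restr
import Pool.Agent.Lib_MP_fa2e48_tp.Win
import Pool.Agent.Lib_MP_fa2e48_tp.Own

/-!
# Linear maps kill the sequences which vanish on `ulm p A κ`
-/

namespace Pool.Agent.Lib_MP_fa2e48_tp

open Finsupp Pool.Agent.Lib_MP_fa2e48_al

universe u

theorem Kills_unb {p : ℕ} {A : Type u} [AddCommGroup A] {μ κ : Ordinal.{u}} (hμ : μ < κ)
    (hne : ulm p A κ ≠ ⊥) : ∀ n : ℕ, ∃ x ∈ ulm p A μ, p ^ n • x ≠ 0 := by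
  intro n
  obtain ⟨y, hy0⟩ := AddSubgroup.ne_bot_iff_exists_ne_zero.1 hne
  obtain ⟨x, hx, hxy⟩ := mem_ulm.1 y.2 μ hμ n
  exact ⟨x, hx, fun h => hy0 (Subtype.ext (hxy.symm.trans h))⟩

theorem kills_lim {p : ℕ} [Fact p.Prime] {A : Type u} [AddCommGroup A] {κ : Ordinal.{u}}
    {I : Type u} (b : UlmBasis p A κ I) (hlim : Order.IsSuccLimit κ) (hD : divPart p A = ⊥)
    (hne : ulm p A κ ≠ ⊥) : Kills p A κ := by
  intro f X hX
  have hwin : ∀ μ < κ, ∀ n : ℕ, ∃ i, b.k i = μ ∧ n ≤ b.M i := fun μ hμ =>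
    b.window hD hμ (Kills_unb hμ hne)
  have hQ : TQ p κ (fun μ m => pu p A (Order.succ μ) m) :=
    { anti := fun h => pu_anti h
      lt := fun h _ m n => pu_le_pu (Order.succ_lt_succ h) m n
      mul := fun h => pu_smul h _
      div := fun h => pu_div h }
  obtain ⟨s, hs1, hs2⟩ := b.ext_all hQ (ulm p A κ).subtype
    (fun h μ hμ m => ulm_le_pu (hlim.succ_lt hμ) m h.2)
  let s' : AddMonoid.End A := s
  obtain ⟨r, V, hr, hV⟩ := factor b hwin (fun n => s' * X n)
    (fun n h hh => by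
      show s (X n h) = 0
      rw [hX n h hh, map_zero])
    (fun n μ hμ x hx => by
      show s (X n x) ∈ _
      have h1 : X n x ∈ ulm p A μ := map_ulm (X n : A →+ A) μ x hx
      rw [← pu_zero] at h1
      have h2 := hs2 μ hμ 0 _ h1
      rw [← pu_zero]
      exact h2)
  let r' : AddMonoid.End A := r
  let V' : ℕ → AddMonoid.End A := V
  have e1 : (fun n => s' * X n) = s' • X := rfl
  have e2 : (fun n => s' * X n) = r' • V' := by
    funext n
    exact AddMonoidHom.ext fun x => (hV n x).symm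
  have h1 : f (fun n => s' * X n) = s' • f X := by rw [e1, map_smul]
  have h2 : f (fun n => s' * X n) = r' • f V' := by rw [e2, map_smul]
  apply Subtype.ext
  have h3 : ((s' • f X : ulmS p A κ) : A) = (f X : A) := hs1 ⟨(f X : A), (f X).2⟩
  have h4 : ((r' • f V' : ulmS p A κ) : A) = 0 := hr _ (f V').2
  rw [← h3, ← h1, h2, h4]
  rfl

theorem kills_one {p : ℕ} [Fact p.Prime] {A : Type u} [AddCommGroup A]
    {I : Type u} (b : UlmBasis p A 1 I) (hD : divPart p A = ⊥) (hne : ulm p A 1 ≠ ⊥) :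
    Kills p A 1 := by
  intro f X hX
  obtain ⟨b', hb'⟩ := b.toRelBasis
  have hle : ulmS p A 1 ≤ infHeight p A := fun x hx => mem_ulm_one.1 hx
  have hunb : ∀ M : ℕ, ∃ i, M ≤ b'.n i := by
    intro M
    obtain ⟨i, -, hi⟩ := b.window hD (κ := 0) zero_lt_one (Kills_unb zero_lt_one hne) M
    exact ⟨i, by rw [hb' i]; exact hi⟩
  have h0 := Lib_MP_fa2e48_ulm.kills b' hunb ((Submodule.inclusion hle).comp f) X
    (fun k h hh => hX k h (mem_ulm_one.2 hh))
  have h1 : ((f X : ulmS p A 1) : A) = 0 := congrArg Subtype.val h0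
  exact Subtype.ext h1

theorem kills_all {p : ℕ} [Fact p.Prime] (κ : Ordinal.{u}) :
    ∀ {A : Type u} [AddCommGroup A] {I : Type u} (_ : UlmBasis p A κ I) (_ : divPart p A = ⊥)
      (_ : ulm p A κ ≠ ⊥), Kills p A κ := by
  induction κ using Ordinal.limitRecOn with
  | zero =>
    intro A _ I b hD hne f X hX
    have h0 : X = 0 := by
      funext n
      refine AddMonoidHom.ext fun x => ?_
      exact hX n x (by rw [ulm_zero]; trivial)
    rw [h0, map_zero]
  | add_one μ ih =>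
    intro A _ I b hD hne
    have hne' : ulm p A μ ≠ ⊥ := by
      intro h
      apply hne
      rw [eq_bot_iff, ← h]
      exact ulm_anti le_self_add
    obtain ⟨bl⟩ := b.left (μ := μ) le_self_add
    have hE : ExtEnd p A μ := extEnd_of_basis bl
    have hK : Kills p A μ := ih bl hD hne'
    obtain ⟨br⟩ := b.right
    have hne1 : ulm p (ulm p A μ) 1 ≠ ⊥ := by
      obtain ⟨y, hy0⟩ := AddSubgroup.ne_bot_iff_exists_ne_zero.1 hne
      have hy : (y : A) ∈ ulm p A μ := ulm_anti le_self_add y.2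
      intro h
      have h1 : (⟨(y : A), hy⟩ : ulm p A μ) ∈ ulm p (ulm p A μ) 1 := (mem_ulm_ulm μ 1 _).2 y.2
      rw [h, AddSubgroup.mem_bot] at h1
      have h2 : (y : A) = 0 := congrArg (fun z : ulm p A μ => (z : A)) h1
      exact hy0 (Subtype.ext h2)
    exact kills_add hE hK (kills_one br (divPart_ulm_eq_bot hD μ) hne1)
  | limit κ hκ ih =>
    intro A _ I b hD hne
    exact kills_lim b hκ hD hne

end Pool.Agent.Lib_MP_fa2e48_tp
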