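import Mathlib
import Pool.Agent.Lib_MP_fa2e48_al.Unbounded
import Pool.Agent.Lib_MP_fa2e48_tp.Ext
import Pool.Agent.Lib_MP_fa2e48_tp.Restr
import Pool.Agent.Lib_MP_fa2e48_tp.Win

/-!
# Linear maps, additively principal ordinals of countable cofinality
-/

namespace Pool.Agent.Lib_MP_fa2e48_tp

open Finsupp Pool.Agent.Lib_MP_fa2e48_al

universe u

private theorem LLim_socle {p : ℕ} {A : Type u} [AddCommGroup A]
    (hA : ∀ a : A, ∃ k : ℕ, p ^ k • a = 0) {μ : Ordinal.{u}} (hne : ulm p A μ ≠ ⊥) :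
    ∃ s ∈ ulm p A μ, s ≠ 0 ∧ p • s = 0 := by
  classical
  obtain ⟨t, ht, ht0⟩ : ∃ t ∈ ulm p A μ, t ≠ 0 := by
    by_contra hc
    push Not at hc
    exact hne ((AddSubgroup.eq_bot_iff_forall _).2 hc)
  obtain ⟨k, hk, hmin⟩ : ∃ k, p ^ k • t = 0 ∧ ∀ j < k, p ^ j • t ≠ 0 :=
    ⟨Nat.find (hA t), Nat.find_spec (hA t), fun j hj => Nat.find_min (hA t) hj⟩
  have hk0 : k ≠ 0 := by
    rintro rfl
    rw [pow_zero, one_smul] at hk
    exact ht0 hk
  refine ⟨p ^ (k - 1) • t, nsmul_mem ht _, hmin _ (by omega), ?_⟩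
  rw [← mul_smul, ← pow_succ', Nat.sub_add_cancel (by omega), hk]

/-- If all members of the sequence `Φ` map `A` into `ulm p A μ`, then `f Φ ∈ ulm p A μ`. -/
theorem star_ulm {p : ℕ} [Fact p.Prime] {A : Type u} [AddCommGroup A]
    (hA : ∀ a : A, ∃ k : ℕ, p ^ k • a = 0) {μ : Ordinal.{u}} {I : Type u} (b : UlmBasis p A μ I)
    (hne : ulm p A μ ≠ ⊥) (f : (ℕ → AddMonoid.End A) →ₗ[AddMonoid.End A] A)
    (Φ : ℕ → AddMonoid.End A) (hΦ : ∀ n x, Φ n x ∈ ulm p A μ) : f Φ ∈ ulm p A μ := by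
  by_contra hx
  obtain ⟨s, hs, hs0, hps⟩ := LLim_socle hA hne
  obtain ⟨F, hF0, ⟨c, hc⟩, -⟩ := b.sep (tq_pu p μ A) hx hps (fun κ hκ m => ulm_le_pu hκ m hs)
  let ε : AddMonoid.End A := F
  have h1 : ε • Φ = 0 := by
    funext k
    ext y
    exact hF0 _ (hΦ k y)
  have h2 : F (f Φ) = 0 := by
    have h3 : ε • f Φ = 0 := by rw [← map_smul, h1, map_zero]
    exact h3
  rw [h2, smul_zero] at hc
  exact hs0 hc.symm

section closure

variable {p : ℕ} {A : Type u} [AddCommGroup A] {κ : Ordinal.{u}} {I : Type u}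

private theorem LLim_cl1 (b : UlmBasis p A κ I) :
    ∀ (n : ℕ) (i : I), b.rk i < n → ∃ D : Finset I, i ∈ D ∧ b.Closed (D : Set I) := by
  classical
  intro n
  induction n with
  | zero => intro i hi; exact absurd hi (Nat.not_lt_zero _)
  | succ n ih =>
    intro i hi
    have h1 : ∀ j ∈ (b.β i).support, ∃ D : Finset I, j ∈ D ∧ b.Closed (D : Set I) := by
      intro j hj
      exact ih j (by have := (b.dep i j hj).1; omega)
    choose! D hD using h1
    refine ⟨insert i ((b.β i).support.biUnion D), Finset.mem_insert_self _ _, ?_⟩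
    intro i' hi' j hj
    rw [Finset.mem_coe, Finset.mem_insert] at hi' ⊢
    right
    rcases hi' with rfl | hi'
    · exact Finset.mem_biUnion.2 ⟨j, hj, (hD j hj).1⟩
    · obtain ⟨l, hl, hil⟩ := Finset.mem_biUnion.1 hi'
      exact Finset.mem_biUnion.2 ⟨l, hl, (hD l hl).2 i' hil j hj⟩

private theorem LLim_cl (b : UlmBasis p A κ I) (F : Finset I) :
    ∃ D : Finset I, F ⊆ D ∧ b.Closed (D : Set I) := by
  classical
  have h1 : ∀ j : I, ∃ D : Finset I, j ∈ D ∧ b.Closed (D : Set I) :=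
    fun j => LLim_cl1 b (b.rk j + 1) j (Nat.lt_succ_self _)
  choose D hD using h1
  refine ⟨F.biUnion D, fun j hj => Finset.mem_biUnion.2 ⟨j, hj, (hD j).1⟩, ?_⟩
  intro i hi j hj
  rw [Finset.mem_coe] at hi ⊢
  obtain ⟨l, hl, hil⟩ := Finset.mem_biUnion.1 hi
  exact Finset.mem_biUnion.2 ⟨l, hl, (hD l).2 i hil j hj⟩

/-- an upper bound below a limit for finitely many ordinals -/
private theorem LLim_bound (b : UlmBasis p A κ I) (hlim : Order.IsSuccLimit κ) (D : Finset I)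
    {σ τ : Ordinal.{u}} (hσ : σ < κ) (hτ : τ < κ) :
    ∃ ρ < κ, σ < ρ ∧ τ < ρ ∧ ∀ j ∈ D, b.k j < ρ := by
  classical
  induction D using Finset.induction_on with
  | empty =>
    refine ⟨Order.succ (max σ τ), hlim.succ_lt (max_lt hσ hτ), ?_, ?_, ?_⟩
    · exact Order.lt_succ_iff.2 (le_max_left _ _)
    · exact Order.lt_succ_iff.2 (le_max_right _ _)
    · intro j hj
      exact absurd hj (Finset.notMem_empty j)
  | insert a D ha ih =>
    obtain ⟨ρ, hρ, h1, h2, h3⟩ := ih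
    refine ⟨max ρ (Order.succ (b.k a)), max_lt hρ (hlim.succ_lt (b.k_lt a)),
      h1.trans_le (le_max_left _ _), h2.trans_le (le_max_left _ _), ?_⟩
    intro j hj
    rcases Finset.mem_insert.1 hj with rfl | hj
    · exact (Order.lt_succ _).trans_le (le_max_right _ _)
    · exact (h3 j hj).trans_le (le_max_left _ _)

end closure

theorem L_lim {p : ℕ} [Fact p.Prime] {A : Type u} [AddCommGroup A]
    (hA : ∀ a : A, ∃ k : ℕ, p ^ k • a = 0) (hD : divPart p A = ⊥) {κ : Ordinal.{u}} {I : Type u}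
    (b : UlmBasis p A κ I) (hlim : Order.IsSuccLimit κ)
    (hprin : ∀ μ < κ, ∀ ν < κ, μ + ν < κ)
    (hcof : ∃ c : ℕ → Ordinal.{u}, (∀ n, c n < κ) ∧ ∀ μ < κ, ∃ n, μ ≤ c n)
    (hne : ∀ μ < κ, ulm p A μ ≠ ⊥) (f : (ℕ → AddMonoid.End A) →ₗ[AddMonoid.End A] A) :
    {n : ℕ | f (Pi.single n 1) ∉ ulm p A κ}.Finite := by
  classical
  by_contra hf
  obtain ⟨g, hg⟩ := exists_reindex (ulmS p A κ) f hf
  obtain ⟨c, hcκ, hc⟩ := hcof
  -- `z n = g (e n)` lies outside `ulm p A (μ n)`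
  have h1 : ∀ n, ∃ μ < κ, g (Pi.single n 1) ∉ ulm p A μ := by
    intro n
    by_contra hn
    push Not at hn
    exact hg n ((mem_ulm_limit hlim).2 hn)
  choose μ hμκ hμ using h1
  have hμ0 : ∀ n, 0 < μ n := by
    intro n
    rcases eq_or_ne (μ n) 0 with h0 | h0
    · exfalso
      apply hμ n
      rw [h0, ulm_zero]
      trivial
    · exact pos_iff_ne_zero.2 h0
  -- one step of the recursion
  have hstep : ∀ (n : ℕ) (σ : Set.Iio κ), ∃ (y : A) (γ : I →₀ ℤ) (D : Finset I) (τ : Set.Iio κ),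
      y ∈ ulm p A (σ.1 + μ n) ∧ p • y = 0 ∧ y ∉ ulm p A (Order.succ (σ.1 + μ n)) ∧
      y - linearCombination ℤ b.a γ ∈ ulm p A κ ∧ γ.support ⊆ D ∧ b.Closed (D : Set I) ∧
      σ.1 + μ n < τ.1 ∧ c n < τ.1 ∧ ∀ j ∈ D, b.k j < τ.1 := by
    intro n σ
    have hlt : σ.1 + μ n < κ := hprin _ σ.2 _ (hμκ n)
    obtain ⟨y, hy1, hy2, hy3⟩ := exists_socle hA hD (hne _ hlt)
    obtain ⟨γ, -, hγ⟩ := b.span 0 zero_le y (by rw [ulm_zero]; trivial)
    obtain ⟨D, hD1, hD2⟩ := LLim_cl b γ.support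
    obtain ⟨τ, hτ, h3, h4, h5⟩ := LLim_bound b hlim D hlt (hcκ n)
    exact ⟨y, γ, D, ⟨τ, hτ⟩, hy1, hy2, hy3, hγ, hD1, hD2, h3, h4, h5⟩
  choose y γ D τ hy1 hy2 hy3 hγ hD1 hD2 hτ1 hτ2 hτ3 using hstep
  have hκ0 : 0 < κ := (hμ0 0).trans (hμκ 0)
  obtain ⟨s, hs0, hs⟩ : ∃ s : ℕ → Set.Iio κ, s 0 = ⟨0, hκ0⟩ ∧ ∀ n, s (n + 1) = τ n (s n) :=
    ⟨fun n => Nat.rec ⟨0, hκ0⟩ (fun n σ => τ n σ) n, rfl, fun n => rfl⟩
  have hslt : ∀ n, (s n).1 + μ n < (s (n + 1)).1 := fun n => by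
    rw [hs]
    exact hτ1 n (s n)
  have hsc : ∀ n, c n < (s (n + 1)).1 := fun n => by
    rw [hs]
    exact hτ2 n (s n)
  have hsk : ∀ n, ∀ j ∈ D n (s n), b.k j < (s (n + 1)).1 := fun n => by
    rw [hs]
    exact hτ3 n (s n)
  have hsmono : Monotone (fun n => (s n).1) := by
    refine monotone_nat_of_le_succ fun n => ?_
    exact le_self_add.trans (hslt n).le
  -- the endomorphisms
  have hφ : ∀ n, ∃ φ : AddMonoid.End A, φ (g (Pi.single n 1)) = y n (s n) ∧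
      ∀ x, φ x ∈ ulm p A (s n).1 := by
    intro n
    obtain ⟨bl⟩ := b.left (hμκ n).le
    obtain ⟨F, -, ⟨e, he⟩, hF⟩ := bl.sep (tq_add p (μ n) A (s n).1) (hμ n) (hy2 n (s n))
      (fun κ' hκ' m => ulm_le_pu (by gcongr) m (hy1 n (s n)))
    let ε : A →+ A := e • F
    refine ⟨ε, he, fun x => ?_⟩
    have h2 : F x ∈ pu p A ((s n).1 + 0) 0 := hF 0 (hμ0 n) 0 x (by
      rw [pu_zero, ulm_zero]
      trivial)
    rw [add_zero, pu_zero] at h2
    exact zsmul_mem h2 e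
  choose φ hφ1 hφ2 using hφ
  -- partial sums
  have hY : ∀ n, g φ - ∑ m ∈ Finset.range n, y m (s m) ∈ ulm p A (s n).1 := by
    intro n
    have h2 : ∑ m ∈ Finset.range n, φ m • g (Pi.single m 1) =
        ∑ m ∈ Finset.range n, y m (s m) := Finset.sum_congr rfl fun m _ => hφ1 m
    rw [split_head g φ n, h2, add_sub_cancel_left]
    obtain ⟨bl⟩ := b.left (s n).2.le
    refine star_ulm hA bl (hne _ (s n).2) g _ ?_
    intro k x
    by_cases hk : k < n
    · simp only [hk, if_true]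
      exact zero_mem _
    · simp only [hk, if_false]
      exact ulm_anti (hsmono (not_lt.1 hk)) (hφ2 k x)
  -- the limit
  obtain ⟨γ', -, hγ'⟩ := b.span 0 zero_le (g φ) (by rw [ulm_zero]; trivial)
  obtain ⟨D', hD'1, hD'2⟩ := LLim_cl b γ'.support
  obtain ⟨n, hn⟩ : ∃ n, ∀ j ∈ D', b.k j < (s n).1 := by
    have h2 : ∀ j : I, ∃ n, b.k j < (s (n + 1)).1 := by
      intro j
      obtain ⟨n, hn⟩ := hc _ (b.k_lt j)
      exact ⟨n, hn.trans_lt (hsc n)⟩
    choose N hN using h2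
    refine ⟨D'.sup N + 1, fun j hj => (hN j).trans_le (hsmono ?_)⟩
    have : N j ≤ D'.sup N := Finset.le_sup hj
    omega
  set D0 : Finset I := D' ∪ (Finset.range n).biUnion (fun m => D m (s m)) with hD0
  have hD0c : b.Closed (D0 : Set I) := by
    intro i hi j hj
    rw [Finset.mem_coe, hD0, Finset.mem_union] at hi ⊢
    rcases hi with hi | hi
    · exact Or.inl (hD'2 i hi j hj)
    · obtain ⟨m, hm, him⟩ := Finset.mem_biUnion.1 hi
      exact Or.inr (Finset.mem_biUnion.2 ⟨m, hm, hD2 m (s m) i him j hj⟩)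
  have hD0k : ∀ j ∈ D0, b.k j < (s n).1 := by
    intro j hj
    rw [hD0, Finset.mem_union] at hj
    rcases hj with hj | hj
    · exact hn j hj
    · obtain ⟨m, hm, hjm⟩ := Finset.mem_biUnion.1 hj
      exact (hsk m j hjm).trans_le (hsmono (Finset.mem_range.1 hm))
  set δ0 : I →₀ ℤ := γ' - ∑ m ∈ Finset.range n, γ m (s m) with hδ0
  have hδ0s : ∀ j ∈ δ0.support, j ∈ (D0 : Set I) := by
    intro j hj
    by_contra hj0
    rw [Finset.mem_coe, hD0, Finset.mem_union, not_or] at hj0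
    rw [Finsupp.mem_support_iff] at hj
    apply hj
    rw [hδ0, Finsupp.sub_apply, Finsupp.finsetSum_apply]
    have h2 : γ' j = 0 := by
      by_contra h3
      exact hj0.1 (hD'1 (Finsupp.mem_support_iff.2 h3))
    rw [h2, zero_sub, neg_eq_zero]
    refine Finset.sum_eq_zero fun m hm => ?_
    by_contra h3
    exact hj0.2 (Finset.mem_biUnion.2 ⟨m, hm, hD1 m (s m) (Finsupp.mem_support_iff.2 h3)⟩)
  have hlc0 : g φ - ∑ m ∈ Finset.range n, y m (s m) - linearCombination ℤ b.a δ0 ∈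
      ulm p A κ := by
    rw [hδ0, map_sub, map_sum]
    have h2 : ∑ m ∈ Finset.range n, (y m (s m) - linearCombination ℤ b.a (γ m (s m))) ∈
        ulm p A κ := sum_mem fun m _ => hγ m (s m)
    rw [Finset.sum_sub_distrib] at h2
    have h3 := sub_mem hγ' h2
    convert h3 using 1
    abel
  obtain ⟨δ, hδ1, hδ2, hδ3⟩ := b.exists_reduced hD0c δ0 hδ0s
  have hlc : g φ - ∑ m ∈ Finset.range n, y m (s m) - linearCombination ℤ b.a δ ∈ ulm p A κ := by
    have h2 := b.lc_rel_mem hδ3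
    rw [map_sub] at h2
    have h3 := add_mem hlc0 h2
    convert h3 using 1
    abel
  have hδ0' : δ = 0 := by
    have h2 : linearCombination ℤ b.a δ ∈ ulm p A (s n).1 := by
      have h3 := sub_mem (hY n) (ulm_anti (s n).2.le hlc)
      rwa [sub_sub_cancel] at h3
    have h4 := b.le_k_of_reduced hδ2 (s n).2.le h2
    rw [← Finsupp.support_eq_empty, Finset.eq_empty_iff_forall_notMem]
    intro j hj
    exact absurd (h4 j hj) (not_le.2 (hD0k j (hδ1 j hj)))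
  rw [hδ0', map_zero, sub_zero] at hlc
  apply hy3 n (s n)
  have h5 : Order.succ ((s n).1 + μ n) ≤ (s (n + 1)).1 := Order.succ_le_of_lt (hslt n)
  have h6 := ulm_anti h5 (hY (n + 1))
  have h7 := ulm_anti (h5.trans (s (n + 1)).2.le) hlc
  have h8 := sub_mem h7 h6
  rw [Finset.sum_range_succ] at h8
  convert h8 using 1
  abel

end Pool.Agent.Lib_MP_fa2e48_tp
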