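import Mathlib
import Pool.Agent.Lib_MP_fa2e48_al.Unbounded
import Pool.Agent.Lib_MP_fa2e48_ulm.Basis

/-!
# Linear maps for unbounded direct sums of cyclic groups modulo `p ^ ω A`
-/

namespace Pool.Agent.Lib_MP_fa2e48_tp

open Finsupp Pool.Agent.Lib_MP_fa2e48_al

universe u

section Aux

variable {p : ℕ} {A : Type u} [AddCommGroup A] {H : AddSubgroup A} {ι : Type u}

/-- `y` is in the span of `H` and the basis elements of exponent at most `N` -/
private def LBd (b : Lib_MP_fa2e48_ulm.RelBasis p H ι) (N : ℕ) (y : A) : Prop :=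
  ∃ h ∈ H, ∃ γ : ι →₀ ℤ, y = h + linearCombination ℤ b.a γ ∧ ∀ j ∈ γ.support, b.n j ≤ N

private theorem LBd.mono {b : Lib_MP_fa2e48_ulm.RelBasis p H ι} {M N : ℕ} (hMN : M ≤ N) {y : A}
    (hy : LBd b M y) : LBd b N y := by
  obtain ⟨h, hh, γ, e, hγ⟩ := hy
  exact ⟨h, hh, γ, e, fun j hj => (hγ j hj).trans hMN⟩

private theorem LBd.sub {b : Lib_MP_fa2e48_ulm.RelBasis p H ι} {N : ℕ} {y z : A}
    (hy : LBd b N y) (hz : LBd b N z) : LBd b N (y - z) := by
  classical
  obtain ⟨h, hh, γ, rfl, hγ⟩ := hy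
  obtain ⟨h', hh', γ', rfl, hγ'⟩ := hz
  refine ⟨h - h', H.sub_mem hh hh', γ - γ', ?_, fun j hj => ?_⟩
  · rw [map_sub]
    abel
  · have h1 := Finsupp.support_sub hj
    rw [Finset.mem_union] at h1
    rcases h1 with h1 | h1
    · exact hγ j h1
    · exact hγ' j h1

private theorem LBd.exists (b : Lib_MP_fa2e48_ulm.RelBasis p H ι) (y : A) : ∃ N, LBd b N y := by
  obtain ⟨h, hh, γ, e⟩ := b.span y
  exact ⟨γ.support.sup b.n, h, hh, γ, e, fun j hj => Finset.le_sup (f := b.n) hj⟩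

private theorem LBd.mem {b : Lib_MP_fa2e48_ulm.RelBasis p H ι} {N : ℕ} {y : A}
    (hy : LBd b N y) (hd : PDiv p N y) : y ∈ H := by
  obtain ⟨h, hh, δ, e, hδ⟩ := hy
  obtain ⟨w, hw⟩ := hd
  obtain ⟨h', hh', ε, rfl⟩ := b.span w
  have h1 : linearCombination ℤ b.a (δ - ((p ^ N : ℕ) : ℤ) • ε) = p ^ N • h' - h := by
    rw [map_sub, map_smul, natCast_zsmul]
    rw [e, smul_add] at hw
    have h2 : linearCombination ℤ b.a δ = p ^ N • h' + p ^ N • linearCombination ℤ b.a ε - h := by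
      rw [hw]
      abel
    rw [h2]
    abel
  have h2 := b.indep _ (by
    rw [h1]
    exact H.sub_mem (H.nsmul_mem hh' _) hh)
  have h3 : ∀ i, ((p ^ b.n i : ℕ) : ℤ) ∣ δ i := by
    intro i
    by_cases hi : i ∈ δ.support
    · have h4 := h2 i
      rw [Finsupp.sub_apply, Finsupp.smul_apply, smul_eq_mul] at h4
      have h5 : ((p ^ b.n i : ℕ) : ℤ) ∣ ((p ^ N : ℕ) : ℤ) * ε i := by
        refine Dvd.dvd.mul_right ?_ _
        exact_mod_cast pow_dvd_pow p (hδ i hi)
      have h6 := dvd_add h4 h5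
      rwa [sub_add_cancel] at h6
    · rw [Finsupp.notMem_support_iff.1 hi]
      exact dvd_zero _
  rw [e]
  refine H.add_mem hh ?_
  rw [linearCombination_apply, Finsupp.sum]
  refine H.sum_mem fun i _ => ?_
  obtain ⟨c, hc⟩ := h3 i
  rw [hc, mul_comm, mul_smul, natCast_zsmul]
  exact H.zsmul_mem (b.mem i) c

private theorem LBd_not_div (hp : p.Prime) (b : Lib_MP_fa2e48_ulm.RelBasis p H ι) (i : ι) (m : ℕ)
    (hm : m < b.n i) : ¬ PDiv p (b.n i) (p ^ m • b.a i) := by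
  classical
  rintro ⟨w, hw⟩
  obtain ⟨h, hh, ε, rfl⟩ := b.span w
  have h1 : linearCombination ℤ b.a (single i ((p ^ m : ℕ) : ℤ) - ((p ^ b.n i : ℕ) : ℤ) • ε)
      = p ^ b.n i • h := by
    rw [map_sub, map_smul, natCast_zsmul, linearCombination_single, natCast_zsmul, ← hw, smul_add]
    abel
  have h2 := b.indep _ (by
    rw [h1]
    exact H.nsmul_mem hh _) i
  rw [Finsupp.sub_apply, Finsupp.smul_apply, smul_eq_mul, Finsupp.single_eq_same] at h2
  have h3 := dvd_add h2 (Dvd.intro (ε i) rfl : ((p ^ b.n i : ℕ) : ℤ) ∣ ((p ^ b.n i : ℕ) : ℤ) * ε i)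
  rw [sub_add_cancel] at h3
  have h4 : p ^ b.n i ∣ p ^ m := by exact_mod_cast h3
  have h5 := (Nat.pow_dvd_pow_iff_le_right hp.one_lt).1 h4
  omega

/-- one step of the recursion -/
private theorem LBd_step (hp : p.Prime)
    (b : Lib_MP_fa2e48_ulm.RelBasis p (infHeight p A).toAddSubgroup ι)
    (hunb : ∀ N : ℕ, ∃ i, N ≤ b.n i) (h N : ℕ) :
    ∃ (x : A) (N' : ℕ), N < N' ∧ PDiv p N x ∧ p ^ (h + 1) • x = 0 ∧ LBd b N' (p ^ h • x) ∧
      ¬ PDiv p N' (p ^ h • x) := by
  obtain ⟨r, hr⟩ := hunb (h + N + 1)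
  have hmem : p ^ b.n r • b.a r ∈ infHeight p A := b.mem r
  obtain ⟨g, hg⟩ := hmem (b.n r + 1)
  obtain ⟨m, hm⟩ : ∃ m, b.n r = h + N + m + 1 := ⟨b.n r - (h + N + 1), by omega⟩
  obtain ⟨x, hx⟩ : ∃ x : A, x = p ^ (N + m) • (b.a r - p • g) := ⟨_, rfl⟩
  have hy : p ^ h • x = p ^ (b.n r - 1) • b.a r - p ^ b.n r • g := by
    rw [hx, smul_smul, ← pow_add, smul_sub, smul_smul, ← pow_succ]
    have e1 : h + (N + m) = b.n r - 1 := by omega
    have e2 : h + (N + m) + 1 = b.n r := by omega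
    rw [e2, e1]
  obtain ⟨M, hM⟩ := LBd.exists b (p ^ h • x)
  refine ⟨x, max (max M (b.n r)) (N + 1), ?_, ?_, ?_, ?_, ?_⟩
  · exact lt_of_lt_of_le (Nat.lt_succ_self N) (le_max_right _ _)
  · refine ⟨p ^ m • (b.a r - p • g), ?_⟩
    rw [hx, smul_smul, ← pow_add]
  · rw [pow_succ', mul_smul, hy, smul_sub, smul_smul, smul_smul, ← pow_succ', ← pow_succ', hg]
    have e1 : b.n r - 1 + 1 = b.n r := by omega
    rw [e1, sub_self]
  · exact hM.mono ((le_max_left _ _).trans (le_max_left _ _))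
  · intro hd
    have h1 : PDiv p (b.n r) (p ^ h • x) :=
      hd.mono ((le_max_right _ _).trans (le_max_left _ _))
    have h2 : PDiv p (b.n r) (p ^ b.n r • g) := ⟨g, rfl⟩
    have h3 := h1.add h2
    rw [hy, sub_add_cancel] at h3
    exact LBd_not_div hp b r _ (by omega) h3

end Aux

theorem L_one {p : ℕ} [Fact p.Prime] {A : Type u} [AddCommGroup A]
    (hA : ∀ a : A, ∃ k : ℕ, p ^ k • a = 0) {ι : Type u}
    (b : Lib_MP_fa2e48_ulm.RelBasis p (infHeight p A).toAddSubgroup ι)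
    (hunb : ∀ N : ℕ, ∃ i, N ≤ b.n i) (f : (ℕ → AddMonoid.End A) →ₗ[AddMonoid.End A] A) :
    {n : ℕ | f (Pi.single n 1) ∉ infHeight p A}.Finite := by
  have hp : p.Prime := Fact.out
  by_contra hinf
  obtain ⟨f, hf⟩ := exists_reindex (infHeight p A) f hinf
  have hU : ∀ k : ℕ, ∃ a : A, p ^ k • a ≠ 0 := by
    intro k
    obtain ⟨i, hi⟩ := hunb (k + 1)
    refine ⟨b.a i, fun h0 => ?_⟩
    refine LBd_not_div hp b i k (by omega) ?_
    rw [h0]
    exact PDiv.zero _
  obtain ⟨h, θ, hθ⟩ := exists_detect (fun n => f (Pi.single n 1)) hf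
  choose X N' hN hXd hXp hXb hXn using fun n N => LBd_step hp b hunb (h n) N
  let S : ℕ → ℕ := fun n => Nat.rec 0 (fun n N => N' n N) n
  have hS : ∀ n, S (n + 1) = N' n (S n) := fun n => rfl
  have hSlt : ∀ n, S n < S (n + 1) := fun n => by
    rw [hS]
    exact hN n (S n)
  have hSmono : StrictMono S := strictMono_nat_of_lt_succ hSlt
  let x : ℕ → A := fun n => X n (S n)
  let y : ℕ → A := fun n => p ^ h n • x n
  have hx1 : ∀ n, p ^ (h n + 1) • x n = 0 := fun n => hXp n (S n)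
  have hxd : ∀ n, PDiv p (S n) (x n) := fun n => hXd n (S n)
  have hyb : ∀ n, LBd b (S (n + 1)) (y n) := fun n => hXb n (S n)
  have hyn : ∀ n, ¬ PDiv p (S (n + 1)) (y n) := fun n => hXn n (S n)
  let φ : ℕ → AddMonoid.End A := fun n => (fromZMod (h n + 1) (x n) (hx1 n)).comp (θ n)
  have hφ : ∀ n, φ n • f (Pi.single n 1) = y n := by
    intro n
    show fromZMod (h n + 1) (x n) (hx1 n) (θ n (f (Pi.single n 1))) = _
    rw [hθ n, fromZMod_pow]
  have htail : ∀ n, PDiv p (S n) (f φ - ∑ m ∈ Finset.range n, y m) := by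
    intro n
    rw [split_head f φ n]
    have h1 : ∑ m ∈ Finset.range n, φ m • f (Pi.single m 1) = ∑ m ∈ Finset.range n, y m :=
      Finset.sum_congr rfl fun m _ => hφ m
    rw [h1, add_sub_cancel_left]
    apply star hA hU
    intro k z
    by_cases hk : k < n
    · simp only [hk, if_true]
      exact PDiv.zero _
    · simp only [hk, if_false]
      apply PDiv.mono (n := S k) (hSmono.monotone (by omega))
      exact fromZMod_pdiv _ _ (hx1 k) _ (hxd k) _
  obtain ⟨M, hM⟩ := LBd.exists b (f φ)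
  have hMS : M ≤ S M := hSmono.le_apply
  have hYb : ∀ n, LBd b (S (M + n)) (f φ - ∑ m ∈ Finset.range (M + n), y m) := by
    have key : ∀ n, ∀ k, k ≤ n → LBd b (max M (S n)) (f φ - ∑ m ∈ Finset.range k, y m) := by
      intro n k
      induction k with
      | zero =>
        intro _
        rw [Finset.sum_range_zero, sub_zero]
        exact hM.mono (le_max_left _ _)
      | succ k ih =>
        intro hk
        rw [Finset.sum_range_succ, ← sub_sub]
        refine (ih (by omega)).sub ((hyb k).mono ?_)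
        exact (hSmono.monotone hk).trans (le_max_right _ _)
    intro n
    have h1 := key (M + n) (M + n) le_rfl
    refine h1.mono (max_le ?_ le_rfl)
    exact hMS.trans (hSmono.monotone (by omega))
  have hYM := (hYb 0).mem (htail (M + 0))
  rw [Nat.add_zero] at hYM
  have hYM' : f φ - ∑ m ∈ Finset.range M, y m ∈ infHeight p A := hYM
  have h1 : PDiv p (S (M + 1)) (f φ - ∑ m ∈ Finset.range M, y m) := hYM' (S (M + 1))
  have h2 := htail (M + 1)
  have h3 := h1.sub h2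
  rw [Finset.sum_range_succ] at h3
  have e : f φ - ∑ m ∈ Finset.range M, y m - (f φ - (∑ m ∈ Finset.range M, y m + y M)) = y M := by
    abel
  rw [e] at h3
  exact hyn M h3

end Pool.Agent.Lib_MP_fa2e48_tp
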