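import Mathlib
import Pool.Agent.Lib_MP_fa2e48_tp.Kills
import Pool.Agent.Lib_MP_fa2e48_tp.LOne
import Pool.Agent.Lib_MP_fa2e48_tp.LLim

/-!
# Linear maps, all ordinals
-/

namespace Pool.Agent.Lib_MP_fa2e48_tp

open Finsupp Pool.Agent.Lib_MP_fa2e48_al

universe u

theorem L_add {p : ℕ} {A : Type u} [AddCommGroup A] {μ ν : Ordinal.{u}} (hE : ExtEnd p A μ)
    (hK : Kills p A μ)
    (hL : ∀ f : (ℕ → AddMonoid.End A) →ₗ[AddMonoid.End A] A,
      {n : ℕ | f (Pi.single n 1) ∉ ulm p A μ}.Finite)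
    (hL' : ∀ f : (ℕ → AddMonoid.End (ulm p A μ)) →ₗ[AddMonoid.End (ulm p A μ)] ulm p A μ,
      {n : ℕ | f (Pi.single n 1) ∉ ulm p (ulm p A μ) ν}.Finite)
    (f : (ℕ → AddMonoid.End A) →ₗ[AddMonoid.End A] A) :
    {n : ℕ | f (Pi.single n 1) ∉ ulm p A (μ + ν)}.Finite := by
  obtain ⟨K, hKm⟩ := tail_mem (ulmS p A μ) hL f
  let f1 : (ℕ → AddMonoid.End A) →ₗ[AddMonoid.End A] ulmS p A μ :=
    LinearMap.codRestrict (ulmS p A μ) (f ∘ₗ shiftMap (AddMonoid.End A) K) (by
      intro x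
      apply hKm
      intro n hn
      have hn' : ¬ K ≤ n := by omega
      simp [shiftMap, hn'])
  obtain ⟨g, hg⟩ := exists_own (ulmS p A μ) hE hK f1
  have hg1 : ∀ n, ((g (Pi.single n 1) : ulmS p A μ) : A) = f (Pi.single (n + K) 1) := by
    intro n
    have h1 := hg (Pi.single n 1)
    have h2 : (fun m => Module.toAddMonoidEnd (AddMonoid.End A) (ulmS p A μ)
        ((Pi.single n 1 : ℕ → AddMonoid.End A) m)) = Pi.single n 1 := by
      funext m
      by_cases hm : m = n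
      · subst hm
        rw [Pi.single_eq_same, Pi.single_eq_same, map_one]
      · rw [Pi.single_eq_of_ne hm, Pi.single_eq_of_ne hm, map_zero]
    rw [h2] at h1
    rw [h1]
    change f (shiftMap (AddMonoid.End A) K (Pi.single n 1)) = _
    rw [shiftMap_single]
  have h6 : {n : ℕ | f (Pi.single (n + K) 1) ∉ ulm p A (μ + ν)}.Finite := by
    refine (hL' g).subset fun n hn hc => hn ?_
    have h5 := (mem_ulm_ulm μ ν (g (Pi.single n 1))).1 hc
    rw [← hg1 n]
    exact h5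
  have h7 : {n : ℕ | f (Pi.single n 1) ∉ ulm p A (μ + ν)} ⊆
      (Set.Iio K) ∪ (fun n => n + K) '' {n : ℕ | f (Pi.single (n + K) 1) ∉ ulm p A (μ + ν)} := by
    intro n hn
    by_cases hnK : n < K
    · exact Or.inl hnK
    · refine Or.inr ⟨n - K, ?_, by simp; omega⟩
      simp only [Set.mem_ofPred_eq]
      rwa [Nat.sub_add_cancel (by omega)]
  exact ((Set.finite_Iio K).union (h6.image _)).subset h7

theorem L_unc {p : ℕ} {A : Type u} [AddCommGroup A] {κ : Ordinal.{u}} (hlim : Order.IsSuccLimit κ)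
    (hcof : ¬ ∃ c : ℕ → Ordinal.{u}, (∀ n, c n < κ) ∧ ∀ μ < κ, ∃ n, μ ≤ c n)
    (hL : ∀ μ < κ, ∀ f : (ℕ → AddMonoid.End A) →ₗ[AddMonoid.End A] A,
      {n : ℕ | f (Pi.single n 1) ∉ ulm p A μ}.Finite)
    (f : (ℕ → AddMonoid.End A) →ₗ[AddMonoid.End A] A) :
    {n : ℕ | f (Pi.single n 1) ∉ ulm p A κ}.Finite := by
  classical
  have hκ0 : 0 < κ := by
    rw [pos_iff_ne_zero]
    intro h0
    exact hlim.1 (by simp [h0])
  have h1 : ∀ n, ∃ μ < κ, f (Pi.single n 1) ∉ ulm p A κ → f (Pi.single n 1) ∉ ulm p A μ := by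
    intro n
    by_cases h : f (Pi.single n 1) ∈ ulm p A κ
    · exact ⟨0, hκ0, fun h' => absurd h h'⟩
    · rw [mem_ulm_limit hlim] at h
      push Not at h
      obtain ⟨μ, hμ, h2⟩ := h
      exact ⟨μ, hμ, fun _ => h2⟩
  choose c hc1 hc2 using h1
  push Not at hcof
  obtain ⟨μ, hμ, h3⟩ := hcof c hc1
  refine (hL μ hμ f).subset fun n hn hn' => ?_
  exact hc2 n hn (ulm_anti (h3 n).le hn')

theorem L_all {p : ℕ} [Fact p.Prime] (κ : Ordinal.{u}) :
    ∀ {A : Type u} [AddCommGroup A] (_ : ∀ a : A, ∃ k : ℕ, p ^ k • a = 0)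
      (_ : divPart p A = ⊥) {I : Type u} (_ : UlmBasis p A κ I)
      (_ : ∀ μ < κ, ∀ n : ℕ, ∃ x ∈ ulm p A μ, p ^ n • x ≠ 0)
      (f : (ℕ → AddMonoid.End A) →ₗ[AddMonoid.End A] A),
      {n : ℕ | f (Pi.single n 1) ∉ ulm p A κ}.Finite := by
  induction κ using WellFoundedLT.induction with
  | ind κ ih =>
    intro A _ hA hD I b hw f
    have hne : ∀ μ < κ, ulm p A μ ≠ ⊥ := by
      intro μ hμ h0
      obtain ⟨x, hx, hx0⟩ := hw μ hμ 0
      rw [h0, AddSubgroup.mem_bot] at hx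
      rw [hx, smul_zero] at hx0
      exact hx0 rfl
    have hleft : ∀ μ < κ, ∀ f : (ℕ → AddMonoid.End A) →ₗ[AddMonoid.End A] A,
        {n : ℕ | f (Pi.single n 1) ∉ ulm p A μ}.Finite := by
      intro μ hμ f
      obtain ⟨bl⟩ := b.left hμ.le
      exact ih μ hμ hA hD bl (fun σ hσ => hw σ (hσ.trans hμ)) f
    by_cases hsum : ∃ μ < κ, ∃ ν < κ, μ + ν = κ
    · obtain ⟨μ, hμ, ν, hν, rfl⟩ := hsum
      obtain ⟨bl⟩ := b.left hμ.le
      obtain ⟨br⟩ := b.right
      refine L_add (extEnd_of_basis bl) (kills_all μ bl hD (hne μ hμ)) (hleft μ hμ) ?_ f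
      refine ih ν hν (A := ulm p A μ) ?_ (divPart_ulm_eq_bot hD μ) br ?_
      · intro a
        obtain ⟨k, hk⟩ := hA a
        exact ⟨k, Subtype.ext hk⟩
      · intro σ hσ n
        obtain ⟨x, hx, hx0⟩ := hw (μ + σ) (by gcongr) n
        refine ⟨⟨x, ulm_anti le_self_add hx⟩, (mem_ulm_ulm μ σ _).2 hx, fun h => hx0 ?_⟩
        exact congrArg Subtype.val h
    · by_cases h0 : κ = 0
      · subst h0
        have h2 : {n : ℕ | f (Pi.single n 1) ∉ ulm p A 0} = ∅ := by
          ext n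
          simp [ulm_zero]
        rw [h2]
        exact Set.finite_empty
      · by_cases h1 : κ = 1
        · subst h1
          obtain ⟨b', hb'⟩ := b.toRelBasis
          have hunb : ∀ N : ℕ, ∃ i, N ≤ b'.n i := by
            intro N
            obtain ⟨i, -, hi⟩ := b.window hD (κ := 0) zero_lt_one (hw 0 zero_lt_one) N
            exact ⟨i, by rw [hb']; exact hi⟩
          refine (L_one hA b' hunb f).subset fun n hn hn' => hn ?_
          exact mem_ulm_one.2 hn'
        · have hpos : 0 < κ := pos_iff_ne_zero.2 h0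
          have hone : 1 < κ := lt_of_le_of_ne (Order.one_le_iff_pos.2 hpos) (Ne.symm h1)
          have hprin : ∀ μ < κ, ∀ ν < κ, μ + ν < κ := by
            intro μ hμ ν hν
            by_contra hc
            rw [not_lt] at hc
            apply hsum
            refine ⟨μ, hμ, κ - μ, ?_, Ordinal.add_sub_cancel_of_le hμ.le⟩
            exact (Ordinal.sub_le.2 hc).trans_lt hν
          have hlim : Order.IsSuccLimit κ := by
            refine ⟨fun hmin => h0 (by simpa using hmin), ?_⟩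
            intro μ hμ
            have h2 := hprin μ hμ.lt 1 hone
            exact hμ.2 (lt_add_one μ) h2
          by_cases hcof : ∃ c : ℕ → Ordinal.{u}, (∀ n, c n < κ) ∧ ∀ μ < κ, ∃ n, μ ≤ c n
          · exact L_lim hA hD b hlim hprin hcof hne f
          · exact L_unc hlim hcof hleft f

end Pool.Agent.Lib_MP_fa2e48_tp
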