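import Mathlib
import Pool.Agent.Lib_MP_fa2e48_tp.NP

/-!
# Partial bases
-/

namespace Pool.Agent.Lib_MP_fa2e48_tp

open Finsupp Pool.Agent.Lib_MP_fa2e48_al

universe u

/-- Bases of a subgroup `K` of `A` modulo `ulm p A κs`, with indices in `A`. -/
structure PB (p : ℕ) (A : Type u) [AddCommGroup A] (κs : Ordinal.{u}) where
  K : AddSubgroup A
  S : Set A
  k : A → Ordinal.{u}
  M : A → ℕ
  rk : A → ℕ
  HK : ulm p A κs ≤ K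
  mem : ∀ a ∈ S, a ∈ K ∧ a ∈ ulm p A (k a) ∧ k a < κs
  rel : ∀ a ∈ S, ∃ γ : A →₀ ℤ, (∀ c ∈ γ.support, c ∈ S ∧ rk c < rk a ∧ k a < k c) ∧
    p ^ M a • a - linearCombination ℤ id γ ∈ ulm p A κs
  span : ∀ κ ≤ κs, ∀ x ∈ K, x ∈ ulm p A κ → ∃ γ : A →₀ ℤ,
    (∀ c ∈ γ.support, c ∈ S ∧ κ ≤ k c) ∧ x - linearCombination ℤ id γ ∈ ulm p A κs
  pure : ∀ κ < κs, ∀ m : ℕ, ∀ γ : A →₀ ℤ, (∀ c ∈ γ.support, c ∈ S ∧ k c = κ) →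
    linearCombination ℤ id γ ∈ pu p A κ m → ∀ c, ((p ^ min m (M c) : ℕ) : ℤ) ∣ γ c

namespace PB

variable {p : ℕ} {A : Type u} [AddCommGroup A] {κs : Ordinal.{u}}

/-- `Q` extends `P`. -/
def le (P Q : PB p A κs) : Prop :=
  P.K ≤ Q.K ∧ P.S ⊆ Q.S ∧ ∀ c ∈ P.S, Q.k c = P.k c ∧ Q.M c = P.M c ∧ Q.rk c = P.rk c

theorem le_refl (P : PB p A κs) : P.le P :=
  ⟨_root_.le_refl _, _root_.le_refl _, fun _ _ => ⟨rfl, rfl, rfl⟩⟩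

theorem le_trans {P Q R : PB p A κs} (h : P.le Q) (h' : Q.le R) : P.le R :=
  ⟨h.1.trans h'.1, h.2.1.trans h'.2.1, fun c hc => by
    obtain ⟨h1, h2, h3⟩ := h.2.2 c hc
    obtain ⟨h4, h5, h6⟩ := h'.2.2 c (h.2.1 hc)
    exact ⟨h4.trans h1, h5.trans h2, h6.trans h3⟩⟩

end PB

end Pool.Agent.Lib_MP_fa2e48_tp
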