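import Mathlib
import Pool.Agent.Lib_MP_fa2e48_tp.PB

/-!
# Extension of partial bases by one element
-/

namespace Pool.Agent.Lib_MP_fa2e48_tp

open Finsupp Pool.Agent.Lib_MP_fa2e48_al

universe u

namespace PB

variable {p : ℕ} [hp : Fact p.Prime] {A : Type u} [AddCommGroup A] {κs : Ordinal.{u}}

private theorem unit_inv' {p : ℕ} (hp : p.Prime) {a : ℤ} (ha : ¬ (p : ℤ) ∣ a) (L : ℕ) :
    ∃ e : ℤ, ((p ^ L : ℕ) : ℤ) ∣ e * a - 1 := by
  have h1 : IsCoprime a (p : ℤ) := by
    have := (Nat.prime_iff_prime_int.1 hp)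
    exact ((Prime.coprime_iff_not_dvd this).2 ha).symm
  have h2 : IsCoprime a ((p : ℤ) ^ L) := h1.pow_right
  obtain ⟨u, v, huv⟩ := h2
  refine ⟨u, -v, ?_⟩
  push_cast
  linear_combination huv

/-- multiples of `x` with a coefficient not divisible by `p ^ (j + 1)` -/
private theorem trick (hA : ∀ a : A, ∃ k : ℕ, p ^ k • a = 0) (K : AddSubgroup A) (a : A) (j : ℕ)
    (c : ℤ) (hc : ¬ (p : ℤ) ^ (j + 1) ∣ c) :
    ∃ s ≤ j, (p : ℤ) ^ s ∣ c ∧ ∀ k ∈ K, ∀ (κ : Ordinal.{u}) (m : ℕ), k + c • a ∈ pu p A κ m →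
      ∃ k' ∈ K, p ^ j • a + k' ∈ pu p A κ (m + (j - s)) := by
  have hc0 : c ≠ 0 := by
    rintro rfl
    exact hc (dvd_zero _)
  obtain ⟨s, c', hc', rfl⟩ : ∃ (s : ℕ) (a' : ℤ), ¬ (p : ℤ) ∣ a' ∧ c = (p : ℤ) ^ s * a' := by
    have hfin : FiniteMultiplicity (p : ℤ) c :=
      Int.finiteMultiplicity_iff.2 ⟨by simpa using hp.out.ne_one, hc0⟩
    obtain ⟨a', h1, h2⟩ := hfin.exists_eq_pow_mul_and_not_dvd
    exact ⟨_, a', h2, h1⟩
  have hs : s ≤ j := by
    by_contra h
    exact hc (Dvd.dvd.mul_right (pow_dvd_pow _ (by omega)) _)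
  refine ⟨s, hs, Dvd.intro _ rfl, ?_⟩
  intro k hk κ m hgp
  obtain ⟨L, hL⟩ := hA a
  obtain ⟨e, he⟩ := unit_inv' hp.out hc' L
  have h1 : e • p ^ (j - s) • (k + ((p : ℤ) ^ s * c') • a) =
      p ^ j • a + (e * (p ^ (j - s) : ℕ)) • k := by
    obtain ⟨d, hd⟩ := he
    have h2 : e • p ^ (j - s) • ((p : ℤ) ^ s * c') • a = p ^ j • a := by
      rw [← natCast_zsmul _ (p ^ (j - s)), ← natCast_zsmul a (p ^ j), smul_smul, smul_smul]
      have h3 : e * ((((p ^ (j - s) : ℕ) : ℤ)) * ((p : ℤ) ^ s * c')) =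
          ((p ^ j : ℕ) : ℤ) + ((p ^ j : ℕ) : ℤ) * d * ((p ^ L : ℕ) : ℤ) := by
        have h4 : ((p ^ (j - s) : ℕ) : ℤ) * (p : ℤ) ^ s = ((p ^ j : ℕ) : ℤ) := by
          push_cast
          rw [← pow_add, Nat.sub_add_cancel hs]
        have h5 : e * c' = 1 + ((p ^ L : ℕ) : ℤ) * d := by linarith
        calc e * ((((p ^ (j - s) : ℕ) : ℤ)) * ((p : ℤ) ^ s * c'))
            = (((p ^ (j - s) : ℕ) : ℤ) * (p : ℤ) ^ s) * (e * c') := by ring
          _ = _ := by rw [h4, h5]; ring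
      rw [mul_assoc, h3, add_smul, mul_smul, natCast_zsmul a (p ^ L), hL, smul_zero, add_zero]
    rw [smul_add, smul_add, h2, add_comm, ← natCast_zsmul k (p ^ (j - s)), smul_smul]
  refine ⟨(e * (p ^ (j - s) : ℕ)) • k, K.zsmul_mem hk _, ?_⟩
  rw [← h1]
  exact AddSubgroup.zsmul_mem _ (pu_smul hgp _) _

omit hp in
private theorem lc_mem (H : AddSubgroup A) (γ : A →₀ ℤ) (h : ∀ c ∈ γ.support, c ∈ H) :
    linearCombination ℤ id γ ∈ H := by
  rw [linearCombination_apply, Finsupp.sum]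
  exact AddSubgroup.sum_mem _ (fun c hc => H.zsmul_mem (h c hc) _)

omit hp in
/-- decomposition of the elements of `K` in `pu p A κ m` -/
private theorem win (P : PB p A κs) {κ : Ordinal.{u}} (hκ : κ < κs) (m : ℕ) {g : A}
    (hg : g ∈ P.K) (hgp : g ∈ pu p A κ m) :
    ∃ k₁ ∈ P.K, k₁ ∈ ulm p A κ ∧ ∃ k₂ ∈ P.K, k₂ ∈ ulm p A (Order.succ κ) ∧
      g = p ^ m • k₁ + k₂ := by
  classical
  have hsuc : Order.succ κ ≤ κs := Order.succ_le_of_lt hκ
  obtain ⟨γ, hγ, hh⟩ := P.span κ hκ.le g hg (pu_le_ulm hgp)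
  obtain ⟨γ₀, hγ₀⟩ : ∃ γ₀, γ₀ = γ.filter (fun c => P.k c = κ) := ⟨_, rfl⟩
  obtain ⟨γ₁, hγ₁⟩ : ∃ γ₁, γ₁ = γ.filter (fun c => ¬ P.k c = κ) := ⟨_, rfl⟩
  have hsum : γ₀ + γ₁ = γ := by rw [hγ₀, hγ₁]; exact Finsupp.filter_add_filter_not γ _
  have h0s : ∀ c ∈ γ₀.support, c ∈ P.S ∧ P.k c = κ := by
    intro c hc
    rw [hγ₀, Finsupp.support_filter, Finset.mem_filter] at hc
    exact ⟨(hγ c hc.1).1, hc.2⟩
  have h1s : ∀ c ∈ γ₁.support, c ∈ P.S ∧ κ < P.k c := by
    intro c hc
    rw [hγ₁, Finsupp.support_filter, Finset.mem_filter] at hc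
    exact ⟨(hγ c hc.1).1, lt_of_le_of_ne (hγ c hc.1).2 (Ne.symm hc.2)⟩
  have hlc1 : linearCombination ℤ id γ₁ ∈ ulm p A (Order.succ κ) := by
    apply lc_mem
    intro c hc
    exact ulm_anti (Order.succ_le_of_lt (h1s c hc).2) (P.mem c (h1s c hc).1).2.1
  have hlc1K : linearCombination ℤ id γ₁ ∈ P.K :=
    lc_mem _ _ (fun c hc => (P.mem c (h1s c hc).1).1)
  obtain ⟨h, hhdef⟩ : ∃ h, h = g - linearCombination ℤ id γ := ⟨_, rfl⟩
  rw [← hhdef] at hh
  have hgeq : g = linearCombination ℤ id γ₀ + (linearCombination ℤ id γ₁ + h) := by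
    rw [hhdef, ← hsum, map_add]; abel
  have hrest : linearCombination ℤ id γ₁ + h ∈ ulm p A (Order.succ κ) :=
    add_mem hlc1 (ulm_anti hsuc hh)
  have hlc0 : linearCombination ℤ id γ₀ ∈ pu p A κ m := by
    have h2 := sub_mem hgp (ulm_le_pu (Order.lt_succ κ) m hrest)
    rwa [hgeq, add_sub_cancel_right] at h2
  have hdvd := P.pure κ hκ m γ₀ h0s hlc0
  have hone : ∀ c ∈ γ₀.support, ∃ k₁ ∈ P.K, k₁ ∈ ulm p A κ ∧ ∃ k₂ ∈ P.K,
      k₂ ∈ ulm p A (Order.succ κ) ∧ γ₀ c • c = p ^ m • k₁ + k₂ := by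
    intro c hc
    obtain ⟨hcS, hck⟩ := h0s c hc
    obtain ⟨hcK, hcu, -⟩ := P.mem c hcS
    rw [hck] at hcu
    obtain ⟨t, ht⟩ := hdvd c
    rcases le_total m (P.M c) with hm | hm
    · rw [min_eq_left hm] at ht
      refine ⟨t • c, P.K.zsmul_mem hcK _, AddSubgroup.zsmul_mem _ hcu _, 0, zero_mem _,
        zero_mem _, ?_⟩
      rw [add_zero, ht, mul_smul, natCast_zsmul]
    · rw [min_eq_right hm] at ht
      refine ⟨0, zero_mem _, zero_mem _, γ₀ c • c, P.K.zsmul_mem hcK _, ?_, ?_⟩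
      · obtain ⟨δ, hδ, hδu⟩ := P.rel c hcS
        have h3 : linearCombination ℤ id δ ∈ ulm p A (Order.succ κ) := by
          apply lc_mem
          intro d hd
          have h4 := (hδ d hd).2.2
          rw [hck] at h4
          exact ulm_anti (Order.succ_le_of_lt h4) (P.mem d (hδ d hd).1).2.1
        have h5 : p ^ P.M c • c ∈ ulm p A (Order.succ κ) := by
          have := add_mem (ulm_anti hsuc hδu) h3
          rwa [sub_add_cancel] at this
        rw [ht, mul_comm, mul_smul, natCast_zsmul]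
        exact AddSubgroup.zsmul_mem _ h5 _
      · rw [smul_zero, zero_add]
  choose! f hf1 hf2 f' hf'1 hf'2 hff using hone
  refine ⟨∑ c ∈ γ₀.support, f c, AddSubgroup.sum_mem _ hf1, AddSubgroup.sum_mem _ hf2,
    ∑ c ∈ γ₀.support, f' c + (linearCombination ℤ id γ₁ + h),
    add_mem (AddSubgroup.sum_mem _ hf'1) (add_mem hlc1K (P.HK hh)),
    add_mem (AddSubgroup.sum_mem _ hf'2) hrest, ?_⟩
  have h6 : linearCombination ℤ id γ₀ = p ^ m • ∑ c ∈ γ₀.support, f c +
      ∑ c ∈ γ₀.support, f' c := by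
    rw [linearCombination_apply, Finsupp.sum, Finset.smul_sum, ← Finset.sum_add_distrib]
    exact Finset.sum_congr rfl (fun c hc => hff c hc)
  rw [hgeq, h6]
  abel

theorem step (hA : ∀ a : A, ∃ k : ℕ, p ^ k • a = 0) (P : PB p A κs) (hP : NP p κs P.K) {z₀ : A}
    (hz : z₀ ∉ P.K) (hpz : p • z₀ ∈ P.K) :
    ∃ Q : PB p A κs, P.le Q ∧ NP p κs Q.K ∧ z₀ ∈ Q.K ∧
      ∃ x : A, Q.K = P.K ⊔ AddSubgroup.zmultiples x := by
  classical
  obtain ⟨κ, hκ, j, s₀, hs₀, hz1, hz2⟩ := hP z₀ hz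
  have hsuc : Order.succ κ ≤ κs := Order.succ_le_of_lt hκ
  obtain ⟨x, hx, hxz⟩ := mem_pu.1 hz1
  have hpzK : p • (z₀ + s₀) ∈ P.K := by
    rw [smul_add]
    exact add_mem hpz (P.K.nsmul_mem hs₀ _)
  have hpzpu : p • (z₀ + s₀) ∈ pu p A κ (j + 1) := by
    have := pu_smul hz1 1
    rwa [pow_one] at this
  obtain ⟨k₁, hk1, hk1', k₂, hk2, hk2', hpz12⟩ := win P hκ (j + 1) hpzK hpzpu
  obtain ⟨a, ha⟩ : ∃ a, a = x - k₁ := ⟨_, rfl⟩
  have hau : a ∈ ulm p A κ := by rw [ha]; exact sub_mem hx hk1'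
  have haM : p ^ (j + 1) • a = k₂ := by
    have h1 : p ^ (j + 1) • x = p • (z₀ + s₀) := by rw [pow_succ', mul_smul, hxz]
    rw [ha, smul_sub, h1, hpz12, add_sub_cancel_left]
  have haj : p ^ j • a = z₀ + s₀ - p ^ j • k₁ := by rw [ha, smul_sub, hxz]
  have hprop : ∀ k ∈ P.K, p ^ j • a + k ∉ pu p A κ (j + 1) := by
    intro k hk
    have h1 : p ^ j • a + k = z₀ + (s₀ - p ^ j • k₁ + k) := by rw [haj]; abel
    rw [h1]
    exact hz2 _ (add_mem (sub_mem hs₀ (P.K.nsmul_mem hk1 _)) hk)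
  have haK : a ∉ P.K := by
    intro h
    apply hprop (-(p ^ j • a)) (neg_mem (P.K.nsmul_mem h _))
    rw [add_neg_cancel]
    exact zero_mem _
  have haS : a ∉ P.S := fun h => haK (P.mem a h).1
  obtain ⟨γa, hγa, hγau⟩ := P.span (Order.succ κ) hsuc k₂ hk2 hk2'
  have hneS : ∀ c ∈ P.S, c ≠ a := fun c hc h => haS (h ▸ hc)
  have hle : P.K ≤ P.K ⊔ AddSubgroup.zmultiples a := le_sup_left
  have hamem : a ∈ P.K ⊔ AddSubgroup.zmultiples a :=
    (le_sup_right : AddSubgroup.zmultiples a ≤ _) (AddSubgroup.mem_zmultiples a)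
  -- a multiple `c • a`, `p ^ (j + 1) ∣ c`
  have hdvdmul : ∀ c : ℤ, (p : ℤ) ^ (j + 1) ∣ c → c • a ∈ P.K ∧ c • a ∈ ulm p A (Order.succ κ) := by
    rintro c ⟨d, rfl⟩
    have h1 : ((p : ℤ) ^ (j + 1) * d) • a = d • k₂ := by
      rw [mul_comm, mul_smul, ← haM, ← natCast_zsmul]
      push_cast
      rfl
    rw [h1]
    exact ⟨P.K.zsmul_mem hk2 _, AddSubgroup.zsmul_mem _ hk2' _⟩
  refine ⟨
    { K := P.K ⊔ AddSubgroup.zmultiples a
      S := insert a P.S
      k := Function.update P.k a κ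
      M := Function.update P.M a (j + 1)
      rk := Function.update P.rk a (γa.support.sup P.rk + 1)
      HK := P.HK.trans hle
      mem := ?_
      rel := ?_
      span := ?_
      pure := ?_ }, ⟨hle, Set.subset_insert _ _, ?_⟩, np_sup (M := j + 1) hP (by rw [haM]; exact hk2),
      ?_, a, rfl⟩
  · intro c hc
    rcases Set.mem_insert_iff.1 hc with rfl | hc
    · rw [Function.update_self]
      exact ⟨hamem, hau, hκ⟩
    · rw [Function.update_of_ne (hneS c hc)]
      have := P.mem c hc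
      exact ⟨hle this.1, this.2.1, this.2.2⟩
  · intro c hc
    rcases Set.mem_insert_iff.1 hc with rfl | hc
    · refine ⟨γa, fun d hd => ?_, ?_⟩
      · have h1 := hγa d hd
        rw [Function.update_of_ne (hneS d h1.1), Function.update_of_ne (hneS d h1.1),
          Function.update_self, Function.update_self]
        refine ⟨Set.mem_insert_of_mem _ h1.1, ?_, Order.succ_le_iff.1 h1.2⟩
        exact Nat.lt_succ_of_le (Finset.le_sup (f := P.rk) hd)
      · rw [Function.update_self, haM]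
        exact hγau
    · obtain ⟨γ, hγ, hγu⟩ := P.rel c hc
      refine ⟨γ, fun d hd => ?_, ?_⟩
      · have h1 := hγ d hd
        rw [Function.update_of_ne (hneS d h1.1), Function.update_of_ne (hneS d h1.1),
          Function.update_of_ne (hneS c hc), Function.update_of_ne (hneS c hc)]
        exact ⟨Set.mem_insert_of_mem _ h1.1, h1.2.1, h1.2.2⟩
      · rw [Function.update_of_ne (hneS c hc)]
        exact hγu
  · intro κ' hκ' g hg hgu
    obtain ⟨k, hk, y, hy, rfl⟩ := AddSubgroup.mem_sup.1 hg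
    obtain ⟨c, rfl⟩ := AddSubgroup.mem_zmultiples_iff.1 hy
    by_cases hca : c • a ∈ P.K
    · obtain ⟨γ, hγ, hγu⟩ := P.span κ' hκ' _ (add_mem hk hca) hgu
      refine ⟨γ, fun d hd => ?_, hγu⟩
      have h1 := hγ d hd
      rw [Function.update_of_ne (hneS d h1.1)]
      exact ⟨Set.mem_insert_of_mem _ h1.1, h1.2⟩
    · have hnd : ¬ (p : ℤ) ^ (j + 1) ∣ c := fun h => hca (hdvdmul c h).1
      obtain ⟨s, hs, -, htr⟩ := trick hA P.K a j c hnd
      obtain ⟨k', hk', hk'u⟩ := htr k hk κ' 0 (by rw [pu_zero]; exact hgu)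
      have hle' : κ' ≤ κ := by
        by_contra h
        exact hprop k' hk' (pu_le_pu (not_le.1 h) _ _ hk'u)
      have hcau : c • a ∈ ulm p A κ' := AddSubgroup.zsmul_mem _ (ulm_anti hle' hau) _
      have hku : k ∈ ulm p A κ' := by
        have := sub_mem hgu hcau
        rwa [add_sub_cancel_right] at this
      obtain ⟨γ, hγ, hγu⟩ := P.span κ' hκ' k hk hku
      refine ⟨γ + single a c, fun d hd => ?_, ?_⟩
      · rcases Finset.mem_union.1 (Finsupp.support_add hd) with h | h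
        · have h1 := hγ d h
          rw [Function.update_of_ne (hneS d h1.1)]
          exact ⟨Set.mem_insert_of_mem _ h1.1, h1.2⟩
        · have h1 : d = a := Finset.mem_singleton.1 (Finsupp.support_single_subset h)
          subst h1
          rw [Function.update_self]
          exact ⟨Set.mem_insert _ _, hle'⟩
      · rw [map_add, linearCombination_single, id, add_sub_add_right_eq_sub]
        exact hγu
  · intro κ' hκ' m γ hγ hlc d
    by_cases hγa0 : γ a = 0
    · by_cases hda : d = a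
      · rw [hda, hγa0]
        exact dvd_zero _
      · rw [Function.update_of_ne hda]
        refine P.pure κ' hκ' m γ (fun c hc => ?_) hlc d
        have hca : c ≠ a := by
          rintro rfl
          exact (Finsupp.mem_support_iff.1 hc) hγa0
        have h1 := hγ c hc
        rw [Function.update_of_ne hca] at h1
        exact ⟨(Set.mem_insert_iff.1 h1.1).resolve_left hca, h1.2⟩
    · have hk' : κ = κ' := by
        have h1 := hγ a (Finsupp.mem_support_iff.2 hγa0)
        rw [Function.update_self] at h1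
        exact h1.2
      subst hk'
      obtain ⟨γ', hγ'⟩ : ∃ γ', γ' = γ.erase a := ⟨_, rfl⟩
      have hsplit : γ' + single a (γ a) = γ := by rw [hγ']; exact Finsupp.erase_add_single a γ
      have hγ's : ∀ c ∈ γ'.support, c ∈ P.S ∧ P.k c = κ := by
        intro c hc
        rw [hγ', Finsupp.support_erase, Finset.mem_erase] at hc
        have h1 := hγ c hc.2
        rw [Function.update_of_ne hc.1] at h1
        exact ⟨(Set.mem_insert_iff.1 h1.1).resolve_left hc.1, h1.2⟩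
      have hlc' : linearCombination ℤ id γ' + γ a • a = linearCombination ℤ id γ := by
        conv_rhs => rw [← hsplit, map_add, linearCombination_single, id]
      have hγ'K : linearCombination ℤ id γ' ∈ P.K :=
        lc_mem _ _ (fun c hc => (P.mem c (hγ's c hc).1).1)
      -- the conclusion from two facts
      have hfin : γ a • a ∈ pu p A κ m → ((p ^ min m (j + 1) : ℕ) : ℤ) ∣ γ a →
          ((p ^ min m (Function.update P.M a (j + 1) d) : ℕ) : ℤ) ∣ γ d := by
        intro h1 h2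
        by_cases hda : d = a
        · rw [hda, Function.update_self]
          exact h2
        · rw [Function.update_of_ne hda]
          have h3 : γ' d = γ d := by rw [hγ', Finsupp.erase_ne hda]
          rw [← h3]
          refine P.pure κ hκ m γ' hγ's ?_ d
          rw [← hlc'] at hlc
          have := sub_mem hlc h1
          rwa [add_sub_cancel_right] at this
      by_cases hnd : (p : ℤ) ^ (j + 1) ∣ γ a
      · apply hfin
        · exact ulm_le_pu (Order.lt_succ κ) m (hdvdmul _ hnd).2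
        · refine dvd_trans ?_ hnd
          push_cast
          exact pow_dvd_pow _ (min_le_right _ _)
      · obtain ⟨s, hs, hsd, htr⟩ := trick hA P.K a j _ hnd
        rw [← hlc'] at hlc
        obtain ⟨k', hk', hk'u⟩ := htr _ hγ'K κ m hlc
        have hms : m ≤ s := by
          by_contra h
          exact hprop k' hk' (pu_anti (by omega) hk'u)
        have hpm : (p : ℤ) ^ m ∣ γ a := dvd_trans (pow_dvd_pow _ hms) hsd
        apply hfin
        · obtain ⟨t, ht⟩ := hpm
          rw [ht]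
          refine mem_pu.2 ⟨t • a, AddSubgroup.zsmul_mem _ hau _, ?_⟩
          rw [← natCast_zsmul, smul_smul]
          push_cast
          rfl
        · refine dvd_trans ?_ hpm
          push_cast
          exact pow_dvd_pow _ (min_le_left _ _)
  · intro c hc
    exact ⟨Function.update_of_ne (hneS c hc) _ _, Function.update_of_ne (hneS c hc) _ _,
      Function.update_of_ne (hneS c hc) _ _⟩
  · have h1 : x ∈ P.K ⊔ AddSubgroup.zmultiples a := by
      have hxa : a + k₁ = x := by rw [ha, sub_add_cancel]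
      rw [← hxa]
      exact add_mem hamem (hle hk1)
    have h2 : z₀ + s₀ ∈ P.K ⊔ AddSubgroup.zmultiples a := by
      rw [← hxz]
      exact AddSubgroup.nsmul_mem _ h1 _
    have h3 := sub_mem h2 (hle hs₀)
    rwa [add_sub_cancel_right] at h3

end PB

end Pool.Agent.Lib_MP_fa2e48_tp
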