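import Mathlib
import Pool.Agent.Lib_MP_fa2e48_tp.PB

/-!
# Unions of chains of partial bases
-/

namespace Pool.Agent.Lib_MP_fa2e48_tp

open Finsupp Pool.Agent.Lib_MP_fa2e48_al

universe u

namespace PB

variable {p : ℕ} {A : Type u} [AddCommGroup A] {κs : Ordinal.{u}}

open scoped Classical in
/-- a member of the chain whose set of generators contains `a` -/
private noncomputable def pick (c : Set (PB p A κs)) (P₀ : PB p A κs) (a : A) : PB p A κs :=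
  if h : ∃ P ∈ c, a ∈ P.S then h.choose else P₀

private theorem pick_spec {c : Set (PB p A κs)} {P₀ : PB p A κs} {a : A} {P : PB p A κs}
    (hP : P ∈ c) (ha : a ∈ P.S) : pick c P₀ a ∈ c ∧ a ∈ (pick c P₀ a).S := by
  have h : ∃ P ∈ c, a ∈ P.S := ⟨P, hP, ha⟩
  unfold pick
  rw [dif_pos h]
  exact h.choose_spec

private theorem pick_eq {c : Set (PB p A κs)} (hc : ∀ P ∈ c, ∀ Q ∈ c, P.le Q ∨ Q.le P)
    {P₀ : PB p A κs} {a : A} {P : PB p A κs} (hP : P ∈ c) (ha : a ∈ P.S) :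
    (pick c P₀ a).k a = P.k a ∧ (pick c P₀ a).M a = P.M a ∧ (pick c P₀ a).rk a = P.rk a := by
  obtain ⟨h1, h2⟩ := pick_spec (P₀ := P₀) hP ha
  rcases hc _ h1 _ hP with h | h
  · obtain ⟨e1, e2, e3⟩ := h.2.2 a h2
    exact ⟨e1.symm, e2.symm, e3.symm⟩
  · exact h.2.2 a ha

private theorem fin_mem {c : Set (PB p A κs)} (hne : c.Nonempty)
    (hc : ∀ P ∈ c, ∀ Q ∈ c, P.le Q ∨ Q.le P) (F : Finset A)
    (hF : ∀ a ∈ F, ∃ P ∈ c, a ∈ P.S) : ∃ P ∈ c, ∀ a ∈ F, a ∈ P.S := by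
  classical
  induction F using Finset.induction_on with
  | empty =>
    obtain ⟨P, hP⟩ := hne
    exact ⟨P, hP, fun a ha => absurd ha (Finset.notMem_empty a)⟩
  | insert a F _ ih =>
    obtain ⟨P, hP, h1⟩ := ih fun b hb => hF b (Finset.mem_insert_of_mem hb)
    obtain ⟨Q, hQ, h2⟩ := hF a (Finset.mem_insert_self a F)
    rcases hc P hP Q hQ with h | h
    · refine ⟨Q, hQ, fun b hb => ?_⟩
      rcases Finset.mem_insert.1 hb with rfl | hb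
      · exact h2
      · exact h.2.1 (h1 b hb)
    · refine ⟨P, hP, fun b hb => ?_⟩
      rcases Finset.mem_insert.1 hb with rfl | hb
      · exact h.2.1 h2
      · exact h1 b hb

/-- Unions of nonempty chains. -/
theorem exists_union (c : Set (PB p A κs)) (hne : c.Nonempty)
    (hc : ∀ P ∈ c, ∀ Q ∈ c, P.le Q ∨ Q.le P) :
    ∃ Q : PB p A κs, (∀ P ∈ c, P.le Q) ∧ ∀ x, x ∈ Q.K ↔ ∃ P ∈ c, x ∈ P.K := by
  obtain ⟨P₀, hP₀⟩ := hne
  have hadd : ∀ {x y : A}, (∃ P ∈ c, x ∈ P.K) → (∃ P ∈ c, y ∈ P.K) → ∃ P ∈ c, x + y ∈ P.K := by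
    rintro x y ⟨P, hP, hx⟩ ⟨Q, hQ, hy⟩
    rcases hc P hP Q hQ with h | h
    · exact ⟨Q, hQ, Q.K.add_mem (h.1 hx) hy⟩
    · exact ⟨P, hP, P.K.add_mem hx (h.1 hy)⟩
  refine ⟨{ K := { carrier := {x | ∃ P ∈ c, x ∈ P.K}
                   add_mem' := fun hx hy => hadd hx hy
                   zero_mem' := ⟨P₀, hP₀, P₀.K.zero_mem⟩
                   neg_mem' := ?_ }
            S := {a | ∃ P ∈ c, a ∈ P.S}
            k := fun a => (pick c P₀ a).k a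
            M := fun a => (pick c P₀ a).M a
            rk := fun a => (pick c P₀ a).rk a
            HK := ?_
            mem := ?_
            rel := ?_
            span := ?_
            pure := ?_ }, ?_, fun x => Iff.rfl⟩
  · rintro x ⟨P, hP, hx⟩
    exact ⟨P, hP, P.K.neg_mem hx⟩
  · intro x hx
    exact ⟨P₀, hP₀, P₀.HK hx⟩
  · rintro a ⟨P, hP, ha⟩
    obtain ⟨e1, -, -⟩ := pick_eq hc (P₀ := P₀) hP ha
    obtain ⟨h1, h2, h3⟩ := P.mem a ha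
    change _ ∧ a ∈ ulm p A ((pick c P₀ a).k a) ∧ (pick c P₀ a).k a < κs
    rw [e1]
    exact ⟨⟨P, hP, h1⟩, h2, h3⟩
  · rintro a ⟨P, hP, ha⟩
    obtain ⟨e1, e2, e3⟩ := pick_eq hc (P₀ := P₀) hP ha
    obtain ⟨γ, h1, h2⟩ := P.rel a ha
    refine ⟨γ, fun d hd => ?_, ?_⟩
    · obtain ⟨h3, h4, h5⟩ := h1 d hd
      obtain ⟨f1, f2, f3⟩ := pick_eq hc (P₀ := P₀) hP h3
      change _ ∧ (pick c P₀ d).rk d < (pick c P₀ a).rk a ∧ (pick c P₀ a).k a < (pick c P₀ d).k d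
      rw [e1, e3, f1, f3]
      exact ⟨⟨P, hP, h3⟩, h4, h5⟩
    · change p ^ (pick c P₀ a).M a • a - _ ∈ _
      rw [e2]
      exact h2
  · rintro κ hκ x ⟨P, hP, hx⟩ hxu
    obtain ⟨γ, h1, h2⟩ := P.span κ hκ x hx hxu
    refine ⟨γ, fun d hd => ?_, h2⟩
    obtain ⟨h3, h4⟩ := h1 d hd
    obtain ⟨f1, -, -⟩ := pick_eq hc (P₀ := P₀) hP h3
    change _ ∧ κ ≤ (pick c P₀ d).k d
    rw [f1]
    exact ⟨⟨P, hP, h3⟩, h4⟩
  · intro κ hκ m γ hγ hlin d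
    obtain ⟨P, hP, h1⟩ := fin_mem ⟨P₀, hP₀⟩ hc γ.support fun a ha => (hγ a ha).1
    have h2 := P.pure κ hκ m γ (fun a ha => by
      have ha1 := h1 a ha
      obtain ⟨f1, -, -⟩ := pick_eq hc (P₀ := P₀) hP ha1
      have f2 : (pick c P₀ a).k a = κ := (hγ a ha).2
      exact ⟨ha1, f1.symm.trans f2⟩) hlin d
    change ((p ^ min m ((pick c P₀ d).M d) : ℕ) : ℤ) ∣ γ d
    by_cases hd : d ∈ γ.support
    · obtain ⟨-, f2, -⟩ := pick_eq hc (P₀ := P₀) hP (h1 d hd)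
      rw [f2]
      exact h2
    · rw [Finsupp.notMem_support_iff.1 hd]
      exact dvd_zero _
  · intro P hP
    refine ⟨fun x hx => ⟨P, hP, hx⟩, fun a ha => ⟨P, hP, ha⟩, fun a ha => ?_⟩
    exact pick_eq hc hP ha

end PB

end Pool.Agent.Lib_MP_fa2e48_tp
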