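import Mathlib
import Pool.Agent.Lib_MP_fa2e48_tp.PBStep
import Pool.Agent.Lib_MP_fa2e48_tp.PBUnion

/-!
# Stages and the existence of bases
-/

namespace Pool.Agent.Lib_MP_fa2e48_tp

open Finsupp Pool.Agent.Lib_MP_fa2e48_al

universe u

namespace PB

variable {p : ℕ} [hp : Fact p.Prime] {A : Type u} [AddCommGroup A] {κs : Ordinal.{u}}

private theorem incl_aux (hA : ∀ a : A, ∃ k : ℕ, p ^ k • a = 0) (g : A) (n : ℕ) :
    ∀ P : PB p A κs, NP p κs P.K → p ^ n • g ∈ P.K →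
    ∃ Q : PB p A κs, P.le Q ∧ NP p κs Q.K ∧ g ∈ Q.K ∧
      ∃ F : Set A, F.Finite ∧ Q.K = P.K ⊔ AddSubgroup.closure F := by
  induction n with
  | zero =>
    intro P hP h
    refine ⟨P, P.le_refl, hP, by simpa using h, ∅, Set.finite_empty, ?_⟩
    rw [AddSubgroup.closure_empty, sup_bot_eq]
  | succ n ih =>
    intro P hP h
    by_cases hn : p ^ n • g ∈ P.K
    · exact ih P hP hn
    · have hpz : p • (p ^ n • g) ∈ P.K := by
        rw [smul_smul, ← pow_succ']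
        exact h
      obtain ⟨Q, hPQ, hQ, hg, x, hx⟩ := step hA P hP hn hpz
      obtain ⟨R, hQR, hR, hgR, F, hF, hRF⟩ := ih Q hQ hg
      refine ⟨R, le_trans hPQ hQR, hR, hgR, insert x F, hF.insert x, ?_⟩
      rw [hRF, hx, sup_assoc, ← Set.singleton_union, AddSubgroup.closure_union,
        AddSubgroup.zmultiples_eq_closure]

theorem incl (hA : ∀ a : A, ∃ k : ℕ, p ^ k • a = 0) (P : PB p A κs) (hP : NP p κs P.K) (g : A) :
    ∃ Q : PB p A κs, P.le Q ∧ NP p κs Q.K ∧ g ∈ Q.K ∧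
      ∃ F : Set A, F.Finite ∧ Q.K = P.K ⊔ AddSubgroup.closure F := by
  obtain ⟨n, hn⟩ := hA g
  exact incl_aux hA g n P hP (by rw [hn]; exact zero_mem _)

/-- inclusion of finitely many elements -/
private theorem incl_finite (hA : ∀ a : A, ∃ k : ℕ, p ^ k • a = 0) {X : Set A} (hX : X.Finite) :
    ∀ P : PB p A κs, NP p κs P.K →
    ∃ Q : PB p A κs, P.le Q ∧ NP p κs Q.K ∧ X ⊆ Q.K ∧
      ∃ F : Set A, F.Finite ∧ Q.K = P.K ⊔ AddSubgroup.closure F := by
  induction X, hX using Set.Finite.induction_on with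
  | empty =>
    intro P hP
    refine ⟨P, P.le_refl, hP, Set.empty_subset _, ∅, Set.finite_empty, ?_⟩
    rw [AddSubgroup.closure_empty, sup_bot_eq]
  | @insert a X _ _ ih =>
    intro P hP
    obtain ⟨Q, hPQ, hQ, hX, F, hF, hQF⟩ := ih P hP
    obtain ⟨R, hQR, hR, hgR, F', hF', hRF⟩ := incl hA Q hQ a
    refine ⟨R, le_trans hPQ hQR, hR, ?_, F ∪ F', hF.union hF', ?_⟩
    · rw [Set.insert_subset_iff]
      exact ⟨hgR, hX.trans hQR.1⟩
    · rw [hRF, hQF, sup_assoc, ← AddSubgroup.closure_union]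

/-- A state of the construction. -/
private structure St {C : Type u} [AddCommGroup C] (S : Set (AddSubgroup C)) (P : PB p A κs)
    (N : AddSubgroup C) where
  Q : PB p A κs
  le : P.le Q
  np : NP p κs Q.K
  F : Set A
  hF : F.Finite
  hK : Q.K = P.K ⊔ AddSubgroup.closure F
  N' : AddSubgroup C
  hN' : N' ∈ S
  G : ℕ → Set C
  hG : ∀ i, (G i).Finite
  mono : Monotone G
  hNG : N' = N ⊔ AddSubgroup.closure (⋃ i, G i)

private theorem next {C : Type u} [AddCommGroup C] (hA : ∀ a : A, ∃ k : ℕ, p ^ k • a = 0)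
    (q : A →+ C) (hq : Function.Surjective q) (S : Set (AddSubgroup C))
    (hcount : ∀ N ∈ S, ∀ X : Set C, X.Countable → ∃ N' ∈ S, N ≤ N' ∧ X ⊆ N' ∧
      ∃ Y : Set C, Y.Countable ∧ N' = N ⊔ AddSubgroup.closure Y)
    (P : PB p A κs) (N : AddSubgroup C) (hP : P.K = N.comap q) (c : C) (m : ℕ) (s : St S P N) :
    ∃ s' : St S P N, s.Q.le s'.Q ∧ s.N' ≤ s'.N' ∧ s.Q.K ≤ s'.N'.comap q ∧ c ∈ s'.N' ∧
      (∀ i, s.G i ⊆ s'.G i) ∧ ∀ y ∈ s.G m, ∃ x ∈ s'.Q.K, q x = y := by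
  classical
  obtain ⟨N'', hN''S, hle, hX, Y, hY, hN''Y⟩ := hcount s.N' s.hN' (insert c (q '' s.F))
    ((s.hF.image q).countable.insert c)
  obtain ⟨f, hf⟩ := (hY.insert 0).exists_eq_range (Set.insert_nonempty _ _)
  obtain ⟨Q', hQQ', hQ', hXQ', F', hF', hQF'⟩ := incl_finite hA
    ((s.hG m).image (Function.surjInv hq)) s.Q s.np
  have hun : (⋃ i, (s.G i ∪ f '' Set.Iic i)) = (⋃ i, s.G i) ∪ Set.range f := by
    rw [Set.iUnion_union_distrib]
    congr 1
    ext y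
    simp only [Set.mem_iUnion, Set.mem_image, Set.mem_Iic, Set.mem_range]
    constructor
    · rintro ⟨i, j, -, rfl⟩
      exact ⟨j, rfl⟩
    · rintro ⟨j, rfl⟩
      exact ⟨j, j, _root_.le_refl j, rfl⟩
  refine ⟨⟨Q', le_trans s.le hQQ', hQ', s.F ∪ F', s.hF.union hF', ?_, N'', hN''S,
    fun i => s.G i ∪ f '' Set.Iic i, fun i => (s.hG i).union ((Set.finite_Iic i).image f),
    fun i j hij => Set.union_subset_union (s.mono hij) (Set.image_mono (Set.Iic_subset_Iic.2 hij)),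
    ?_⟩, hQQ', hle, ?_, hX (Set.mem_insert _ _), fun i => Set.subset_union_left, ?_⟩
  · rw [hQF', s.hK, sup_assoc, ← AddSubgroup.closure_union]
  · rw [hun, AddSubgroup.closure_union, ← sup_assoc, ← s.hNG, ← hf,
      AddSubgroup.closure_insert_zero]
    exact hN''Y
  · change s.Q.K ≤ N''.comap q
    rw [s.hK, hP]
    refine sup_le (AddSubgroup.comap_mono ?_) ?_
    · refine _root_.le_trans ?_ hle
      rw [s.hNG]
      exact le_sup_left
    · rw [AddSubgroup.closure_le]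
      intro x hx
      exact hX (Set.mem_insert_of_mem _ ⟨x, hx, rfl⟩)
  · intro y hy
    exact ⟨Function.surjInv hq y, hXQ' ⟨y, hy, rfl⟩, Function.surjInv_eq hq y⟩

theorem stage (hA : ∀ a : A, ∃ k : ℕ, p ^ k • a = 0) {C : Type u} [AddCommGroup C] (q : A →+ C)
    (hq : Function.Surjective q) (hker : ∀ x, q x = 0 ↔ x ∈ ulm p A κs) (S : Set (AddSubgroup C))
    (hS : ∀ N ∈ S, IsNice p N) (hsup : ∀ T ⊆ S, sSup T ∈ S)
    (hcount : ∀ N ∈ S, ∀ X : Set C, X.Countable → ∃ N' ∈ S, N ≤ N' ∧ X ⊆ N' ∧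
      ∃ Y : Set C, Y.Countable ∧ N' = N ⊔ AddSubgroup.closure Y)
    (P : PB p A κs) {N : AddSubgroup C} (hN : N ∈ S) (hP : P.K = N.comap q) (c : C) :
    ∃ Q : PB p A κs, P.le Q ∧ ∃ N' ∈ S, Q.K = N'.comap q ∧ c ∈ N' := by
  classical
  have hNP : NP p κs P.K := by
    rw [hP]
    exact np_of_nice q hq hker (hS N hN)
  let s₀ : St S P N := ⟨P, P.le_refl, hNP, ∅, Set.finite_empty, by
    rw [AddSubgroup.closure_empty, sup_bot_eq], N, hN, fun _ => ∅, fun _ => Set.finite_empty,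
    fun _ _ _ => _root_.le_refl _, by
      rw [Set.iUnion_empty, AddSubgroup.closure_empty, sup_bot_eq]⟩
  choose nx hnx using next hA q hq S hcount P N hP c
  let s : ℕ → St S P N := fun n => Nat.rec s₀ (fun m t => nx m t) n
  have hs : ∀ n, s (n + 1) = nx n (s n) := fun n => rfl
  have h1 : ∀ n, (s n).Q.le (s (n + 1)).Q := fun n => (hnx n (s n)).1
  have h2 : ∀ n, (s n).N' ≤ (s (n + 1)).N' := fun n => (hnx n (s n)).2.1
  have h3 : ∀ n, (s n).Q.K ≤ (s (n + 1)).N'.comap q := fun n => (hnx n (s n)).2.2.1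
  have h4 : ∀ n, c ∈ (s (n + 1)).N' := fun n => (hnx n (s n)).2.2.2.1
  have h5 : ∀ n i, (s n).G i ⊆ (s (n + 1)).G i := fun n => (hnx n (s n)).2.2.2.2.1
  have h6 : ∀ n, ∀ y ∈ (s n).G n, ∃ x ∈ (s (n + 1)).Q.K, q x = y :=
    fun n => (hnx n (s n)).2.2.2.2.2
  have hmle : ∀ m n, m ≤ n → (s m).Q.le (s n).Q := by
    intro m n hmn
    induction n, hmn using Nat.le_induction with
    | base => exact le_refl _
    | succ n _ ih => exact le_trans ih (h1 n)
  have hN'mono : Monotone fun n => (s n).N' := monotone_nat_of_le_succ h2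
  have hGmono : ∀ i, Monotone fun n => (s n).G i := fun i => monotone_nat_of_le_succ fun n => h5 n i
  obtain ⟨Q, hQ, hQK⟩ := exists_union (Set.range fun n => (s n).Q) (Set.range_nonempty _) (by
    rintro _ ⟨m, rfl⟩ _ ⟨n, rfl⟩
    rcases le_total m n with h | h
    · exact Or.inl (hmle m n h)
    · exact Or.inr (hmle n m h))
  have hsQ : ∀ n, (s n).Q.K ≤ Q.K := fun n => (hQ _ ⟨n, rfl⟩).1
  have hPQ : P.le Q := hQ P ⟨0, rfl⟩
  have hNle : N ≤ Q.K.map q := by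
    intro y hy
    obtain ⟨x, rfl⟩ := hq y
    refine ⟨x, hPQ.1 ?_, rfl⟩
    rw [hP]
    exact hy
  have hle : ∀ n, (s n).N' ≤ Q.K.map q := by
    intro n
    rw [(s n).hNG]
    refine sup_le hNle ?_
    rw [AddSubgroup.closure_le]
    intro y hy
    obtain ⟨i, hi⟩ := Set.mem_iUnion.1 hy
    have h7 : y ∈ (s (max n i)).G (max n i) :=
      (s (max n i)).mono (le_max_right n i) (hGmono i (le_max_left n i) hi)
    obtain ⟨x, hx, hxy⟩ := h6 _ y h7
    exact ⟨x, hsQ (max n i + 1) hx, hxy⟩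
  refine ⟨Q, hPQ, sSup (Set.range fun n => (s n).N'), hsup _ ?_, ?_, ?_⟩
  · rintro _ ⟨n, rfl⟩
    exact (s n).hN'
  · apply le_antisymm
    · intro x hx
      obtain ⟨_, ⟨n, rfl⟩, hxn⟩ := (hQK x).1 hx
      have h8 : q x ∈ (s (n + 1)).N' := h3 n hxn
      exact (le_sSup (Set.mem_range_self (n + 1)) : (s (n + 1)).N' ≤ _) h8
    · intro x hx
      have h9 : sSup (Set.range fun n => (s n).N') ≤ Q.K.map q := by
        refine sSup_le ?_
        rintro _ ⟨n, rfl⟩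
        exact hle n
      obtain ⟨x', hx', hxx'⟩ := h9 hx
      have h10 : x - x' ∈ Q.K := by
        refine Q.HK ((hker _).1 ?_)
        rw [map_sub, hxx', sub_self]
      have h11 := Q.K.add_mem h10 hx'
      rwa [sub_add_cancel] at h11
  · exact (le_sSup (Set.mem_range_self 1) : (s 1).N' ≤ _) (h4 0)

end PB

end Pool.Agent.Lib_MP_fa2e48_tp
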