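import Mathlib
import Pool.Agent.Lib_MP_fa2e48_tp.PBStage

/-!
# Existence of bases
-/

namespace Pool.Agent.Lib_MP_fa2e48_tp

open Finsupp Pool.Agent.Lib_MP_fa2e48_al

universe u

private theorem lc_subtypeDomain {A : Type u} [AddCommGroup A] {S : Set A} (γ : A →₀ ℤ)
    (h : ∀ c ∈ γ.support, c ∈ S) :
    linearCombination ℤ (fun i : S => (i : A)) (Finsupp.subtypeDomain (· ∈ S) γ) =
      linearCombination ℤ id γ := by
  classical
  have h1 : Finsupp.mapDomain (fun i : S => (i : A)) (Finsupp.subtypeDomain (· ∈ S) γ) = γ := by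
    ext c
    by_cases hc : c ∈ S
    · have h2 := Finsupp.mapDomain_apply (f := fun i : S => (i : A)) Subtype.val_injective
        (Finsupp.subtypeDomain (· ∈ S) γ) ⟨c, hc⟩
      rw [h2, Finsupp.subtypeDomain_apply]
    · rw [Finsupp.mapDomain_of_notMem_range]
      · by_contra h0
        exact hc (h c (Finsupp.mem_support_iff.2 (Ne.symm h0)))
      · rintro ⟨i, hi⟩
        exact hc (hi ▸ i.2)
  conv_rhs => rw [← h1]
  rw [Finsupp.linearCombination_mapDomain]
  rfl

private theorem lc_mapDomain {A : Type u} [AddCommGroup A] {S : Set A} (γ : S →₀ ℤ) :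
    linearCombination ℤ id (Finsupp.mapDomain (fun i : S => (i : A)) γ) =
      linearCombination ℤ (fun i : S => (i : A)) γ := by
  rw [Finsupp.linearCombination_mapDomain]
  rfl

theorem exists_ulmBasis {p : ℕ} [Fact p.Prime] {A : Type u} [AddCommGroup A]
    (hA : ∀ a : A, ∃ k : ℕ, p ^ k • a = 0) {κs : Ordinal.{u}} {C : Type u} [AddCommGroup C]
    (q : A →+ C) (hq : Function.Surjective q) (hker : ∀ x, q x = 0 ↔ x ∈ ulm p A κs)
    (h3 : AxiomThree p C) : ∃ I : Type u, Nonempty (UlmBasis p A κs I) := by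
  classical
  obtain ⟨S, hnice, hbot, hsup, hcount⟩ := h3
  let P0 : PB p A κs :=
    { K := ulm p A κs
      S := ∅
      k := fun _ => 0
      M := fun _ => 0
      rk := fun _ => 0
      HK := le_refl _
      mem := fun a ha => absurd ha (Set.notMem_empty a)
      rel := fun a ha => absurd ha (Set.notMem_empty a)
      span := fun κ _ x hx _ => ⟨0, by simp, by simpa using hx⟩
      pure := fun κ _ m γ hγ _ c => by
        have h0 : γ c = 0 := by
          by_contra hc
          exact (hγ c (Finsupp.mem_support_iff.2 hc)).1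
        rw [h0]
        exact dvd_zero _ }
  let X := {P : PB p A κs // ∃ N ∈ S, P.K = N.comap q}
  have hP0 : ∃ N ∈ S, P0.K = N.comap q := ⟨⊥, hbot, by
    ext x
    rw [AddSubgroup.mem_comap, AddSubgroup.mem_bot, hker]⟩
  obtain ⟨m, hm⟩ := exists_maximal_of_chains_bounded (α := X) (r := fun P Q => P.1.le Q.1)
    (by
      intro c hc
      rcases c.eq_empty_or_nonempty with rfl | hne
      · exact ⟨⟨P0, hP0⟩, fun a ha => absurd ha (Set.notMem_empty a)⟩
      have hc' : ∀ P ∈ Subtype.val '' c, ∀ Q ∈ Subtype.val '' c, P.le Q ∨ Q.le P := by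
        rintro _ ⟨P, hP, rfl⟩ _ ⟨Q, hQ, rfl⟩
        by_cases hPQ : P = Q
        · subst hPQ
          exact Or.inl (PB.le_refl _)
        · exact hc hP hQ hPQ
      obtain ⟨Q, hQ1, hQ2⟩ := PB.exists_union (Subtype.val '' c) (hne.image _) hc'
      let T : Set (AddSubgroup C) := {N | N ∈ S ∧ ∃ P ∈ c, P.1.K = N.comap q}
      have hTne : T.Nonempty := by
        obtain ⟨P, hP⟩ := hne
        obtain ⟨N, hN, hPN⟩ := P.2
        exact ⟨N, hN, P, hP, hPN⟩
      have hdir : DirectedOn (· ≤ ·) T := by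
        rintro N1 ⟨hN1, P1, hP1, h1⟩ N2 ⟨hN2, P2, hP2, h2⟩
        rcases hc' P1.1 ⟨P1, hP1, rfl⟩ P2.1 ⟨P2, hP2, rfl⟩ with h | h
        · refine ⟨N2, ⟨hN2, P2, hP2, h2⟩, ?_, le_refl _⟩
          have h3 := h.1
          rw [h1, h2] at h3
          exact (AddSubgroup.comap_le_comap_of_surjective hq).1 h3
        · refine ⟨N1, ⟨hN1, P1, hP1, h1⟩, le_refl _, ?_⟩
          have h3 := h.1
          rw [h1, h2] at h3
          exact (AddSubgroup.comap_le_comap_of_surjective hq).1 h3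
      refine ⟨⟨Q, sSup T, hsup T fun N hN => hN.1, ?_⟩, fun P hP => hQ1 P.1 ⟨P, hP, rfl⟩⟩
      ext x
      rw [hQ2, AddSubgroup.mem_comap, AddSubgroup.mem_sSup_of_directedOn hTne hdir]
      constructor
      · rintro ⟨_, ⟨P, hP, rfl⟩, hx⟩
        obtain ⟨N, hN, hPN⟩ := P.2
        refine ⟨N, ⟨hN, P, hP, hPN⟩, ?_⟩
        rw [hPN] at hx
        exact hx
      · rintro ⟨N, ⟨hN, P, hP, hPN⟩, hx⟩
        refine ⟨P.1, ⟨P, hP, rfl⟩, ?_⟩
        rw [hPN]
        exact hx)
    (fun h h' => PB.le_trans h h')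
  obtain ⟨P, N, hN, hPN⟩ := m
  have htop : ∀ x : A, x ∈ P.K := by
    intro x
    obtain ⟨Q, hPQ, N', hN', hQK, hx⟩ := PB.stage hA q hq hker S hnice hsup hcount P hN hPN (q x)
    have h1 : Q.le P := hm ⟨Q, N', hN', hQK⟩ hPQ
    apply h1.1
    rw [hQK]
    exact hx
  choose! γ hγ1 hγ2 using P.rel
  refine ⟨P.S, ⟨
    { a := fun i => i.1
      k := fun i => P.k i.1
      M := fun i => P.M i.1
      rk := fun i => P.rk i.1
      β := fun i => Finsupp.subtypeDomain (· ∈ P.S) (γ i.1)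
      k_lt := fun i => (P.mem i.1 i.2).2.2
      mem := fun i => (P.mem i.1 i.2).2.1
      dep := ?_
      rel := ?_
      span := ?_
      indep := ?_ }⟩⟩
  · intro i j hj
    have h1 : (j : A) ∈ (γ i.1).support := by
      rw [Finsupp.mem_support_iff] at hj ⊢
      simpa using hj
    exact (hγ1 i.1 i.2 j.1 h1).2
  · intro i
    rw [lc_subtypeDomain _ fun c hc => (hγ1 i.1 i.2 c hc).1]
    exact hγ2 i.1 i.2
  · intro κ hκ x hx
    obtain ⟨δ, hδ1, hδ2⟩ := P.span κ hκ x (htop x) hx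
    refine ⟨Finsupp.subtypeDomain (· ∈ P.S) δ, ?_, ?_⟩
    · intro j hj
      have h1 : (j : A) ∈ δ.support := by
        rw [Finsupp.mem_support_iff] at hj ⊢
        simpa using hj
      exact (hδ1 j.1 h1).2
    · rw [lc_subtypeDomain _ fun c hc => (hδ1 c hc).1]
      exact hδ2
  · intro κ hκ δ hδ hlc j
    have h1 := P.pure κ hκ (P.M j.1) (Finsupp.mapDomain (fun i : P.S => (i : A)) δ) ?_ ?_ j.1
    · rw [min_self] at h1
      have h2 := Finsupp.mapDomain_apply (f := fun i : P.S => (i : A)) Subtype.val_injective δ j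
      rw [h2] at h1
      exact h1
    · intro c hc
      obtain ⟨i, hi, rfl⟩ := Finset.mem_image.1 (Finsupp.mapDomain_support hc)
      exact ⟨i.2, hδ i hi⟩
    · rw [lc_mapDomain]
      exact ulm_le_pu (Order.lt_succ κ) _ hlc

end Pool.Agent.Lib_MP_fa2e48_tp
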