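import Mathlib
import Pool.Agent.Lib_MP_fa2e48_al.Summand
import Pool.Agent.Lib_MP_fa2e48_al.DSC
import Pool.Agent.Lib_MP_fa2e48_ulm.Chain
import Pool.Agent.Lib_MP_fa2e48_dsc.O
import Pool.Agent.Lib_MP_fa2e48_tp.LAll
import Pool.Agent.Lib_MP_fa2e48_tp.PBTop

/-!
# The reduction theorem
-/

namespace Pool.Agent.Lib_MP_fa2e48_tp

open Finsupp Pool.Agent.Lib_MP_fa2e48_al

universe u

theorem ulm_torsion {p : ℕ} {A : Type u} [AddCommGroup A]
    (hA : ∀ a : A, ∃ k : ℕ, p ^ k • a = 0) (κ : Ordinal.{u}) :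
    ∀ a : ulm p A κ, ∃ k : ℕ, p ^ k • a = 0 := by
  intro a
  obtain ⟨k, hk⟩ := hA a
  exact ⟨k, Subtype.ext hk⟩

theorem exists_of_ulm_ne_bot {p : ℕ} {A : Type u} [AddCommGroup A] {μ κ : Ordinal.{u}}
    (hμ : μ < κ) (hne : ulm p A κ ≠ ⊥) (n : ℕ) : ∃ x ∈ ulm p A μ, p ^ n • x ≠ 0 := by
  obtain ⟨y, hy⟩ := AddSubgroup.ne_bot_iff_exists_ne_zero.1 hne
  obtain ⟨x, hx, hxy⟩ := mem_ulm.1 y.2 μ hμ n
  exact ⟨x, hx, by rw [hxy]; exact fun h => hy (Subtype.ext h)⟩

theorem slender_iff {p : ℕ} [Fact p.Prime] {A : Type u} [AddCommGroup A]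
    (hA : ∀ a : A, ∃ k : ℕ, p ^ k • a = 0) {κ : Ordinal.{u}} {I : Type u} (b : UlmBasis p A κ I)
    (hne : ulm p A κ ≠ ⊥) :
    IsSlender (AddMonoid.End A) A ↔ IsSlender (AddMonoid.End (ulm p A κ)) (ulm p A κ) := by
  by_cases hD : divPart p A = ⊥
  · have h1 : IsSlender (AddMonoid.End A) A ↔ IsSlender (AddMonoid.End A) (ulmS p A κ) := by
      constructor
      · intro h
        exact h.submodule _
      · intro h
        refine isSlender_of_submodule (ulmS p A κ) (fun f => ?_) h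
        exact L_all κ hA hD b (fun μ hμ n => exists_of_ulm_ne_bot hμ hne n) f
    have h2 : IsSlender (AddMonoid.End A) (ulmS p A κ) ↔
        IsSlender (AddMonoid.End (ulmS p A κ)) (ulmS p A κ) := by
      constructor
      · exact Lib_MP_fa2e48_dsc.slender_own _
      · exact Lib_MP_fa2e48_dsc.slender_of_own _ (extEnd_of_basis b) (kills_all κ b hD hne)
    exact h1.trans h2
  · have hD' : divPart p (ulm p A κ) ≠ ⊥ := by
      obtain ⟨d, hd, hd0⟩ := (Submodule.ne_bot_iff _).1 hD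
      exact (Submodule.ne_bot_iff _).2 ⟨⟨d, mem_divPart_ulm κ d hd⟩,
        (divPart_ulm κ _).2 hd, fun h => hd0 (congrArg Subtype.val h)⟩
    rw [Lib_MP_fa2e48_ulm.slender_iff_of_nonreduced hA hD,
      Lib_MP_fa2e48_ulm.slender_iff_of_nonreduced (ulm_torsion hA κ) hD']
    have himg : {d : A | d ∈ divPart p A ∧ p • d = 0} =
        Subtype.val '' {d : ulm p A κ | d ∈ divPart p (ulm p A κ) ∧ p • d = 0} := by
      ext d
      constructor
      · rintro ⟨h1, h2⟩
        exact ⟨⟨d, mem_divPart_ulm κ d h1⟩, ⟨(divPart_ulm κ _).2 h1, Subtype.ext h2⟩, rfl⟩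
      · rintro ⟨d, ⟨h1, h2⟩, rfl⟩
        exact ⟨(divPart_ulm κ _).1 h1, congrArg Subtype.val h2⟩
    rw [himg, Set.infinite_image_iff Subtype.val_injective.injOn]

/-- Reduced groups satisfying the third axiom of countability. -/
theorem slender_of_axiomThree {p : ℕ} [Fact p.Prime] {A : Type u} [AddCommGroup A]
    (hA : ∀ a : A, ∃ k : ℕ, p ^ k • a = 0) (hD : divPart p A = ⊥) {C : Type u} [AddCommGroup C]
    (q : A →+ C) (hq : Function.Surjective q) (hker : ∀ x, q x = 0 → x = 0) (h3 : AxiomThree p C)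
    (hF : ∀ N : AddSubgroup A, (∀ φ : AddMonoid.End A, ∀ x ∈ N, φ x ∈ N) → (N : Set A).Finite →
      N = ⊥) : IsSlender (AddMonoid.End A) A := by
  -- the Ulm length
  obtain ⟨κ, hκ, hmin⟩ : ∃ κ : Ordinal.{u}, ulm p A κ = ⊥ ∧ ∀ μ < κ, ulm p A μ ≠ ⊥ := by
    have h := exists_length (p := p) (A := A) hD
    refine ⟨sInf {κ | ulm p A κ = ⊥}, csInf_mem h, fun μ hμ hc => ?_⟩
    exact notMem_of_lt_csInf hμ (OrderBot.bddBelow _) hc
  obtain ⟨I, ⟨b⟩⟩ := exists_ulmBasis hA q hq (κs := κ)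
    (fun x => by
      rw [hκ, AddSubgroup.mem_bot]
      exact ⟨hker x, fun h => by rw [h, map_zero]⟩) h3
  rcases Ordinal.zero_or_succ_or_isSuccLimit κ with rfl | ⟨μ, rfl⟩ | hlim
  · -- `A = 0`
    intro f
    convert Set.finite_empty (α := ℕ)
    ext n
    have h1 : f (Pi.single n 1) ∈ ulm p A 0 := by rw [ulm_zero]; trivial
    rw [hκ, AddSubgroup.mem_bot] at h1
    simpa using h1
  · -- successor length
    have hμ : ulm p A μ ≠ ⊥ := hmin μ (Order.lt_succ μ)
    obtain ⟨b₁⟩ := b.left (Order.le_succ μ)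
    rw [slender_iff hA b₁ hμ]
    have hU := ulm_torsion hA μ
    have hDU := divPart_ulm_eq_bot hD μ
    obtain ⟨b₂⟩ := UlmBasis.right (μ := μ) (ν := 1) (Order.succ_eq_add_one μ ▸ b)
    have hinf : infHeight p (ulm p A μ) = ⊥ := by
      rw [Submodule.eq_bot_iff]
      intro x hx
      have h2 : x ∈ ulm p (ulm p A μ) 1 := mem_ulm_one.2 hx
      rw [mem_ulm_ulm, ← Order.succ_eq_add_one, hκ, AddSubgroup.mem_bot] at h2
      exact Subtype.ext h2
    by_cases hunb : ∀ n : ℕ, ∃ x : ulm p A μ, p ^ n • x ≠ 0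
    · obtain ⟨b', hb'⟩ := b₂.toRelBasis
      intro f
      have h1 := L_one hU b' (fun N => by
        obtain ⟨i, -, hi⟩ := b₂.window hDU (κ := 0) zero_lt_one (fun n => by
          obtain ⟨x, hx⟩ := hunb n
          exact ⟨x, by rw [ulm_zero]; trivial, hx⟩) N
        exact ⟨i, by rw [hb']; exact hi⟩) f
      rw [hinf] at h1
      simpa using h1
    · push Not at hunb
      classical
      obtain ⟨n, hn, hnmin⟩ : ∃ n, (∀ x : ulm p A μ, p ^ n • x = 0) ∧
          ∀ j < n, ¬ (∀ x : ulm p A μ, p ^ j • x = 0) :=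
        ⟨Nat.find hunb, Nat.find_spec hunb, fun j hj => Nat.find_min hunb hj⟩
      rcases n with _ | k
      · exfalso
        apply hμ
        rw [AddSubgroup.eq_bot_iff_forall]
        intro x hx
        have h1 := hn ⟨x, hx⟩
        rw [pow_zero, one_smul] at h1
        exact congrArg Subtype.val h1
      · refine slender_of_bounded k hn fun hfin => ?_
        have h1 := hnmin k (Nat.lt_succ_self k)
        push Not at h1
        obtain ⟨x, hx⟩ := h1
        have h2 : pu p A μ k = ⊥ := by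
          refine hF _ (fun φ y hy => map_pu (φ : A →+ A) hy) ?_
          refine (hfin.image Subtype.val).subset ?_
          intro y hy
          obtain ⟨w, hw, rfl⟩ := mem_pu.1 hy
          exact ⟨p ^ k • ⟨w, hw⟩, ⟨⟨w, hw⟩, rfl⟩, rfl⟩
        have h3 : p ^ k • (x : A) ∈ pu p A μ k := mem_pu.2 ⟨x, x.2, rfl⟩
        rw [h2, AddSubgroup.mem_bot] at h3
        exact hx (Subtype.ext h3)
  · -- limit length
    intro f
    have h1 := L_all κ hA hD b (fun μ hμ n =>
      exists_of_ulm_ne_bot (Order.lt_succ μ) (hmin _ (hlim.succ_lt hμ)) n) f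
    rw [hκ] at h1
    simpa using h1

end Pool.Agent.Lib_MP_fa2e48_tp
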